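import Mathlib

/-!
# Unlabeled induced subgraphs
-/

namespace Pool.Agent.Lib.MP_52097a_pr

/-- Two vertex sets are equivalent when they induce isomorphic subgraphs of `G`. -/
def indSetoid {V : Type*} (G : SimpleGraph V) : Setoid (Set V) where
  r S S' := Nonempty (G.induce S ≃g G.induce S')
  iseqv := ⟨fun _ => ⟨SimpleGraph.Iso.refl⟩, fun ⟨φ⟩ => ⟨φ.symm⟩, fun ⟨φ⟩ ⟨ψ⟩ => ⟨φ.trans ψ⟩⟩

/-- The number of unlabeled induced subgraphs of `G`: the number of isomorphism classes among the
induced subgraphs `G.induce S`, where `S` ranges over all vertex sets. -/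
noncomputable def numUnlabeled {V : Type*} (G : SimpleGraph V) : ℕ :=
  Nat.card (Quotient (indSetoid G))

end Pool.Agent.Lib.MP_52097a_pr
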