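import Mathlib
import Pool.Agent.Lib.MP_52097a_pr.Defs

/-!
# Counting unlabeled induced subgraphs of a caterpillar
-/

namespace Pool.Agent.Lib.MP_52097a_pr

open Finset

variable {V : Type*}

/-- `y` has three distinct neighbours in `Y`. -/
def P3 (G : SimpleGraph V) (Y : Set V) (y : V) : Prop :=
  ∃ a b c, a ∈ Y ∧ b ∈ Y ∧ c ∈ Y ∧ a ≠ b ∧ b ≠ c ∧ a ≠ c ∧ G.Adj y a ∧ G.Adj y b ∧ G.Adj y c

lemma P3_of_iso {G : SimpleGraph V} {Y Z : Set V} (φ : G.induce Y ≃g G.induce Z) (y : Y)
    (h : P3 G Y y) : P3 G Z (φ y) := by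
  obtain ⟨a, b, c, ha, hb, hc, hab, hbc, hac, h1, h2, h3⟩ := h
  refine ⟨φ ⟨a, ha⟩, φ ⟨b, hb⟩, φ ⟨c, hc⟩, (φ ⟨a, ha⟩).2, (φ ⟨b, hb⟩).2, (φ ⟨c, hc⟩).2,
    ?_, ?_, ?_, ?_, ?_, ?_⟩
  · intro h
    exact hab (congrArg Subtype.val (φ.injective (Subtype.ext h)))
  · intro h
    exact hbc (congrArg Subtype.val (φ.injective (Subtype.ext h)))
  · intro h
    exact hac (congrArg Subtype.val (φ.injective (Subtype.ext h)))
  · exact (φ.map_adj_iff (v := y) (w := ⟨a, ha⟩)).2 h1
  · exact (φ.map_adj_iff (v := y) (w := ⟨b, hb⟩)).2 h2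
  · exact (φ.map_adj_iff (v := y) (w := ⟨c, hc⟩)).2 h3

lemma P3_iff_iso {G : SimpleGraph V} {Y Z : Set V} (φ : G.induce Y ≃g G.induce Z) (y : Y) :
    P3 G Y y ↔ P3 G Z (φ y) := by
  refine ⟨P3_of_iso φ y, fun h => ?_⟩
  have := P3_of_iso φ.symm (φ y) h
  simpa using this

/-- An abstract caterpillar in `G`: an induced path `u 0, …, u (k-1)` and pendant legs `w i`
attached at inner vertices. -/
structure IsCat (G : SimpleGraph V) (k : ℕ) (u : ℕ → V) (I : Finset ℕ) (w : ℕ → V) : Prop where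
  inj : ∀ i j, i < k → j < k → u i = u j → i = j
  adj : ∀ i j, i < k → j < k → (G.Adj (u i) (u j) ↔ i + 1 = j ∨ j + 1 = i)
  inner : ∀ i ∈ I, 1 ≤ i ∧ i + 1 < k
  winj : ∀ i ∈ I, ∀ j ∈ I, w i = w j → i = j
  wu : ∀ i ∈ I, ∀ j, j < k → w i ≠ u j
  wadj : ∀ i ∈ I, ∀ j, j < k → (G.Adj (w i) (u j) ↔ i = j)
  ww : ∀ i ∈ I, ∀ j ∈ I, ¬ G.Adj (w i) (w j)

/-- The vertex set of the caterpillar with legs in `J`. -/
def catSet (k : ℕ) (u w : ℕ → V) (J : Finset ℕ) : Set V :=
  {v | (∃ j, j < k ∧ v = u j) ∨ ∃ i ∈ J, v = w i}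

section
variable {G : SimpleGraph V} {k : ℕ} {u w : ℕ → V} {I : Finset ℕ}

lemma cat_inner (h : IsCat G k u I w) {K : Finset ℕ} (hK : K ⊆ I) (f : ℕ → V)
    (f1 : ∀ i, i < k → f i ∈ catSet k u w K) (f2 : ∀ i j, i < k → j < k → f i = f j → i = j)
    (f3 : ∀ i j, i < k → j < k → (G.Adj (f i) (f j) ↔ G.Adj (u i) (u j)))
    {i : ℕ} (hi : 1 ≤ i) (hik : i + 1 < k) : ∃ a, a < k ∧ f i = u a := by
  rcases f1 i (by omega) with ha | ⟨j, hj, hfj⟩
  · exact ha
  · exfalso
    have key : ∀ m, m < k → G.Adj (f i) (f m) → f m = u j := by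
      intro m hm hadj
      rw [hfj] at hadj
      rcases f1 m hm with ⟨a, hak, ha⟩ | ⟨j', hj', hfj'⟩
      · rw [ha] at hadj ⊢
        rw [(h.wadj j (hK hj) a hak).1 hadj]
      · rw [hfj'] at hadj
        exact absurd hadj (h.ww j (hK hj) j' (hK hj'))
    have e1 := key (i - 1) (by omega) ((f3 _ _ (by omega) (by omega)).2
      ((h.adj _ _ (by omega) (by omega)).2 (Or.inr (by omega))))
    have e2 := key (i + 1) (by omega) ((f3 _ _ (by omega) (by omega)).2
      ((h.adj _ _ (by omega) (by omega)).2 (Or.inl (by omega))))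
    have := f2 (i - 1) (i + 1) (by omega) (by omega) (e1.trans e2.symm)
    omega

lemma cat_rigid (h : IsCat G k u I w) {K : Finset ℕ} (hK : K ⊆ I) (f g : ℕ → V)
    (f1 : ∀ i, i < k → f i ∈ catSet k u w K) (f2 : ∀ i j, i < k → j < k → f i = f j → i = j)
    (f3 : ∀ i j, i < k → j < k → (G.Adj (f i) (f j) ↔ G.Adj (u i) (u j)))
    (g1 : ∀ i, i < k → g i ∈ catSet k u w K) (g2 : ∀ i j, i < k → j < k → g i = g j → i = j)
    (g3 : ∀ i j, i < k → j < k → (G.Adj (g i) (g j) ↔ G.Adj (u i) (u j)))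
    (e1 : f 1 = g 1) (e2 : f 2 = g 2) : ∀ i, 1 ≤ i → i + 1 < k → f i = g i := by
  intro i
  induction i using Nat.strong_induction_on with
  | _ i ih =>
    intro hi hik
    rcases Nat.lt_or_ge i 3 with hlt | hge
    · interval_cases i
      · exact e1
      · exact e2
    · have ea := ih (i - 1) (by omega) (by omega) (by omega)
      have eb := ih (i - 2) (by omega) (by omega) (by omega)
      obtain ⟨a, hak, ha⟩ := cat_inner h hK f f1 f2 f3 (i := i - 1) (by omega) (by omega)
      obtain ⟨b, hbk, hb⟩ := cat_inner h hK f f1 f2 f3 (i := i - 2) (by omega) (by omega)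
      obtain ⟨c, hck, hc⟩ := cat_inner h hK f f1 f2 f3 hi hik
      obtain ⟨d, hdk, hd⟩ := cat_inner h hK g g1 g2 g3 hi hik
      have h1 : G.Adj (f (i - 1)) (f (i - 2)) := (f3 _ _ (by omega) (by omega)).2
        ((h.adj _ _ (by omega) (by omega)).2 (Or.inr (by omega)))
      have h2 : G.Adj (f (i - 1)) (f i) := (f3 _ _ (by omega) (by omega)).2
        ((h.adj _ _ (by omega) (by omega)).2 (Or.inl (by omega)))
      have h3 : G.Adj (g (i - 1)) (g i) := (g3 _ _ (by omega) (by omega)).2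
        ((h.adj _ _ (by omega) (by omega)).2 (Or.inl (by omega)))
      rw [ha, hb, h.adj _ _ hak hbk] at h1
      rw [ha, hc, h.adj _ _ hak hck] at h2
      rw [← ea, ha, hd, h.adj _ _ hak hdk] at h3
      have hcb : c ≠ b := by
        rintro rfl
        have := f2 i (i - 2) (by omega) (by omega) (hc.trans hb.symm)
        omega
      have hdb : d ≠ b := by
        rintro rfl
        have := g2 i (i - 2) (by omega) (by omega) (hd.trans (hb.symm.trans eb))
        omega
      have : c = d := by omega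
      rw [hc, hd, this]

lemma P3_spine (h : IsCat G k u I w) {J : Finset ℕ} (hJ : J ⊆ I) {i : ℕ} (hi : 1 ≤ i)
    (hik : i + 1 < k) : P3 G (catSet k u w J) (u i) ↔ i ∈ J := by
  constructor
  · rintro ⟨a, b, c, ha, hb, hc, hab, hbc, hac, h1, h2, h3⟩
    by_contra hiJ
    have key : ∀ y, y ∈ catSet k u w J → G.Adj (u i) y → y = u (i - 1) ∨ y = u (i + 1) := by
      intro y hy hadj
      rcases hy with ⟨j, hj, rfl⟩ | ⟨j, hj, rfl⟩
      · rw [h.adj _ _ (by omega) hj] at hadj
        rcases hadj with h' | h'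
        · right; rw [h']
        · left; rw [← h']; simp
      · exfalso
        rw [G.adj_comm, h.wadj j (hJ hj) i (by omega)] at hadj
        rw [hadj] at hj
        exact hiJ hj
    rcases key a ha h1 with rfl | rfl <;> rcases key b hb h2 with rfl | rfl <;>
      rcases key c hc h3 with rfl | rfl <;> simp_all
  · intro hiJ
    refine ⟨u (i - 1), u (i + 1), w i, Or.inl ⟨_, by omega, rfl⟩, Or.inl ⟨_, by omega, rfl⟩,
      Or.inr ⟨i, hiJ, rfl⟩, ?_, ?_, ?_, ?_, ?_, ?_⟩
    · intro h'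
      have := h.inj _ _ (by omega) (by omega) h'
      omega
    · exact (h.wu i (hJ hiJ) _ (by omega)).symm
    · exact (h.wu i (hJ hiJ) _ (by omega)).symm
    · exact (h.adj _ _ (by omega) (by omega)).2 (Or.inr (by omega))
    · exact (h.adj _ _ (by omega) (by omega)).2 (Or.inl (by omega))
    · rw [G.adj_comm]
      exact (h.wadj i (hJ hiJ) i (by omega)).2 rfl

/-- Exponentially many unlabeled induced subgraphs inside a caterpillar. -/
theorem cat_count [Fintype V] [Nonempty V] (h : IsCat G k u I w) :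
    2 ^ #I ≤ Fintype.card V ^ 2 * numUnlabeled G := by
  classical
  have hfin : Finite (Quotient (indSetoid G)) := Quotient.finite _
  have hposq : 1 ≤ numUnlabeled G := by
    unfold numUnlabeled
    have : Nonempty (Quotient (indSetoid G)) := ⟨Quotient.mk _ ∅⟩
    exact Nat.card_pos
  have hposV : 1 ≤ Fintype.card V := Fintype.card_pos
  rcases I.eq_empty_or_nonempty with rfl | ⟨i0, hi0⟩
  · simp only [card_empty, pow_zero]
    nlinarith [Nat.mul_le_mul (Nat.one_le_pow 2 _ hposV) hposq]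
  have hk : 3 ≤ k := by
    have := h.inner i0 hi0
    omega
  let F : Finset ℕ → Quotient (indSetoid G) := fun J => Quotient.mk (indSetoid G) (catSet k u w J)
  have hfib : ∀ a ∈ (I.powerset).image F, #{J ∈ I.powerset | F J = a} ≤ Fintype.card V ^ 2 := by
    intro a ha
    obtain ⟨K, hK, rfl⟩ := Finset.mem_image.1 ha
    rw [Finset.mem_powerset] at hK
    -- choose isomorphisms
    have hiso : ∀ J, F J = F K →
        Nonempty (G.induce (catSet k u w J) ≃g G.induce (catSet k u w K)) := by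
      intro J hJ
      exact Quotient.exact hJ
    let φ : ∀ J, F J = F K → (G.induce (catSet k u w J) ≃g G.induce (catSet k u w K)) :=
      fun J hJ => (hiso J hJ).some
    have hmem : ∀ (J : Finset ℕ) i, i < k → u i ∈ catSet k u w J := fun J i hi =>
      Or.inl ⟨i, hi, rfl⟩
    let f : Finset ℕ → ℕ → V := fun J i =>
      if hJ : F J = F K then if hi : i < k then (φ J hJ ⟨u i, hmem J i hi⟩ : V) else u i else u i
    have hf : ∀ J (hJ : F J = F K) i (hi : i < k), f J i = (φ J hJ ⟨u i, hmem J i hi⟩ : V) := by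
      intro J hJ i hi
      simp only [f, dif_pos hJ, dif_pos hi]
    have f1 : ∀ J, F J = F K → ∀ i, i < k → f J i ∈ catSet k u w K := by
      intro J hJ i hi
      rw [hf J hJ i hi]
      exact (φ J hJ ⟨u i, hmem J i hi⟩).2
    have f2 : ∀ J, F J = F K → ∀ i j, i < k → j < k → f J i = f J j → i = j := by
      intro J hJ i j hi hj hij
      rw [hf J hJ i hi, hf J hJ j hj] at hij
      have := (φ J hJ).injective (Subtype.ext hij)
      exact h.inj i j hi hj (congrArg Subtype.val this)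
    have f3 : ∀ J, F J = F K → ∀ i j, i < k → j < k →
        (G.Adj (f J i) (f J j) ↔ G.Adj (u i) (u j)) := by
      intro J hJ i j hi hj
      rw [hf J hJ i hi, hf J hJ j hj]
      exact (φ J hJ).map_adj_iff (v := ⟨u i, hmem J i hi⟩) (w := ⟨u j, hmem J j hj⟩)
    have hinj : Set.InjOn (fun J => (f J 1, f J 2)) {J | J ∈ I.powerset ∧ F J = F K} := by
      rintro J ⟨hJ, hJK⟩ J' ⟨hJ', hJK'⟩ heq
      simp only [Prod.mk.injEq] at heq
      rw [Finset.mem_powerset] at hJ hJ'
      have hr := cat_rigid h hK (f J) (f J') (f1 J hJK) (f2 J hJK) (f3 J hJK)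
        (f1 J' hJK') (f2 J' hJK') (f3 J' hJK') heq.1 heq.2
      ext i
      by_cases hiI : i ∈ I
      · obtain ⟨hi1, hi2⟩ := h.inner i hiI
        have e := hr i hi1 hi2
        have a1 := P3_spine h hJ hi1 hi2
        have a2 := P3_spine h hJ' hi1 hi2
        have b1 := P3_iff_iso (φ J hJK) ⟨u i, hmem J i (by omega)⟩
        have b2 := P3_iff_iso (φ J' hJK') ⟨u i, hmem J' i (by omega)⟩
        rw [← hf J hJK i (by omega)] at b1
        rw [← hf J' hJK' i (by omega)] at b2
        rw [← a1, ← a2]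
        exact b1.trans ((by rw [e] : _ ↔ _).trans b2.symm)
      · exact ⟨fun h' => absurd (hJ h') hiI, fun h' => absurd (hJ' h') hiI⟩
    calc #{J ∈ I.powerset | F J = F K} ≤ #(Finset.univ : Finset (V × V)) := by
          refine Finset.card_le_card_of_injOn (fun J => (f J 1, f J 2)) (fun _ _ => by simp) ?_
          intro J hJ J' hJ' heq
          simp only [Finset.coe_filter] at hJ hJ'
          exact hinj hJ hJ' heq
      _ = Fintype.card V ^ 2 := by
          rw [Finset.card_univ, Fintype.card_prod, sq]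
  have h1 := Finset.card_le_mul_card_image (f := F) I.powerset _ hfib
  rw [Finset.card_powerset] at h1
  refine h1.trans (Nat.mul_le_mul_left _ ?_)
  unfold numUnlabeled
  rw [← Set.ncard_coe_finset, ← Set.ncard_univ]
  exact Set.ncard_le_ncard (Set.subset_univ _) Set.finite_univ

end

end Pool.Agent.Lib.MP_52097a_pr
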