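import Mathlib

/-!
# Finite Bernoulli product expectations

`ex p f` is the expectation of `f` over independent Bernoulli(`p`) bits indexed by a finite type.
-/

set_option linter.unusedSectionVars false
set_option linter.unnecessarySimpa false

namespace Pool.Agent.Lib.MP_52097a_pr

open Finset

section Basic

variable {E : Type*} [Fintype E] [DecidableEq E]

/-- Weight of one bit. -/
noncomputable def bw (p : ℝ) (b : Bool) : ℝ := if b = true then p else 1 - p

/-- Weight of a configuration of bits. -/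
noncomputable def wt (p : ℝ) (x : E → Bool) : ℝ := ∏ e, bw p (x e)

/-- Expectation over independent Bernoulli(`p`) bits. -/
noncomputable def ex (p : ℝ) (f : (E → Bool) → ℝ) : ℝ := ∑ x, wt p x * f x

lemma bw_true (p : ℝ) : bw p true = p := by simp [bw]
lemma bw_false (p : ℝ) : bw p false = 1 - p := by simp [bw]

lemma bw_nonneg {p : ℝ} (h0 : 0 ≤ p) (h1 : p ≤ 1) (b : Bool) : 0 ≤ bw p b := by
  cases b
  · rw [bw_false]; linarith
  · rw [bw_true]; exact h0

lemma wt_nonneg {p : ℝ} (h0 : 0 ≤ p) (h1 : p ≤ 1) (x : E → Bool) : 0 ≤ wt p x :=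
  Finset.prod_nonneg fun _ _ => bw_nonneg h0 h1 _

/-- Product formula. -/
lemma ex_prod_univ (p : ℝ) (g : E → Bool → ℝ) :
    ex p (fun x => ∏ e, g e (x e)) = ∏ e, (p * g e true + (1 - p) * g e false) := by
  have h := Finset.prod_univ_sum (fun _ : E => (Finset.univ : Finset Bool))
    (fun e b => bw p b * g e b)
  rw [Fintype.piFinset_univ] at h
  unfold ex wt
  calc ∑ x : E → Bool, (∏ e, bw p (x e)) * ∏ e, g e (x e)
      = ∑ x : E → Bool, ∏ e, (bw p (x e) * g e (x e)) := by
        refine Finset.sum_congr rfl fun x _ => ?_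
        rw [Finset.prod_mul_distrib]
    _ = ∏ e, ∑ b : Bool, bw p b * g e b := h.symm
    _ = _ := by
        refine Finset.prod_congr rfl fun e _ => ?_
        rw [Fintype.sum_bool, bw_true, bw_false]

lemma ex_prod (p : ℝ) (F : Finset E) (g : E → Bool → ℝ) :
    ex p (fun x => ∏ e ∈ F, g e (x e)) = ∏ e ∈ F, (p * g e true + (1 - p) * g e false) := by
  have h := ex_prod_univ p (fun e b => if e ∈ F then g e b else 1)
  have h1 : (fun x : E → Bool => ∏ e, (if e ∈ F then g e (x e) else 1))
      = fun x => ∏ e ∈ F, g e (x e) := by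
    funext x
    rw [Finset.prod_ite_mem, Finset.univ_inter]
  rw [h1] at h
  rw [h]
  have h2 : ∀ e, (p * (if e ∈ F then g e true else 1) + (1 - p) * (if e ∈ F then g e false else 1))
      = if e ∈ F then (p * g e true + (1 - p) * g e false) else 1 := by
    intro e
    split_ifs <;> ring
  simp_rw [h2]
  rw [Finset.prod_ite_mem, Finset.univ_inter]

lemma ex_const (p : ℝ) (c : ℝ) : ex (E := E) p (fun _ => c) = c := by
  have h := ex_prod_univ (E := E) p (fun _ _ => 1)
  simp only [Finset.prod_const_one, mul_one, add_sub_cancel] at h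
  unfold ex at h ⊢
  rw [← Finset.sum_mul]
  simp only [mul_one] at h
  rw [h, one_mul]

lemma ex_mono {p : ℝ} (h0 : 0 ≤ p) (h1 : p ≤ 1) {f g : (E → Bool) → ℝ} (h : ∀ x, f x ≤ g x) :
    ex p f ≤ ex p g :=
  Finset.sum_le_sum fun x _ => mul_le_mul_of_nonneg_left (h x) (wt_nonneg h0 h1 x)

lemma ex_nonneg {p : ℝ} (h0 : 0 ≤ p) (h1 : p ≤ 1) {f : (E → Bool) → ℝ} (h : ∀ x, 0 ≤ f x) :
    0 ≤ ex p f :=
  Finset.sum_nonneg fun x _ => mul_nonneg (wt_nonneg h0 h1 x) (h x)

lemma ex_add (p : ℝ) (f g : (E → Bool) → ℝ) :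
    ex p (fun x => f x + g x) = ex p f + ex p g := by
  unfold ex
  simp_rw [mul_add]
  rw [Finset.sum_add_distrib]

lemma ex_sub (p : ℝ) (f g : (E → Bool) → ℝ) :
    ex p (fun x => f x - g x) = ex p f - ex p g := by
  unfold ex
  simp_rw [mul_sub]
  rw [Finset.sum_sub_distrib]

lemma ex_const_mul (p c : ℝ) (f : (E → Bool) → ℝ) :
    ex p (fun x => c * f x) = c * ex p f := by
  unfold ex
  rw [Finset.mul_sum]
  refine Finset.sum_congr rfl fun x _ => ?_
  ring

lemma ex_sum {ι : Type*} (p : ℝ) (s : Finset ι) (f : ι → (E → Bool) → ℝ) :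
    ex p (fun x => ∑ i ∈ s, f i x) = ∑ i ∈ s, ex p (f i) := by
  unfold ex
  simp_rw [Finset.mul_sum]
  rw [Finset.sum_comm]

/-- Expectations of functions of two disjoint sets of bits: the second set may be resampled. -/
lemma ex_indep (p : ℝ) (B : E → Prop) [DecidablePred B] (Φ : (E → Bool) → (E → Bool) → ℝ)
    (h1 : ∀ x x' y, (∀ e, B e → x e = x' e) → Φ x y = Φ x' y)
    (h2 : ∀ x y y', (∀ e, ¬ B e → y e = y' e) → Φ x y = Φ x y') :
    ex p (fun x => Φ x x) = ex p (fun x => ex p (fun y => Φ x y)) := by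
  classical
  -- the splitting equivalence
  let σ := Equiv.piEquivPiSubtypeProd B (fun _ : E => Bool)
  -- weights split
  have hw : ∀ yz, wt p (σ.symm yz)
      = (∏ e : {e // B e}, bw p (yz.1 e)) * ∏ e : {e // ¬ B e}, bw p (yz.2 e) := by
    intro yz
    unfold wt
    rw [← Fintype.prod_subtype_mul_prod_subtype B]
    congr 1
    · refine Finset.prod_congr rfl fun e _ => ?_
      simp [σ, Equiv.piEquivPiSubtypeProd, e.2]
    · refine Finset.prod_congr rfl fun e _ => ?_
      simp [σ, Equiv.piEquivPiSubtypeProd, e.2]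
  have hΦ : ∀ (y z) (y' z'), Φ (σ.symm (y, z)) (σ.symm (y', z')) =
      Φ (σ.symm (y, fun _ => false)) (σ.symm (fun _ => false, z')) := by
    intro y z y' z'
    rw [h1 (σ.symm (y, z)) (σ.symm (y, fun _ => false)) _ ?_,
      h2 _ (σ.symm (y', z')) (σ.symm (fun _ => false, z')) ?_]
    · intro e he
      simp [σ, Equiv.piEquivPiSubtypeProd, he]
    · intro e he
      simp [σ, Equiv.piEquivPiSubtypeProd, he]
  have e1 : ∀ f : (E → Bool) → ℝ, ex p f = ∑ y : ({e // B e} → Bool),
      ∑ z : ({e // ¬ B e} → Bool), (∏ e : {e // B e}, bw p (y e)) *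
        (∏ e : {e // ¬ B e}, bw p (z e)) * f (σ.symm (y, z)) := by
    intro f
    unfold ex
    rw [← Equiv.sum_comp σ.symm, Fintype.sum_prod_type]
    refine Finset.sum_congr rfl fun y _ => Finset.sum_congr rfl fun z _ => ?_
    rw [hw]
  have tot1 : ∑ y : ({e // B e} → Bool), (∏ e : {e // B e}, bw p (y e)) = 1 := by
    have := ex_const (E := {e // B e}) p 1
    unfold ex wt at this
    simpa using this
  have tot2 : ∑ y : ({e // ¬ B e} → Bool), (∏ e : {e // ¬ B e}, bw p (y e)) = 1 := by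
    have := ex_const (E := {e // ¬ B e}) p 1
    unfold ex wt at this
    simpa using this
  have lhs : ex p (fun x => Φ x x) = ∑ y : ({e // B e} → Bool),
      ∑ z : ({e // ¬ B e} → Bool), (∏ e : {e // B e}, bw p (y e)) *
        (∏ e : {e // ¬ B e}, bw p (z e)) *
          Φ (σ.symm (y, fun _ => false)) (σ.symm (fun _ => false, z)) := by
    rw [e1]
    refine Finset.sum_congr rfl fun y _ => Finset.sum_congr rfl fun z _ => ?_
    rw [hΦ]
  have rhs : ex p (fun x => ex p (fun y => Φ x y)) = ∑ y : ({e // B e} → Bool),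
      ∑ z : ({e // ¬ B e} → Bool), (∏ e : {e // B e}, bw p (y e)) *
        (∏ e : {e // ¬ B e}, bw p (z e)) *
          Φ (σ.symm (y, fun _ => false)) (σ.symm (fun _ => false, z)) := by
    rw [e1]
    have inner : ∀ (y : {e // B e} → Bool) (z : {e // ¬ B e} → Bool),
        ex p (fun y' => Φ (σ.symm (y, z)) y') = ∑ z' : ({e // ¬ B e} → Bool),
          (∏ e : {e // ¬ B e}, bw p (z' e)) *
          Φ (σ.symm (y, fun _ => false)) (σ.symm (fun _ => false, z')) := by
      intro y z
      rw [e1]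
      simp_rw [hΦ]
      simp_rw [mul_assoc]
      simp_rw [← Finset.mul_sum]
      rw [← Finset.sum_mul, tot1, one_mul]
    simp_rw [inner]
    refine Finset.sum_congr rfl fun y _ => ?_
    rw [← Finset.sum_mul, ← Finset.mul_sum, tot2, mul_one, Finset.mul_sum]
    refine Finset.sum_congr rfl fun z _ => ?_
    ring
  rw [lhs, rhs]

end Basic

end Pool.Agent.Lib.MP_52097a_pr
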