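import Mathlib
import Pool.Agent.Lib.MP_52097a_pr.Prob

/-!
# The binomial random graph as a product of independent bits
-/

set_option linter.unusedSectionVars false
set_option linter.unnecessarySimpa false

namespace Pool.Agent.Lib.MP_52097a_pr

open Finset MeasureTheory

variable {V : Type*}

/-- The graph encoded by a family of bits on unordered pairs (diagonal bits are ignored). -/
def gr (x : Sym2 V → Bool) : SimpleGraph V where
  Adj u v := u ≠ v ∧ x s(u, v) = true
  symm := ⟨fun u v h => ⟨h.1.symm, by rw [Sym2.eq_swap]; exact h.2⟩⟩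
  loopless := ⟨fun u h => h.1 rfl⟩

lemma gr_adj (x : Sym2 V → Bool) (u v : V) : (gr x).Adj u v ↔ u ≠ v ∧ x s(u, v) = true := Iff.rfl

lemma gr_edge (x : Sym2 V → Bool) (e : Sym2 V) :
    e ∈ (gr x).edgeSet ↔ ¬ e.IsDiag ∧ x e = true := by
  induction e with
  | _ u v =>
    rw [SimpleGraph.mem_edgeSet, gr_adj, Sym2.mk_isDiag_iff]

lemma gr_eq_iff (x : Sym2 V → Bool) (G : SimpleGraph V) :
    gr x = G ↔ ∀ e, ¬ e.IsDiag → (x e = true ↔ e ∈ G.edgeSet) := by
  constructor
  · rintro rfl e he
    rw [gr_edge]
    tauto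
  · intro h
    ext u v
    rw [gr_adj]
    constructor
    · rintro ⟨h1, h2⟩
      exact (h s(u, v) (by rwa [Sym2.mk_isDiag_iff])).1 h2
    · intro h1
      exact ⟨h1.ne, (h s(u, v) (by rw [Sym2.mk_isDiag_iff]; exact h1.ne)).2 h1⟩

variable [Fintype V] [DecidableEq V]

open Classical in
lemma ex_gr_eq (p : ℝ) (G : SimpleGraph V) :
    ex p (fun x : Sym2 V → Bool => if gr x = G then (1 : ℝ) else 0)
      = p ^ G.edgeSet.ncard * (1 - p) ^ ((Nat.card V).choose 2 - G.edgeSet.ncard) := by
  classical
  have h1 : (fun x : Sym2 V → Bool => if gr x = G then (1 : ℝ) else 0)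
      = fun x => ∏ e ∈ Finset.univ.filter (fun e : Sym2 V => ¬ e.IsDiag),
        (if (x e = true ↔ e ∈ G.edgeSet) then (1 : ℝ) else 0) := by
    funext x
    rw [Finset.prod_ite_zero]
    simp only [Finset.prod_const_one, gr_eq_iff, Finset.mem_filter, Finset.mem_univ, true_and]
  rw [h1]
  refine (ex_prod p _ (fun e b => if (b = true ↔ e ∈ G.edgeSet) then (1 : ℝ) else 0)).trans ?_
  have h2 : ∀ e : Sym2 V, (p * (if ((true = true) ↔ e ∈ G.edgeSet) then (1 : ℝ) else 0)
      + (1 - p) * (if ((false = true) ↔ e ∈ G.edgeSet) then (1 : ℝ) else 0))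
      = if e ∈ G.edgeSet then p else 1 - p := by
    intro e
    by_cases he : e ∈ G.edgeSet <;> simp [he]
  rw [Finset.prod_congr rfl (fun e _ => h2 e)]
  rw [Finset.prod_ite, Finset.prod_const, Finset.prod_const]
  have h3 : (Finset.univ.filter (fun e : Sym2 V => ¬ e.IsDiag)).filter (fun e => e ∈ G.edgeSet)
      = G.edgeFinset := by
    ext e
    simp only [Finset.mem_filter, Finset.mem_univ, true_and, SimpleGraph.mem_edgeFinset]
    constructor
    · exact fun h => h.2
    · exact fun h => ⟨G.not_isDiag_of_mem_edgeSet h, h⟩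
  have hcard : G.edgeSet.ncard = #G.edgeFinset := by
    rw [← SimpleGraph.coe_edgeFinset, Set.ncard_coe_finset]
  have h4 : #((Finset.univ.filter (fun e : Sym2 V => ¬ e.IsDiag)).filter
      (fun e => ¬ e ∈ G.edgeSet)) = (Nat.card V).choose 2 - G.edgeSet.ncard := by
    have := Finset.card_filter_add_card_filter_not
      (s := Finset.univ.filter (fun e : Sym2 V => ¬ e.IsDiag)) (fun e => e ∈ G.edgeSet)
    have hN : #(Finset.univ.filter (fun e : Sym2 V => ¬ e.IsDiag)) = (Nat.card V).choose 2 := by
      rw [Nat.card_eq_fintype_card, ← Sym2.card_subtype_not_diag, Fintype.card_subtype]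
    rw [h3, hN] at this
    rw [hcard]
    omega
  rw [h3, h4, hcard]

instance : MeasurableSingletonClass (SimpleGraph V) where
  measurableSet_singleton G := by
    have : ({G} : Set (SimpleGraph V)) = ⋂ u, ⋂ v, {G' | G'.Adj u v ↔ G.Adj u v} := by
      ext G'
      simp only [Set.mem_singleton_iff, Set.mem_iInter, Set.mem_ofPred_eq]
      constructor
      · rintro rfl u v
        rfl
      · intro h
        ext u v
        exact h u v
    rw [this]
    refine MeasurableSet.iInter fun u => MeasurableSet.iInter fun v => ?_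
    have h1 : Measurable (fun G' : SimpleGraph V => G'.Adj u v) := by fun_prop
    by_cases h : G.Adj u v
    · simp only [h, iff_true]
      exact measurableSet_setOfPred.2 h1
    · simp only [h, iff_false]
      exact (measurableSet_setOfPred.2 h1).compl

open Classical in
/-- The law of the Mathlib binomial random graph, computed with independent bits. -/
theorem measure_eq (p : unitInterval) (A : Set (SimpleGraph V)) :
    SimpleGraph.binomialRandom V p A
      = ENNReal.ofReal (ex (p : ℝ) (fun x : Sym2 V → Bool => if gr x ∈ A then (1 : ℝ) else 0)) := by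
  have hfin : Fintype (SimpleGraph V) := Fintype.ofFinite _
  have hA : A = ((A.toFinset : Finset (SimpleGraph V)) : Set (SimpleGraph V)) := by simp
  have hsum : (fun x : Sym2 V → Bool => if gr x ∈ A then (1 : ℝ) else 0)
      = fun x => ∑ G ∈ A.toFinset, if gr x = G then (1 : ℝ) else 0 := by
    funext x
    rw [Finset.sum_ite_eq]
    simp
  rw [hsum, ex_sum]
  conv_lhs => rw [hA, ← sum_measure_singleton]
  rw [ENNReal.ofReal_sum_of_nonneg]
  · refine Finset.sum_congr rfl fun G _ => ?_
    rw [ex_gr_eq, SimpleGraph.binomialRandom_singleton]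
    rw [ENNReal.ofReal_mul (pow_nonneg p.2.1 _), ENNReal.ofReal_pow p.2.1,
      ENNReal.ofReal_pow (by linarith [p.2.2])]
    congr 2
    · rw [ENNReal.ofReal_eq_coe_nnreal p.2.1]
      rfl
    · have h1p : (0 : ℝ) ≤ 1 - (p : ℝ) := by linarith [p.2.2]
      rw [ENNReal.ofReal_eq_coe_nnreal h1p]
      rfl
  · intro G _
    exact ex_nonneg p.2.1 p.2.2 fun x => by split_ifs <;> norm_num

end Pool.Agent.Lib.MP_52097a_pr
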