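import Mathlib
import Pool.Agent.Lib.MP_52097a_pr.Graph

/-!
# Edges inside a vertex set
-/

set_option linter.unusedSectionVars false
set_option linter.unnecessarySimpa false

namespace Pool.Agent.Lib.MP_52097a_pr

open Finset

variable {V : Type*} [Fintype V] [DecidableEq V]

/-- Unordered pairs of distinct elements of `X`. -/
def pairs (X : Finset V) : Finset (Sym2 V) := X.offDiag.image (fun q => s(q.1, q.2))

lemma mem_pairs {X : Finset V} {a b : V} : s(a, b) ∈ pairs X ↔ a ∈ X ∧ b ∈ X ∧ a ≠ b := by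
  unfold pairs
  rw [Finset.mem_image]
  constructor
  · rintro ⟨⟨c, d⟩, hcd, h⟩
    rw [Finset.mem_offDiag] at hcd
    simp only [Sym2.eq_iff] at h
    simp only at hcd
    rcases h with ⟨rfl, rfl⟩ | ⟨rfl, rfl⟩
    · exact hcd
    · exact ⟨hcd.2.1, hcd.1, hcd.2.2.symm⟩
  · intro h
    exact ⟨(a, b), Finset.mem_offDiag.2 h, rfl⟩

lemma card_pairs (X : Finset V) : #(pairs X) = (#X).choose 2 := by
  unfold pairs
  exact Sym2.card_image_offDiag X

/-- Edges of the graph with bits `x` inside `X`. -/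
def edgesIn (x : Sym2 V → Bool) (X : Finset V) : Finset (Sym2 V) :=
  (pairs X).filter (fun e => x e = true)

/-- Degree of `y` inside `X`. -/
def degIn (x : Sym2 V → Bool) (X : Finset V) (y : V) : ℕ :=
  #{z ∈ X | z ≠ y ∧ x s(y, z) = true}

lemma sum_degIn (x : Sym2 V → Bool) (X : Finset V) :
    ∑ y ∈ X, degIn x X y = 2 * #(edgesIn x X) := by
  classical
  let H : SimpleGraph V :=
    { Adj := fun a b => a ∈ X ∧ b ∈ X ∧ a ≠ b ∧ x s(a, b) = true
      symm := ⟨fun a b h => ⟨h.2.1, h.1, h.2.2.1.symm, by rw [Sym2.eq_swap]; exact h.2.2.2⟩⟩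
      loopless := ⟨fun a h => h.2.2.1 rfl⟩ }
  have h1 := H.sum_degrees_eq_twice_card_edges
  have h2 : H.edgeFinset = edgesIn x X := by
    ext e
    induction e with
    | _ a b =>
      rw [SimpleGraph.mem_edgeFinset, SimpleGraph.mem_edgeSet]
      unfold edgesIn
      rw [Finset.mem_filter, mem_pairs]
      show (a ∈ X ∧ b ∈ X ∧ a ≠ b ∧ x s(a, b) = true) ↔ _
      tauto
  have h3 : ∀ y ∈ X, H.degree y = degIn x X y := by
    intro y hy
    rw [← SimpleGraph.card_neighborFinset_eq_degree]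
    unfold degIn
    congr 1
    ext z
    rw [SimpleGraph.mem_neighborFinset, Finset.mem_filter]
    show (y ∈ X ∧ z ∈ X ∧ y ≠ z ∧ x s(y, z) = true) ↔ _
    constructor
    · rintro ⟨_, h1, h2, h3⟩
      exact ⟨h1, h2.symm, h3⟩
    · rintro ⟨h1, h2, h3⟩
      exact ⟨hy, h1, h2.symm, h3⟩
  have h4 : ∀ y ∉ X, H.degree y = 0 := by
    intro y hy
    rw [← SimpleGraph.card_neighborFinset_eq_degree, Finset.card_eq_zero,
      Finset.eq_empty_iff_forall_notMem]
    intro z hz
    rw [SimpleGraph.mem_neighborFinset] at hz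
    exact hy hz.1
  rw [h2] at h1
  rw [← h1, ← Finset.sum_subset (Finset.subset_univ X) (fun y _ hy => h4 y hy)]
  exact Finset.sum_congr rfl fun y hy => (h3 y hy).symm

end Pool.Agent.Lib.MP_52097a_pr
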