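import Mathlib
import Pool.Agent.Lib.MP_52097a_pr.Prob

/-!
# Depth-first exploration with full reveal of the unvisited neighbourhood
-/

set_option linter.unusedSectionVars false
set_option linter.unnecessarySimpa false

namespace Pool.Agent.Lib.MP_52097a_pr

open Finset

variable {V : Type*} [Fintype V] [DecidableEq V]

/-- Neighbours of `v` inside `T`. -/
def nbrs (x : Sym2 V → Bool) (v : V) (T : Finset V) : Finset V :=
  T.filter (fun w => x s(v, w) = true)

lemma nbrs_subset (x : Sym2 V → Bool) (v : V) (T : Finset V) : nbrs x v T ⊆ T :=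
  Finset.filter_subset _ _

/-- One exploration step of the stack process. -/
noncomputable def stp (A : ℕ) (x : Sym2 V → Bool) : List V × Finset V → List V × Finset V
  | ([], T) => ([], T)
  | (v :: r, T) => ((nbrs x v T).toList.take A ++ r, T \ nbrs x v T)

lemma stp_cons (A : ℕ) (x : Sym2 V → Bool) (v : V) (r : List V) (T : Finset V) :
    stp A x (v :: r, T) = ((nbrs x v T).toList.take A ++ r, T \ nbrs x v T) := rfl

/-- Iterated exploration. -/
noncomputable def run (A : ℕ) (x : Sym2 V → Bool) : ℕ → List V × Finset V → List V × Finset V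
  | 0, S => S
  | k + 1, S => run A x k (stp A x S)

/-- The stack has no repetition and is disjoint from the unvisited set. -/
def Inv (S : List V × Finset V) : Prop := S.1.Nodup ∧ ∀ w ∈ S.1, w ∉ S.2

lemma inv_stp (A : ℕ) (x : Sym2 V → Bool) (S : List V × Finset V) (h : Inv S) :
    Inv (stp A x S) := by
  obtain ⟨s, T⟩ := S
  cases s with
  | nil => exact h
  | cons v r =>
    obtain ⟨h1, h2⟩ := h
    simp only [List.nodup_cons, List.mem_cons, forall_eq_or_imp] at h1 h2
    refine ⟨?_, ?_⟩
    · simp only [stp]
      rw [List.nodup_append]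
      refine ⟨(Finset.nodup_toList _).sublist (List.take_sublist _ _), h1.2, ?_⟩
      rintro a ha b hb rfl
      have ha' := List.mem_of_mem_take ha
      rw [Finset.mem_toList] at ha'
      exact h2.2 a hb (nbrs_subset _ _ _ ha')
    · simp only [stp]
      intro w hw hw2
      rw [Finset.mem_sdiff] at hw2
      rw [List.mem_append] at hw
      rcases hw with hw | hw
      · have := List.mem_of_mem_take hw
        rw [Finset.mem_toList] at this
        exact hw2.2 this
      · exact h2.2 w hw hw2.1

/-- The exploration does not look at edges containing a vertex outside the current support. -/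
lemma run_congr (A : ℕ) (v : V) (x x' : Sym2 V → Bool) (hx : ∀ e, v ∉ e → x e = x' e) (k : ℕ) :
    ∀ S : List V × Finset V, v ∉ S.1 → v ∉ S.2 → run A x k S = run A x' k S := by
  induction k with
  | zero => intro S _ _; rfl
  | succ k ih =>
    rintro ⟨s, T⟩ h1 h2
    have key : stp A x (s, T) = stp A x' (s, T) := by
      cases s with
      | nil => rfl
      | cons a r =>
        have hn : nbrs x a T = nbrs x' a T := by
          unfold nbrs
          refine Finset.filter_congr fun w hw => ?_
          rw [hx]
          intro hv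
          rw [Sym2.mem_iff] at hv
          rcases hv with rfl | rfl
          · exact h1 (by simp)
          · exact h2 hw
        simp only [stp, hn]
    simp only [run]
    rw [key]
    refine ih _ ?_ ?_
    · cases s with
      | nil => simpa [stp] using h1
      | cons a r =>
        simp only [stp, List.mem_append, not_or]
        simp only [List.mem_cons, not_or] at h1
        refine ⟨fun h => ?_, h1.2⟩
        have := List.mem_of_mem_take h
        rw [Finset.mem_toList] at this
        exact h2 (nbrs_subset _ _ _ this)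
    · cases s with
      | nil => simpa [stp] using h2
      | cons a r =>
        simp only [stp, Finset.mem_sdiff, not_and]
        intro h
        exact absurd h h2

lemma ex_run_succ (A : ℕ) (p : ℝ) (g : List V × Finset V → ℝ) (k : ℕ) (v : V) (r : List V)
    (T : Finset V) (h : Inv (v :: r, T)) :
    ex p (fun x => g (run A x (k + 1) (v :: r, T)))
      = ex p (fun x => ex p (fun y => g (run A y k (stp A x (v :: r, T))))) := by
  have := ex_indep p (fun e : Sym2 V => v ∈ e)
    (fun x y => g (run A y k (stp A x (v :: r, T)))) ?_ ?_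
  · exact this
  · intro x x' y hxx
    have hn : nbrs x v T = nbrs x' v T := by
      unfold nbrs
      refine Finset.filter_congr fun w hw => ?_
      rw [hxx]
      exact Sym2.mem_mk_left v w
    simp only [stp, hn]
  · intro x y y' hyy
    obtain ⟨h1, h2⟩ := h
    simp only [List.nodup_cons, List.mem_cons, forall_eq_or_imp] at h1 h2
    show g _ = g _
    rw [run_congr A v y y' hyy k _ ?_ ?_]
    · simp only [stp, List.mem_append, not_or]
      refine ⟨fun h => ?_, h1.1⟩
      have := List.mem_of_mem_take h
      rw [Finset.mem_toList] at this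
      exact h2.1 (nbrs_subset _ _ _ this)
    · simp only [stp, Finset.mem_sdiff, not_and]
      intro h
      exact absurd h h2.1

/-- A supermartingale bound for the exploration. -/
lemma ex_run_le (A : ℕ) {p : ℝ} (h0 : 0 ≤ p) (h1 : p ≤ 1) (g : List V × Finset V → ℝ) {ρ : ℝ}
    (hρ : 0 ≤ ρ)
    (hg : ∀ v r T, Inv (v :: r, T) → ex p (fun x => g (stp A x (v :: r, T))) ≤ ρ * g (v :: r, T))
    (k : ℕ) : ∀ S : List V × Finset V, Inv S → k ≤ S.1.length →
      ex p (fun x => g (run A x k S)) ≤ ρ ^ k * g S := by
  induction k with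
  | zero =>
    intro S _ _
    simp only [run, pow_zero, one_mul]
    rw [ex_const]
  | succ k ih =>
    rintro ⟨s, T⟩ hS hk
    cases s with
    | nil => simp at hk
    | cons v r =>
      rw [ex_run_succ A p g k v r T hS]
      calc ex p (fun x => ex p (fun y => g (run A y k (stp A x (v :: r, T)))))
          ≤ ex p (fun x => ρ ^ k * g (stp A x (v :: r, T))) := by
            refine ex_mono h0 h1 fun x => ih _ (inv_stp A x _ hS) ?_
            simp only [stp, List.length_append]
            simp only [List.length_cons] at hk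
            omega
        _ = ρ ^ k * ex p (fun x => g (stp A x (v :: r, T))) := ex_const_mul _ _ _
        _ ≤ ρ ^ k * (ρ * g (v :: r, T)) :=
            mul_le_mul_of_nonneg_left (hg v r T hS) (pow_nonneg hρ _)
        _ = _ := by ring

lemma ex_pow_nbrs (p y : ℝ) (v : V) (T : Finset V) :
    ex p (fun x => y ^ #(nbrs x v T)) = (1 - p + p * y) ^ #T := by
  have hinj : Set.InjOn (fun w : V => s(v, w)) (T : Set V) := by
    intro a _ b _ hab
    have h : s(v, a) = s(v, b) := hab
    rw [Sym2.eq_iff] at h
    rcases h with h | h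
    · exact h.2
    · exact h.2.trans h.1
  have h1 : (fun x : Sym2 V → Bool => y ^ #(nbrs x v T))
      = fun x => ∏ e ∈ T.image (fun w => s(v, w)), (if x e = true then y else 1) := by
    funext x
    rw [Finset.prod_image hinj]
    unfold nbrs
    rw [← Finset.prod_filter, Finset.prod_const]
  rw [h1]
  refine (ex_prod p _ (fun _ b => if b = true then y else 1)).trans ?_
  rw [Finset.prod_const, Finset.card_image_of_injOn hinj]
  congr 1
  simp
  ring

/-- First potential: keeps track of the stack length while the unvisited set stays large. -/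
noncomputable def pot1 (z : ℝ) (t0 : ℕ) (S : List V × Finset V) : ℝ :=
  if t0 ≤ #S.2 then z ^ S.1.length else 0

lemma pot1_pos {z : ℝ} {t0 : ℕ} {s : List V} {T : Finset V} (h : t0 ≤ #T) :
    pot1 z t0 (s, T) = z ^ s.length := if_pos h

lemma pot1_neg {z : ℝ} {t0 : ℕ} {s : List V} {T : Finset V} (h : ¬ t0 ≤ #T) :
    pot1 z t0 (s, T) = 0 := if_neg h

/-- Second potential: controls the number of visited vertices. -/
noncomputable def pot2 (S : List V × Finset V) : ℝ := Real.exp (-(#S.2 : ℝ))

lemma pow_one_sub_le {p q : ℝ} (hpq : 0 ≤ 1 - p + p * q) (t : ℕ) :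
    (1 - p + p * q) ^ t ≤ Real.exp (-(p * (1 - q) * t)) := by
  have h : 1 - p + p * q ≤ Real.exp (-(p * (1 - q))) := by
    have := Real.add_one_le_exp (-(p * (1 - q)))
    linarith
  calc (1 - p + p * q) ^ t ≤ (Real.exp (-(p * (1 - q)))) ^ t := pow_le_pow_left₀ hpq h t
    _ = Real.exp (-(p * (1 - q) * t)) := by
      rw [← Real.exp_nat_mul]
      congr 1
      ring

lemma pot1_step {A : ℕ} {p z ρ : ℝ} {t0 : ℕ} (h0 : 0 ≤ p) (h1 : p ≤ 1) (hz0 : 0 < z) (hz1 : z ≤ 1)
    (hA : Real.exp (-(p * (1 - z) * t0)) +
      Real.exp (-(A : ℝ)) * Real.exp (2 * p * Fintype.card V) ≤ ρ * z)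
    (v : V) (r : List V) (T : Finset V) :
    ex p (fun x => pot1 z t0 (stp A x (v :: r, T))) ≤ ρ * pot1 z t0 (v :: r, T) := by
  by_cases hT : t0 ≤ #T
  · have hb : ∀ x : Sym2 V → Bool, pot1 z t0 (stp A x (v :: r, T)) ≤
        z ^ r.length * (z ^ #(nbrs x v T) + Real.exp (-(A : ℝ)) * (Real.exp 1) ^ #(nbrs x v T)) := by
      intro x
      have hpos : 0 ≤ z ^ r.length * (z ^ #(nbrs x v T) +
          Real.exp (-(A : ℝ)) * (Real.exp 1) ^ #(nbrs x v T)) := by positivity
      rw [stp_cons]
      by_cases hT' : t0 ≤ #(T \ nbrs x v T)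
      · rw [pot1_pos hT', List.length_append, pow_add, mul_comm]
        refine mul_le_mul_of_nonneg_left ?_ (by positivity)
        rw [List.length_take, Finset.length_toList]
        rcases le_total A (#(nbrs x v T)) with hle | hle
        · rw [min_eq_left hle]
          have h2 : (1 : ℝ) ≤ Real.exp (-(A : ℝ)) * (Real.exp 1) ^ #(nbrs x v T) := by
            rw [← Real.exp_nat_mul, ← Real.exp_add]
            refine Real.one_le_exp ?_
            have : (A : ℝ) ≤ #(nbrs x v T) := by exact_mod_cast hle
            linarith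
          have h3 : z ^ A ≤ 1 := pow_le_one₀ hz0.le hz1
          have h4 : (0 : ℝ) ≤ z ^ #(nbrs x v T) := by positivity
          linarith
        · rw [min_eq_right hle]
          have h4 : 0 ≤ Real.exp (-(A : ℝ)) * (Real.exp 1) ^ #(nbrs x v T) := by positivity
          linarith
      · rw [pot1_neg hT']
        exact hpos
    calc ex p (fun x => pot1 z t0 (stp A x (v :: r, T)))
        ≤ ex p (fun x => z ^ r.length * (z ^ #(nbrs x v T) +
          Real.exp (-(A : ℝ)) * (Real.exp 1) ^ #(nbrs x v T))) := ex_mono h0 h1 hb
      _ = z ^ r.length * ((1 - p + p * z) ^ #T +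
          Real.exp (-(A : ℝ)) * (1 - p + p * Real.exp 1) ^ #T) := by
          rw [ex_const_mul, ex_add, ex_const_mul, ex_pow_nbrs, ex_pow_nbrs]
      _ ≤ z ^ r.length * (ρ * z) := by
          refine mul_le_mul_of_nonneg_left ?_ (by positivity)
          refine le_trans (add_le_add ?_ ?_) hA
          · refine (pow_one_sub_le (by nlinarith) _).trans ?_
            refine Real.exp_le_exp.2 ?_
            have : (t0 : ℝ) ≤ #T := by exact_mod_cast hT
            have h5 : 0 ≤ p * (1 - z) := mul_nonneg h0 (by linarith)
            nlinarith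
          · refine mul_le_mul_of_nonneg_left ?_ (Real.exp_pos _).le
            refine (pow_one_sub_le (by nlinarith [Real.exp_pos 1]) _).trans ?_
            refine Real.exp_le_exp.2 ?_
            have h6 : (#T : ℝ) ≤ Fintype.card V := by exact_mod_cast Finset.card_le_univ T
            have h7 : Real.exp 1 < 3 := lt_trans Real.exp_one_lt_d9 (by norm_num)
            have h8 : p * (Real.exp 1 - 1) ≤ p * 2 := mul_le_mul_of_nonneg_left (by linarith) h0
            have h9 : (0 : ℝ) ≤ #T := by positivity
            have h10 : 1 ≤ Real.exp 1 := Real.one_le_exp (by norm_num)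
            calc -(p * (1 - Real.exp 1) * #T) = p * (Real.exp 1 - 1) * #T := by ring
              _ ≤ p * 2 * #T := mul_le_mul_of_nonneg_right h8 h9
              _ ≤ p * 2 * Fintype.card V := mul_le_mul_of_nonneg_left h6 (by linarith)
              _ = 2 * p * Fintype.card V := by ring
      _ = ρ * pot1 z t0 (v :: r, T) := by
          rw [pot1_pos hT, List.length_cons]
          ring
  · have hb : ∀ x : Sym2 V → Bool, pot1 z t0 (stp A x (v :: r, T)) = 0 := by
      intro x
      rw [stp_cons, pot1_neg]
      intro h
      exact hT (h.trans (Finset.card_le_card Finset.sdiff_subset))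
    simp_rw [hb]
    rw [ex_const, pot1_neg hT]
    simp

lemma pot2_step {A : ℕ} {p : ℝ} (h0 : 0 ≤ p) (h1 : p ≤ 1) (v : V) (r : List V) (T : Finset V) :
    ex p (fun x => pot2 (stp A x (v :: r, T))) ≤
      Real.exp (2 * p * Fintype.card V) * pot2 (v :: r, T) := by
  have hb : ∀ x : Sym2 V → Bool, pot2 (stp A x (v :: r, T)) =
      Real.exp (-(#T : ℝ)) * (Real.exp 1) ^ #(nbrs x v T) := by
    intro x
    unfold pot2
    simp only [stp]
    rw [← Real.exp_nat_mul, ← Real.exp_add]
    congr 1
    rw [Finset.card_sdiff_of_subset (nbrs_subset _ _ _),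
      Nat.cast_sub (Finset.card_le_card (nbrs_subset _ _ _))]
    ring
  simp_rw [hb]
  rw [ex_const_mul, ex_pow_nbrs, mul_comm]
  unfold pot2
  simp only
  refine mul_le_mul_of_nonneg_right ?_ (Real.exp_pos _).le
  refine (pow_one_sub_le (by nlinarith [Real.exp_pos 1]) _).trans ?_
  refine Real.exp_le_exp.2 ?_
  have h6 : (#T : ℝ) ≤ Fintype.card V := by exact_mod_cast Finset.card_le_univ T
  have h7 : Real.exp 1 < 3 := lt_trans Real.exp_one_lt_d9 (by norm_num)
  have h8 : p * (Real.exp 1 - 1) ≤ p * 2 := mul_le_mul_of_nonneg_left (by linarith) h0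
  have h9 : (0 : ℝ) ≤ #T := by positivity
  calc -(p * (1 - Real.exp 1) * #T) = p * (Real.exp 1 - 1) * #T := by ring
    _ ≤ p * 2 * #T := mul_le_mul_of_nonneg_right h8 h9
    _ ≤ p * 2 * Fintype.card V := mul_le_mul_of_nonneg_left h6 (by linarith)
    _ = 2 * p * Fintype.card V := by ring

end Pool.Agent.Lib.MP_52097a_pr
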