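import Mathlib
import Pool.Agent.Lib.MP_52097a_pr.Explore

/-!
# The path of levels carried by the exploration

A level is a processed vertex together with its reserved, unprocessed children.
-/

set_option linter.unusedSectionVars false
set_option linter.unnecessarySimpa false

namespace Pool.Agent.Lib.MP_52097a_pr

open Finset

variable {V : Type*} [Fintype V] [DecidableEq V]

/-- The list of levels `L` (top first) is a path whose vertices carry reserved children. -/
def Good (x : Sym2 V → Bool) (A : ℕ) (T : Finset V) : List (V × List V) → Prop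
  | [] => True
  | l :: L => Good x A T L ∧ l.2.length ≤ A ∧ (∀ w ∈ l.2, x s(l.1, w) = true) ∧
      (∀ w ∈ l.2, ∀ m ∈ L, x s(w, m.1) = false) ∧ (∀ w ∈ T, x s(l.1, w) = false) ∧
      (∀ m ∈ L.head?, x s(l.1, m.1) = true) ∧ (∀ m ∈ L.tail, x s(l.1, m.1) = false)

lemma Good.mono {x : Sym2 V → Bool} {A : ℕ} {T T' : Finset V} (hT : T' ⊆ T) :
    ∀ {L : List (V × List V)}, Good x A T L → Good x A T' L
  | [], _ => trivial
  | _ :: _, ⟨h0, h1, h2, h3, h4, h5, h6⟩ =>
    ⟨h0.mono hT, h1, h2, h3, fun w hw => h4 w (hT hw), h5, h6⟩

lemma Good.not_adj {x : Sym2 V → Bool} {A : ℕ} {T : Finset V} :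
    ∀ {L : List (V × List V)}, Good x A T L → ∀ m ∈ L, ∀ w ∈ T, x s(m.1, w) = false
  | [], _, m, hm => by simp at hm
  | l :: L, ⟨h0, _, _, _, h4, _, _⟩, m, hm => by
    rw [List.mem_cons] at hm
    rcases hm with rfl | hm
    · exact h4
    · exact h0.not_adj m hm

/-- The exploration state is carried by a good list of levels. -/
def Carried (x : Sym2 V → Bool) (A : ℕ) (R0 : List V) (k : ℕ) (S : List V × Finset V) : Prop :=
  ∃ (L : List (V × List V)) (R : List V), S.1 = L.flatMap Prod.snd ++ R ∧ R <:+ R0 ∧
    L.length ≤ k ∧ Good x A S.2 L ∧ (L.map Prod.fst ++ S.1).Nodup ∧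
    (∀ w ∈ L.map Prod.fst, w ∉ S.2)

lemma carried_stp (x : Sym2 V → Bool) (A : ℕ) (R0 : List V) (v : V) (r : List V) (T : Finset V)
    (hI : Inv (v :: r, T)) : ∀ (L : List (V × List V)) (R : List V) (k : ℕ),
    v :: r = L.flatMap Prod.snd ++ R → R <:+ R0 →
    L.length ≤ k → Good x A T L → (L.map Prod.fst ++ (v :: r)).Nodup →
    (∀ w ∈ L.map Prod.fst, w ∉ T) → Carried x A R0 (k + 1) (stp A x (v :: r, T)) := by
  have hvT : v ∉ T := hI.2 v (by simp)
  have hkid : ∀ w ∈ (nbrs x v T).toList.take A, w ∈ nbrs x v T := by
    intro w hw
    have := List.mem_of_mem_take hw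
    rwa [Finset.mem_toList] at this
  have hkid2 : ((nbrs x v T).toList.take A).Nodup :=
    (Finset.nodup_toList _).sublist (List.take_sublist _ _)
  have hkx : ∀ w ∈ nbrs x v T, x s(v, w) = true := by
    intro w hw
    unfold nbrs at hw
    exact (Finset.mem_filter.1 hw).2
  have hrest : ∀ w ∈ T \ nbrs x v T, x s(v, w) = false := by
    intro w hw
    rw [Finset.mem_sdiff] at hw
    unfold nbrs at hw
    rw [Finset.mem_filter, not_and] at hw
    simpa using hw.2 hw.1
  intro L
  induction L with
  | nil =>
    intro R k h1 h2 h3 h4 h5 h6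
    rw [List.flatMap_nil, List.nil_append] at h1
    subst h1
    refine ⟨[(v, (nbrs x v T).toList.take A)], r, ?_, ?_, ?_, ?_, ?_, ?_⟩
    · simp [stp_cons]
    · exact (List.suffix_cons v r).trans h2
    · simp
    · refine ⟨trivial, ?_, ?_, ?_, ?_, ?_, ?_⟩
      · simp
      · intro w hw
        exact hkx w (hkid w hw)
      · simp
      · exact hrest
      · simp
      · simp
    · have hS := (inv_stp A x _ hI).1
      rw [stp_cons] at hS ⊢
      simp only [List.map_cons, List.map_nil, List.cons_append, List.nil_append, List.nodup_cons]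
      refine ⟨?_, hS⟩
      rw [List.mem_append, not_or]
      refine ⟨fun h => hvT (nbrs_subset _ _ _ (hkid v h)), ?_⟩
      have := hI.1
      simp only [List.nodup_cons] at this
      exact this.1
    · simp only [List.map_cons, List.map_nil, List.mem_singleton, forall_eq, stp_cons,
        Finset.mem_sdiff, not_and]
      intro h
      exact absurd h hvT
  | cons l L ih =>
    intro R k h1 h2 h3 h4 h5 h6
    obtain ⟨u, C⟩ := l
    cases C with
    | nil =>
      refine ih R k (by simpa using h1) h2 ?_ h4.1 ?_ ?_
      · simp only [List.length_cons] at h3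
        omega
      · simp only [List.map_cons, List.cons_append, List.nodup_cons] at h5
        exact h5.2
      · intro w hw
        exact h6 w (by rw [List.map_cons]; exact List.mem_cons_of_mem _ hw)
    | cons v' C =>
      simp only [List.flatMap_cons, List.cons_append, List.cons.injEq] at h1
      obtain ⟨rfl, h1⟩ := h1
      obtain ⟨g0, g1, g2, g3, g4, g5, g6⟩ := h4
      simp only [List.length_cons, List.mem_cons, forall_eq_or_imp] at g1 g2 g3 g4
      refine ⟨(v, (nbrs x v T).toList.take A) :: (u, C) :: L, R, ?_, h2, ?_, ?_, ?_, ?_⟩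
      · rw [stp_cons, h1]
        simp
      · simp only [List.length_cons] at h3 ⊢
        omega
      · rw [stp_cons]
        refine ⟨⟨g0.mono Finset.sdiff_subset, by simp only; omega, g2.2, g3.2,
          fun w hw => g4 w (Finset.sdiff_subset hw), g5, g6⟩, ?_, ?_, ?_, ?_, ?_, ?_⟩
        · simp
        · intro w hw
          exact hkx w (hkid w hw)
        · intro w hw m hm
          have hwT : w ∈ T := nbrs_subset _ _ _ (hkid w hw)
          rw [Sym2.eq_swap]
          rw [List.mem_cons] at hm
          rcases hm with rfl | hm
          · exact g4 w hwT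
          · exact g0.not_adj m hm w hwT
        · exact hrest
        · intro m hm
          simp only [List.head?_cons, Option.mem_def, Option.some.injEq] at hm
          subst hm
          simp only
          rw [Sym2.eq_swap]
          exact g2.1
        · intro m hm
          rw [List.tail_cons] at hm
          exact g3.1 m hm
      · have hS := (inv_stp A x _ hI).1
        rw [List.nodup_append] at h5 ⊢
        obtain ⟨n1, n2, n3⟩ := h5
        simp only [List.map_cons] at n1 n3 h6 ⊢
        refine ⟨?_, hS, ?_⟩
        · rw [List.nodup_cons]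
          refine ⟨?_, n1⟩
          intro hv
          exact n3 v hv v (by simp) rfl
        · rintro a ha b hb rfl
          rw [stp_cons] at hb
          simp only [List.mem_append] at hb
          rw [List.mem_cons] at ha
          rcases ha with rfl | ha
          · rcases hb with hb | hb
            · exact hvT (nbrs_subset _ _ _ (hkid a hb))
            · have := hI.1
              simp only [List.nodup_cons] at this
              exact this.1 hb
          · rcases hb with hb | hb
            · exact h6 a ha (nbrs_subset _ _ _ (hkid a hb))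
            · exact n3 a ha a (by simp [hb]) rfl
      · intro w hw
        rw [stp_cons]
        simp only [Finset.mem_sdiff, not_and]
        intro hwT
        simp only [List.map_cons] at hw h6
        rw [List.mem_cons] at hw
        rcases hw with rfl | hw
        · exact absurd hwT hvT
        · exact absurd hwT (h6 w hw)

lemma carried_run (x : Sym2 V → Bool) (A : ℕ) (R0 : List V) (j : ℕ) :
    ∀ (S : List V × Finset V) (k : ℕ), Inv S → j ≤ S.1.length → Carried x A R0 k S →
      Carried x A R0 (k + j) (run A x j S) := by
  induction j with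
  | zero => intro S k _ _ h; exact h
  | succ j ih =>
    rintro ⟨s, T⟩ k hI hj hC
    cases s with
    | nil => simp at hj
    | cons v r =>
      obtain ⟨L, R, h1, h2, h3, h4, h5, h6⟩ := hC
      have := carried_stp x A R0 v r T hI L R k h1 h2 h3 h4 h5 h6
      have h7 := ih _ (k + 1) (inv_stp A x _ hI) ?_ this
      · simp only [run]
        rw [show k + (j + 1) = k + 1 + j by ring]
        exact h7
      · simp only [stp_cons, List.length_append]
        simp only [List.length_cons] at hj
        omega

lemma carried_init (x : Sym2 V → Bool) (A : ℕ) (R0 : List V) (T : Finset V)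
    (hI : Inv (R0, T)) : Carried x A R0 0 (R0, T) :=
  ⟨[], R0, by simp, List.suffix_rfl, by simp, trivial, by simpa using hI.1, by simp⟩

end Pool.Agent.Lib.MP_52097a_pr
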