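import Mathlib
import Pool.Agent.Lib.MP_52097a_pr.Levels
import Pool.Agent.Lib.MP_52097a_pr.Edges
import Pool.Agent.Lib.MP_52097a_pr.Cat

/-!
# From a good list of levels to an induced caterpillar
-/

namespace Pool.Agent.Lib.MP_52097a_pr

open Finset

set_option linter.unusedSectionVars false

variable {V : Type*} [Fintype V] [DecidableEq V]

/-- The `i`-th path vertex. -/
def uL (v0 : V) (L : List (V × List V)) (i : ℕ) : V := (L.getD i (v0, [])).1

/-- The children reserved at the `i`-th path vertex. -/
def cL (v0 : V) (L : List (V × List V)) (i : ℕ) : List V := (L.getD i (v0, [])).2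

lemma uL_zero (v0 : V) (l : V × List V) (L : List (V × List V)) : uL v0 (l :: L) 0 = l.1 := rfl
lemma uL_succ (v0 : V) (l : V × List V) (L : List (V × List V)) (i : ℕ) :
    uL v0 (l :: L) (i + 1) = uL v0 L i := rfl
lemma cL_zero (v0 : V) (l : V × List V) (L : List (V × List V)) : cL v0 (l :: L) 0 = l.2 := rfl
lemma cL_succ (v0 : V) (l : V × List V) (L : List (V × List V)) (i : ℕ) :
    cL v0 (l :: L) (i + 1) = cL v0 L i := rfl
lemma cL_nil (v0 : V) (i : ℕ) : cL v0 [] i = [] := rfl

lemma getD_mem (v0 : V) (L : List (V × List V)) (i : ℕ) (hi : i < L.length) :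
    L.getD i (v0, []) ∈ L := by
  rw [List.getD_eq_getElem _ _ hi]
  exact List.getElem_mem hi

lemma sum_range_getD {M : Type*} [AddCommMonoid M] (v0 : V) (g : V × List V → M) :
    ∀ L : List (V × List V), ∑ i ∈ range L.length, g (L.getD i (v0, [])) = (L.map g).sum
  | [] => by simp
  | l :: L => by
    rw [List.length_cons, Finset.sum_range_succ', List.map_cons, List.sum_cons, add_comm]
    congr 1
    exact sum_range_getD v0 g L

lemma Good.idx {x : Sym2 V → Bool} {A : ℕ} {T : Finset V} (v0 : V) :
    ∀ {L : List (V × List V)}, Good x A T L →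
    (∀ i, (cL v0 L i).length ≤ A) ∧
    (∀ i w, w ∈ cL v0 L i → x s(uL v0 L i, w) = true) ∧
    (∀ i j w, i < j → j < L.length → w ∈ cL v0 L i → x s(w, uL v0 L j) = false) ∧
    (∀ i, i + 1 < L.length → x s(uL v0 L i, uL v0 L (i + 1)) = true) ∧
    (∀ i j, i + 1 < j → j < L.length → x s(uL v0 L i, uL v0 L j) = false)
  | [], _ => by
    refine ⟨?_, ?_, ?_, ?_, ?_⟩
    · intro i; rw [cL_nil]; simp
    · intro i w hw; rw [cL_nil] at hw; simp at hw
    · intro i j w _ hj; simp at hj
    · intro i hi; simp at hi
    · intro i j _ hj; simp at hj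
  | l :: L, ⟨g0, g1, g2, g3, _, g5, g6⟩ => by
    obtain ⟨a1, a2, a3, a4, a5⟩ := g0.idx v0
    refine ⟨?_, ?_, ?_, ?_, ?_⟩
    · rintro (_ | i)
      · exact g1
      · exact a1 i
    · rintro (_ | i) w hw
      · exact g2 w hw
      · exact a2 i w hw
    · rintro (_ | i) (_ | j) w hij hj hw
      · omega
      · rw [uL_succ]
        exact g3 w hw _ (getD_mem v0 L j (by simpa using hj))
      · omega
      · exact a3 i j w (by omega) (by simpa using hj) hw
    · rintro (_ | i) hi
      · rw [uL_succ, uL_zero]
        cases L with
        | nil => simp at hi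
        | cons m L =>
          rw [uL_zero]
          exact g5 m (by simp)
      · exact a4 i (by simpa using hi)
    · rintro (_ | i) (_ | _ | j) hij hj
      · omega
      · omega
      · rw [uL_zero]
        cases L with
        | nil => simp at hj
        | cons m L =>
          rw [uL_succ, uL_succ]
          refine g6 _ ?_
          rw [List.tail_cons]
          exact getD_mem v0 L j (by simpa using hj)
      · omega
      · omega
      · exact a5 i (j + 1) (by omega) (by simpa using hj)

/-- From levels to caterpillars. -/
theorem levels_cat {x : Sym2 V → Bool} {A : ℕ} {T : Finset V} (v0 : V) {L : List (V × List V)}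
    (hG : Good x A T L) (hN : (L.map Prod.fst ++ L.flatMap Prod.snd).Nodup) :
    ∃ (u : ℕ → V) (I : Finset ℕ) (w : ℕ → V), IsCat (gr x) L.length u I w ∧
      3 * (L.flatMap Prod.snd).length + 2 * L.length ≤ A * (#I + 2) +
        2 * #(edgesIn x (L.map Prod.fst ++ L.flatMap Prod.snd).toFinset) + 2 := by
  classical
  obtain ⟨a1, a2, a3, a4, a5⟩ := hG.idx v0
  set u := uL v0 L with hu
  set c := cL v0 L with hc
  set X := (L.map Prod.fst ++ L.flatMap Prod.snd).toFinset with hX
  rw [List.nodup_append] at hN
  obtain ⟨n1, n2, n3⟩ := hN
  rw [List.nodup_flatMap] at n2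
  obtain ⟨n2, n2'⟩ := n2
  have hget : ∀ i (hi : i < L.length), L.getD i (v0, []) = L[i] := fun i hi =>
    List.getD_eq_getElem _ _ hi
  have umem : ∀ i, i < L.length → u i ∈ L.map Prod.fst := fun i hi =>
    List.mem_map.2 ⟨_, getD_mem v0 L i hi, rfl⟩
  have cmem : ∀ i, i < L.length → ∀ w ∈ c i, w ∈ L.flatMap Prod.snd := fun i hi w hw =>
    List.mem_flatMap.2 ⟨_, getD_mem v0 L i hi, hw⟩
  have cge : ∀ i, ¬ i < L.length → c i = [] := by
    intro i hi
    simp only [hc, cL]
    rw [List.getD_eq_default _ _ (by omega)]
  have cmem' : ∀ i, ∀ w ∈ c i, i < L.length := by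
    intro i w hw
    by_contra hi
    rw [cge i hi] at hw
    simp at hw
  have uinj : ∀ i j, i < L.length → j < L.length → u i = u j → i = j := by
    intro i j hi hj hij
    have h1 : (L.map Prod.fst)[i]'(by simpa using hi) = (L.map Prod.fst)[j]'(by simpa using hj) := by
      rw [List.getElem_map, List.getElem_map]
      simp only [hu, uL, hget i hi, hget j hj] at hij
      exact hij
    exact (List.Nodup.getElem_inj_iff n1).1 h1
  have uc : ∀ i j, i < L.length → ∀ w ∈ c j, u i ≠ w := by
    intro i j hi w hw
    exact n3 _ (umem i hi) w (cmem j (cmem' j w hw) w hw)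
  have cnod : ∀ i, (c i).Nodup := by
    intro i
    by_cases hi : i < L.length
    · exact n2 _ (getD_mem v0 L i hi)
    · rw [cge i hi]; exact List.nodup_nil
  have cdisj' : ∀ i j, i < j → ∀ w, w ∈ c i → w ∈ c j → False := by
    intro i j hij w hwi hwj
    have hi := cmem' i w hwi
    have hj := cmem' j w hwj
    have h1 := List.pairwise_iff_getElem.1 n2' i j hi hj hij
    simp only [hc, cL, hget i hi] at hwi
    simp only [hc, cL, hget j hj] at hwj
    exact h1 hwi hwj
  have cdisj : ∀ i j w, w ∈ c i → w ∈ c j → i = j := by
    intro i j w hwi hwj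
    rcases lt_trichotomy i j with h | h | h
    · exact (cdisj' i j h w hwi hwj).elim
    · exact h
    · exact (cdisj' j i h w hwj hwi).elim
  have uX : ∀ i, i < L.length → u i ∈ X := by
    intro i hi
    rw [hX, List.mem_toFinset, List.mem_append]
    exact Or.inl (umem i hi)
  have cX : ∀ i, ∀ w ∈ c i, w ∈ X := by
    intro i w hw
    rw [hX, List.mem_toFinset, List.mem_append]
    exact Or.inr (cmem i (cmem' i w hw) w hw)
  -- degree sums
  have hsum : ∑ y ∈ X, degIn x X y = ∑ i ∈ range L.length, (degIn x X (u i) +
      ∑ w ∈ (c i).toFinset, degIn x X w) := by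
    have hnod : (L.map Prod.fst ++ L.flatMap Prod.snd).Nodup := by
      rw [List.nodup_append]
      exact ⟨n1, List.nodup_flatMap.2 ⟨n2, n2'⟩, n3⟩
    rw [hX, List.sum_toFinset _ hnod, List.map_append, List.sum_append, Finset.sum_add_distrib]
    congr 1
    · rw [List.map_map, ← sum_range_getD v0]
      rfl
    · have h1 : ∀ L' : List (V × List V), ((L'.flatMap Prod.snd).map (degIn x X)).sum =
          (L'.map (fun l => (l.2.map (degIn x X)).sum)).sum := by
        intro L'
        induction L' with
        | nil => simp
        | cons l L' ih => simp [ih]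
      rw [← hX, h1, ← sum_range_getD v0]
      refine Finset.sum_congr rfl fun i _ => ?_
      rw [List.sum_toFinset _ (cnod i)]
      rfl
  have hQ : (L.flatMap Prod.snd).length = ∑ i ∈ range L.length, (c i).length := by
    rw [List.length_flatMap, ← sum_range_getD v0]
    rfl
  have hdu : ∀ i ∈ range L.length, (c i).length + (if 1 ≤ i then 1 else 0) + (if i + 1 < L.length then 1 else 0)
      ≤ degIn x X (u i) := by
    intro i hi
    rw [Finset.mem_range] at hi
    have hc1 : (c i).length = #((c i).toFinset) := (List.toFinset_card_of_nodup (cnod i)).symm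
    have hc2 : (if 1 ≤ i then 1 else 0) = #(if 1 ≤ i then {u (i - 1)} else (∅ : Finset V)) := by
      split_ifs <;> simp
    have hc3 : (if i + 1 < L.length then 1 else 0)
        = #(if i + 1 < L.length then {u (i + 1)} else (∅ : Finset V)) := by
      split_ifs <;> simp
    rw [hc1, hc2, hc3, ← Finset.card_union_of_disjoint, ← Finset.card_union_of_disjoint]
    · refine Finset.card_le_card ?_
      intro z hz
      rw [Finset.mem_filter]
      rw [Finset.mem_union, Finset.mem_union, List.mem_toFinset] at hz
      rcases hz with (hz | hz) | hz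
      · exact ⟨cX i z hz, (uc i i hi z hz).symm, a2 i z hz⟩
      · split_ifs at hz with h1
        · rw [Finset.mem_singleton] at hz
          subst hz
          refine ⟨uX _ (by omega), ?_, ?_⟩
          · intro h
            have := uinj _ _ (by omega) hi h
            omega
          · rw [Sym2.eq_swap]
            have := a4 (i - 1) (by omega)
            rwa [show i - 1 + 1 = i by omega] at this
        · simp at hz
      · split_ifs at hz with h1
        · rw [Finset.mem_singleton] at hz
          subst hz
          refine ⟨uX _ (by omega), ?_, a4 i h1⟩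
          intro h
          have := uinj _ _ (by omega) hi h
          omega
        · simp at hz
    · rw [Finset.disjoint_left]
      intro z hz hz2
      split_ifs at hz2 with h2
      · rw [Finset.mem_singleton] at hz2
        subst hz2
        rw [Finset.mem_union, List.mem_toFinset] at hz
        rcases hz with hz | hz
        · exact uc (i + 1) i h2 _ hz rfl
        · split_ifs at hz with h1
          · rw [Finset.mem_singleton] at hz
            have := uinj _ _ (by omega) (by omega) hz
            omega
          · simp at hz
      · simp at hz2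
    · rw [Finset.disjoint_left]
      intro z hz hz2
      rw [List.mem_toFinset] at hz
      split_ifs at hz2 with h2
      · rw [Finset.mem_singleton] at hz2
        subst hz2
        exact uc (i - 1) i (by omega) _ hz rfl
      · simp at hz2
  -- good siblings
  let gd : ℕ → Finset V := fun i => (c i).toFinset.filter (fun w => degIn x X w ≤ 1)
  have hdc : ∀ i ∈ range L.length, 2 * (c i).length ≤ (∑ w ∈ (c i).toFinset, degIn x X w) + #(gd i) := by
    intro i hi
    rw [Finset.mem_range] at hi
    have hc1 : (c i).length = #((c i).toFinset) := (List.toFinset_card_of_nodup (cnod i)).symm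
    rw [hc1, Finset.card_filter, ← Finset.sum_add_distrib, mul_comm, ← smul_eq_mul,
      ← Finset.sum_const]
    refine Finset.sum_le_sum fun w hw => ?_
    rw [List.mem_toFinset] at hw
    have h1 : 1 ≤ degIn x X w := by
      unfold degIn
      rw [Nat.one_le_iff_ne_zero, ← Nat.pos_iff_ne_zero, Finset.card_pos]
      refine ⟨u i, Finset.mem_filter.2 ⟨uX i hi, uc i i hi w hw, ?_⟩⟩
      rw [Sym2.eq_swap]
      exact a2 i w hw
    split_ifs with h2 <;> omega
  let I : Finset ℕ := (range L.length).filter (fun i => 1 ≤ i ∧ i + 1 < L.length ∧ (gd i).Nonempty)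
  have hgI : ∑ i ∈ range L.length, #(gd i) ≤ A * (#I + 2) := by
    have h1 : ∀ i ∈ range L.length, #(gd i) ≤ if i ∈ I ∪ {0, L.length - 1} then A else 0 := by
      intro i hi
      rw [Finset.mem_range] at hi
      have hle : #(gd i) ≤ A := by
        refine (Finset.card_filter_le _ _).trans ?_
        exact (List.toFinset_card_le _).trans (a1 i)
      split_ifs with h
      · exact hle
      · rw [Nat.le_zero, Finset.card_eq_zero]
        by_contra hne
        refine h ?_
        rw [Finset.mem_union]
        by_cases h0 : 1 ≤ i ∧ i + 1 < L.length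
        · left
          exact Finset.mem_filter.2 ⟨Finset.mem_range.2 hi, h0.1, h0.2,
            Finset.nonempty_iff_ne_empty.2 hne⟩
        · right
          simp only [Finset.mem_insert, Finset.mem_singleton]
          omega
    refine (Finset.sum_le_sum h1).trans ?_
    rw [← Finset.sum_filter, Finset.sum_const, smul_eq_mul, mul_comm]
    refine Nat.mul_le_mul_left _ ?_
    refine (Finset.card_le_card (t := I ∪ {0, L.length - 1}) (fun i hi => (Finset.mem_filter.1 hi).2)).trans ?_
    refine (Finset.card_union_le _ _).trans ?_
    have : #({0, L.length - 1} : Finset ℕ) ≤ 2 := Finset.card_le_two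
    omega
  let w : ℕ → V := fun i => if h : (gd i).Nonempty then h.choose else v0
  have hw : ∀ i ∈ I, w i ∈ c i ∧ degIn x X (w i) ≤ 1 := by
    intro i hi
    have h1 := (Finset.mem_filter.1 hi).2.2.2
    have h2 : w i ∈ gd i := by
      simp only [w, dif_pos h1]
      exact h1.choose_spec
    have h3 := Finset.mem_filter.1 h2
    exact ⟨List.mem_toFinset.1 h3.1, h3.2⟩
  have huniq : ∀ i ∈ I, ∀ z ∈ X, z ≠ w i → x s(w i, z) = true → z = u i := by
    intro i hi z hz hzw hxz
    obtain ⟨h1, h2⟩ := hw i hi
    have hik := cmem' i _ h1
    unfold degIn at h2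
    rw [Finset.card_le_one] at h2
    refine h2 z (Finset.mem_filter.2 ⟨hz, hzw, hxz⟩) (u i)
      (Finset.mem_filter.2 ⟨uX i hik, uc i i hik _ h1, ?_⟩)
    rw [Sym2.eq_swap]
    exact a2 i _ h1
  refine ⟨u, I, w, ?_, ?_⟩
  · refine ⟨uinj, ?_, ?_, ?_, ?_, ?_, ?_⟩
    · intro i j hi hj
      rw [gr_adj]
      rcases lt_trichotomy i j with h | h | h
      · rcases Nat.lt_or_ge (i + 1) j with h' | h'
        · rw [a5 i j h' hj]
          constructor
          · rintro ⟨_, h⟩; simp at h
          · intro h; omega
        · have e : j = i + 1 := by omega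
          subst e
          rw [a4 i hj]
          constructor
          · intro _; left; rfl
          · intro _
            refine ⟨fun h => ?_, rfl⟩
            have := uinj _ _ hi hj h
            omega
      · subst h
        constructor
        · rintro ⟨h, _⟩; exact absurd rfl h
        · intro h; omega
      · rcases Nat.lt_or_ge (j + 1) i with h' | h'
        · rw [Sym2.eq_swap, a5 j i h' hi]
          constructor
          · rintro ⟨_, h⟩; simp at h
          · intro h; omega
        · have e : i = j + 1 := by omega
          subst e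
          rw [Sym2.eq_swap, a4 j hi]
          constructor
          · intro _; right; rfl
          · intro _
            refine ⟨fun h => ?_, rfl⟩
            have := uinj _ _ hi hj h
            omega
    · intro i hi
      have := (Finset.mem_filter.1 hi).2
      exact ⟨this.1, this.2.1⟩
    · intro i hi j hj hij
      have h1 := (hw i hi).1
      have h2 := (hw j hj).1
      rw [← hij] at h2
      exact cdisj i j _ h1 h2
    · intro i hi j hj
      exact (uc j i hj _ (hw i hi).1).symm
    · intro i hi j hj
      rw [gr_adj]
      constructor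
      · rintro ⟨h1, h2⟩
        have hik := cmem' i _ (hw i hi).1
        exact (uinj j i hj hik (huniq i hi (u j) (uX j hj) h1.symm h2)).symm
      · rintro rfl
        refine ⟨(uc i i hj _ (hw i hi).1).symm, ?_⟩
        rw [Sym2.eq_swap]
        exact a2 i _ (hw i hi).1
    · intro i hi j hj
      rw [gr_adj]
      rintro ⟨h1, h2⟩
      have hik := cmem' i _ (hw i hi).1
      have := huniq i hi (w j) (cX j _ (hw j hj).1) h1.symm h2
      exact uc i j hik _ (hw j hj).1 this.symm
  · have e1 := sum_degIn x X
    rw [hsum, Finset.sum_add_distrib] at e1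
    have e2 := Finset.sum_le_sum hdu
    have e3 := Finset.sum_le_sum hdc
    rw [Finset.sum_add_distrib, Finset.sum_add_distrib] at e2
    rw [Finset.sum_add_distrib, ← Finset.mul_sum] at e3
    rw [← hQ] at e2 e3
    have e4 : ∀ k : ℕ, k ≤ (∑ i ∈ range k, if 1 ≤ i then 1 else 0) + 1 := by
      rintro (_ | k)
      · simp
      · rw [Finset.sum_range_succ']
        simp
    have e5 : ∀ k : ℕ, k ≤ (∑ i ∈ range k, if i + 1 < k then 1 else 0) + 1 := by
      rintro (_ | k)
      · simp
      · rw [Finset.sum_range_succ]
        have : ∑ i ∈ range k, (if i + 1 < k + 1 then 1 else 0) = k := by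
          rw [Finset.sum_congr rfl (fun i hi => by
            rw [if_pos (by rw [Finset.mem_range] at hi; omega)])]
          simp
        omega
    have e4' := e4 L.length
    have e5' := e5 L.length
    omega

end Pool.Agent.Lib.MP_52097a_pr
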