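import Mathlib
import Pool.Agent.Lib.MP_52097a_pr.Edges

/-!
# Small vertex sets span few edges
-/

set_option linter.unusedSectionVars false

namespace Pool.Agent.Lib.MP_52097a_pr

open Finset

lemma choose_le_exp (n m : ℕ) (hm : 1 ≤ m) :
    ((n.choose m : ℕ) : ℝ) ≤ (Real.exp 1 * n / m) ^ m := by
  have h1 : ((n.choose m : ℕ) : ℝ) ≤ (n : ℝ) ^ m / (m.factorial : ℝ) := Nat.choose_le_pow_div m n
  have h2 := Real.pow_div_factorial_le_exp (m : ℝ) (by positivity) m
  have hm' : (0 : ℝ) < m := by exact_mod_cast hm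
  have h3 : (n : ℝ) ^ m / (m.factorial : ℝ) = ((n : ℝ) / m) ^ m * ((m : ℝ) ^ m / m.factorial) := by
    rw [div_pow]
    field_simp
  rw [h3] at h1
  refine h1.trans ?_
  have h4 : (Real.exp 1 * n / m) ^ m = ((n : ℝ) / m) ^ m * Real.exp m := by
    rw [mul_div_assoc, mul_pow, ← Real.exp_nat_mul, mul_one, mul_comm]
  rw [h4]
  exact mul_le_mul_of_nonneg_left h2 (by positivity)

lemma choose_two_le (m : ℕ) : ((m.choose 2 : ℕ) : ℝ) ≤ (m : ℝ) ^ 2 / 2 := by
  have := Nat.choose_le_pow_div (α := ℝ) 2 m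
  simpa using this

lemma term_bound {n m f : ℕ} {p y0 C θ : ℝ} (hm : 1 ≤ m) (hn : 1 ≤ n)
    (hθ : 0 < θ) (hf : (1 + θ) * m ≤ f)
    (hp : 0 ≤ p) (hpn : p * n ≤ C) (hy : Real.exp 1 * C * m / (2 * n) ≤ y0) (hy1 : y0 ≤ 1)
    (hy0 : Real.exp 1 ^ 2 * C * y0 ^ θ ≤ 1) :
    ((n.choose m : ℕ) : ℝ) * (((m.choose 2).choose f : ℕ) : ℝ) * p ^ f ≤ (1 / 2) ^ m := by
  have hm' : (0 : ℝ) < m := by exact_mod_cast hm
  have hm1 : (1 : ℝ) ≤ m := by exact_mod_cast hm
  have hn' : (0 : ℝ) < n := by exact_mod_cast hn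
  have he : (0 : ℝ) < Real.exp 1 := Real.exp_pos 1
  have hfm : (m : ℝ) ≤ f := by nlinarith
  have hf1 : 1 ≤ f := by
    have : (1 : ℝ) ≤ f := hm1.trans hfm
    exact_mod_cast this
  have hf' : (0 : ℝ) < f := by exact_mod_cast hf1
  set y : ℝ := Real.exp 1 * m * p / 2 with hydef
  have hynn : 0 ≤ y := by positivity
  have hyy : y ≤ y0 := by
    refine le_trans ?_ hy
    rw [hydef, div_le_div_iff₀ (by norm_num) (by positivity)]
    have : Real.exp 1 * m * (p * n) ≤ Real.exp 1 * m * C :=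
      mul_le_mul_of_nonneg_left hpn (by positivity)
    nlinarith
  have b1 := choose_le_exp n m hm
  have b2 : (((m.choose 2).choose f : ℕ) : ℝ) ≤ (Real.exp 1 * m / 2) ^ f := by
    refine (choose_le_exp _ f hf1).trans ?_
    refine pow_le_pow_left₀ (by positivity) ?_ f
    rw [div_le_div_iff₀ hf' (by norm_num)]
    have h1 := choose_two_le m
    have h2 : ((m.choose 2 : ℕ) : ℝ) * 2 ≤ m * f := by nlinarith
    nlinarith
  have b3 : (((m.choose 2).choose f : ℕ) : ℝ) * p ^ f ≤ y ^ f := by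
    calc (((m.choose 2).choose f : ℕ) : ℝ) * p ^ f ≤ (Real.exp 1 * m / 2) ^ f * p ^ f :=
          mul_le_mul_of_nonneg_right b2 (by positivity)
      _ = y ^ f := by rw [← mul_pow]; congr 1; rw [hydef]; ring
  have b4 : y ^ f ≤ y ^ m * (y0 ^ θ) ^ m := by
    rcases hynn.eq_or_lt with h0 | hpos
    · rw [← h0, zero_pow (by omega), zero_pow (by omega)]
      simp
    · have h1 : y ^ f ≤ y ^ ((1 + θ) * m) := by
        rw [← Real.rpow_natCast y f]
        exact Real.rpow_le_rpow_of_exponent_ge hpos (hyy.trans hy1) hf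
      refine h1.trans ?_
      have h2 : y ^ ((1 + θ) * m) = y ^ m * (y ^ θ) ^ m := by
        rw [add_mul, one_mul, Real.rpow_add hpos, Real.rpow_natCast, Real.rpow_mul hpos.le,
          Real.rpow_natCast]
      rw [h2]
      refine mul_le_mul_of_nonneg_left ?_ (by positivity)
      exact pow_le_pow_left₀ (by positivity) (Real.rpow_le_rpow hpos.le hyy hθ.le) m
  calc ((n.choose m : ℕ) : ℝ) * (((m.choose 2).choose f : ℕ) : ℝ) * p ^ f
      = ((n.choose m : ℕ) : ℝ) * ((((m.choose 2).choose f : ℕ) : ℝ) * p ^ f) := by ring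
    _ ≤ (Real.exp 1 * n / m) ^ m * (y ^ m * (y0 ^ θ) ^ m) :=
        mul_le_mul b1 (b3.trans b4) (by positivity) (by positivity)
    _ = (Real.exp 1 * n / m * y * y0 ^ θ) ^ m := by rw [mul_pow, mul_pow]; ring
    _ ≤ (1 / 2) ^ m := by
        have hy0' : 0 ≤ y0 := hynn.trans hyy
        refine pow_le_pow_left₀ (by positivity) ?_ m
        have h1 : Real.exp 1 * n / m * y = Real.exp 1 ^ 2 * (p * n) / 2 := by
          rw [hydef]
          field_simp
        rw [h1]
        have h2 : Real.exp 1 ^ 2 * (p * n) / 2 * y0 ^ θ ≤ Real.exp 1 ^ 2 * C / 2 * y0 ^ θ := by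
          refine mul_le_mul_of_nonneg_right ?_ (by positivity)
          have := mul_le_mul_of_nonneg_left hpn (by positivity : 0 ≤ Real.exp 1 ^ 2)
          linarith
        linarith

variable {V : Type*} [Fintype V] [DecidableEq V]

lemma ex_all_true {E : Type*} [Fintype E] [DecidableEq E] (p : ℝ) (F : Finset E) :
    ex p (fun x => ∏ e ∈ F, (if x e = true then (1 : ℝ) else 0)) = p ^ #F := by
  refine (ex_prod p F (fun _ b => if b = true then (1 : ℝ) else 0)).trans ?_
  simp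

open Classical in
/-- Probability that some vertex set of size between `m1` and `m2` spans too many edges. -/
lemma ex_sparse {p θ C y0 : ℝ} {m1 m2 : ℕ} (h0 : 0 ≤ p) (h1 : p ≤ 1) (hm1 : 1 ≤ m1)
    (hθ : 0 < θ) (hn : 1 ≤ Fintype.card V) (hpn : p * Fintype.card V ≤ C)
    (hy : Real.exp 1 * C * m2 / (2 * Fintype.card V) ≤ y0) (hy1 : y0 ≤ 1)
    (hy0 : Real.exp 1 ^ 2 * C * y0 ^ θ ≤ 1) :
    ex p (fun x : Sym2 V → Bool => if (∃ X : Finset V, m1 ≤ #X ∧ #X ≤ m2 ∧
      (1 + θ) * #X < #(edgesIn x X)) then (1 : ℝ) else 0) ≤ 2 * (1 / 2) ^ m1 := by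
  set f : ℕ → ℕ := fun m => ⌊(1 + θ) * m⌋₊ + 1 with hf
  have hC : 0 ≤ C := le_trans (by positivity) hpn
  have key : ∀ x : Sym2 V → Bool, (if (∃ X : Finset V, m1 ≤ #X ∧ #X ≤ m2 ∧
      (1 + θ) * #X < #(edgesIn x X)) then (1 : ℝ) else 0) ≤
      ∑ m ∈ Icc m1 m2, ∑ X ∈ powersetCard m (univ : Finset V), ∑ F ∈ powersetCard (f m) (pairs X),
        ∏ e ∈ F, (if x e = true then (1 : ℝ) else 0) := by
    intro x
    have hnn : ∀ F : Finset (Sym2 V), 0 ≤ ∏ e ∈ F, (if x e = true then (1 : ℝ) else 0) :=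
      fun F => Finset.prod_nonneg fun e _ => by split_ifs <;> norm_num
    split_ifs with h
    · obtain ⟨X, hX1, hX2, hX3⟩ := h
      have hfe : f #X ≤ #(edgesIn x X) := by
        have h2 : (⌊(1 + θ) * (#X : ℝ)⌋₊ : ℝ) ≤ (1 + θ) * #X := Nat.floor_le (by positivity)
        have h3 : (⌊(1 + θ) * (#X : ℝ)⌋₊ : ℝ) < #(edgesIn x X) := lt_of_le_of_lt h2 hX3
        have h4 : ⌊(1 + θ) * (#X : ℝ)⌋₊ < #(edgesIn x X) := by exact_mod_cast h3
        simp only [hf]
        omega
      obtain ⟨F, hF1, hF2⟩ := Finset.exists_subset_card_eq hfe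
      have e1 : (1 : ℝ) = ∏ e ∈ F, (if x e = true then (1 : ℝ) else 0) := by
        rw [Finset.prod_eq_one]
        intro e he
        rw [if_pos]
        exact (Finset.mem_filter.1 (hF1 he)).2
      refine e1.le.trans ?_
      refine le_trans ?_ (Finset.single_le_sum (f := fun m => ∑ X ∈ powersetCard m
        (univ : Finset V), ∑ F ∈ powersetCard (f m) (pairs X),
        ∏ e ∈ F, (if x e = true then (1 : ℝ) else 0))
        (fun m _ => Finset.sum_nonneg fun X _ => Finset.sum_nonneg fun F _ => hnn F)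
        (Finset.mem_Icc.2 ⟨hX1, hX2⟩))
      refine le_trans ?_ (Finset.single_le_sum (f := fun X => ∑ F ∈ powersetCard (f _) (pairs X),
        ∏ e ∈ F, (if x e = true then (1 : ℝ) else 0))
        (fun X _ => Finset.sum_nonneg fun F _ => hnn F)
        (Finset.mem_powersetCard.2 ⟨Finset.subset_univ X, rfl⟩))
      refine Finset.single_le_sum (f := fun F => ∏ e ∈ F, (if x e = true then (1 : ℝ) else 0))
        (fun F _ => hnn F) (Finset.mem_powersetCard.2 ⟨?_, hF2⟩)
      exact hF1.trans (Finset.filter_subset _ _)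
    · exact Finset.sum_nonneg fun m _ => Finset.sum_nonneg fun X _ => Finset.sum_nonneg
        fun F _ => hnn F
  refine (ex_mono h0 h1 key).trans ?_
  have e2 : ex p (fun x : Sym2 V → Bool => ∑ m ∈ Icc m1 m2, ∑ X ∈ powersetCard m
      (univ : Finset V), ∑ F ∈ powersetCard (f m) (pairs X),
        ∏ e ∈ F, (if x e = true then (1 : ℝ) else 0))
      = ∑ m ∈ Icc m1 m2, (((Fintype.card V).choose m : ℕ) : ℝ) *
        (((m.choose 2).choose (f m) : ℕ) : ℝ) * p ^ (f m) := by
    rw [ex_sum]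
    refine Finset.sum_congr rfl fun m _ => ?_
    rw [ex_sum]
    have : ∀ X ∈ powersetCard m (univ : Finset V),
        ex p (fun x : Sym2 V → Bool => ∑ F ∈ powersetCard (f m) (pairs X),
          ∏ e ∈ F, (if x e = true then (1 : ℝ) else 0))
        = (((m.choose 2).choose (f m) : ℕ) : ℝ) * p ^ (f m) := by
      intro X hX
      rw [ex_sum]
      rw [Finset.sum_congr rfl (fun F hF => by
        rw [ex_all_true, (Finset.mem_powersetCard.1 hF).2])]
      rw [Finset.sum_const, Finset.card_powersetCard, card_pairs,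
        (Finset.mem_powersetCard.1 hX).2, nsmul_eq_mul]
    rw [Finset.sum_congr rfl this, Finset.sum_const, Finset.card_powersetCard, Finset.card_univ,
      nsmul_eq_mul, mul_assoc]
  rw [e2]
  have hVpos : (0 : ℝ) < Fintype.card V := by exact_mod_cast hn
  calc ∑ m ∈ Icc m1 m2, (((Fintype.card V).choose m : ℕ) : ℝ) *
        (((m.choose 2).choose (f m) : ℕ) : ℝ) * p ^ (f m)
      ≤ ∑ m ∈ Icc m1 m2, (1 / 2 : ℝ) ^ m := by
        refine Finset.sum_le_sum fun m hm => ?_
        rw [Finset.mem_Icc] at hm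
        refine term_bound (hm1.trans hm.1) hn hθ ?_ h0 hpn (le_trans ?_ hy) hy1 hy0
        · simp only [hf]
          push_cast
          exact (Nat.lt_floor_add_one _).le
        · have : (m : ℝ) ≤ m2 := by exact_mod_cast hm.2
          gcongr
    _ ≤ ∑' m : ℕ, (1 / 2 : ℝ) ^ (m + m1) := by
        have hs : Summable (fun m : ℕ => (1 / 2 : ℝ) ^ (m + m1)) :=
          (summable_nat_add_iff m1).2 (summable_geometric_of_lt_one (by norm_num) (by norm_num))
        have : ∑ m ∈ Icc m1 m2, (1 / 2 : ℝ) ^ m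
            = ∑ m ∈ range (m2 + 1 - m1), (1 / 2 : ℝ) ^ (m + m1) := by
          rw [← Finset.Ico_succ_right_eq_Icc, Finset.sum_Ico_eq_sum_range]
          refine Finset.sum_congr rfl fun m _ => ?_
          rw [add_comm]
        rw [this]
        exact hs.sum_le_tsum _ (fun _ _ => by positivity)
    _ = 2 * (1 / 2) ^ m1 := by
        simp_rw [pow_add]
        rw [tsum_mul_right, tsum_geometric_two]

end Pool.Agent.Lib.MP_52097a_pr
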