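import Mathlib
import Pool.Agent.Lib.MP_52097a_pr.LevelsCat
import Pool.Agent.Lib.MP_52097a_pr.Sparse

/-!
# The regime `1 + δ ≤ p n ≤ C`
-/

set_option linter.unusedSectionVars false

namespace Pool.Agent.Lib.MP_52097a_pr

open Finset

variable {V : Type*} [Fintype V] [DecidableEq V]

/-- Deterministic part: a long stack and sparse small sets give many unlabeled subgraphs. -/
lemma good_case [Nonempty V] {x : Sym2 V → Bool} {A s m1 : ℕ} {θ : ℝ} (hθ : 0 ≤ θ)
    {R0 : List V} {T0 : Finset V} (hI : Inv (R0, T0)) (hR : R0.length = s)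
    (hlen : s + m1 ≤ (run A x s (R0, T0)).1.length)
    (hsp : ∀ X : Finset V, m1 ≤ #X → #X ≤ (1 + A) * s → (#(edgesIn x X) : ℝ) ≤ (1 + θ) * #X) :
    ∃ m : ℕ, 2 ^ m ≤ Fintype.card V ^ 2 * numUnlabeled (gr x) ∧
      (m1 : ℝ) ≤ A * (m + 2) + 2 * θ * ((1 + A) * s) + 2 := by
  classical
  obtain ⟨L, R, h1, h2, h3, h4, h5, h6⟩ := carried_run x A R0 s (R0, T0) 0 hI (by simp [hR])
    (carried_init x A R0 T0 hI)
  rw [zero_add] at h3
  have v0 : V := Classical.arbitrary V
  have hN : (L.map Prod.fst ++ L.flatMap Prod.snd).Nodup := by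
    rw [h1, ← List.append_assoc] at h5
    exact h5.sublist (List.sublist_append_left _ _)
  obtain ⟨u, I, w, hcat, hcount⟩ := levels_cat v0 h4 hN
  have hRlen : R.length ≤ s := by
    rw [← hR]
    exact h2.length_le
  have hlen' : s + m1 ≤ (L.flatMap Prod.snd).length + R.length := by
    rw [h1, List.length_append] at hlen
    exact hlen
  have hQ : m1 ≤ (L.flatMap Prod.snd).length := by omega
  have hQA : (L.flatMap Prod.snd).length ≤ A * L.length := by
    have : ∀ L' : List (V × List V), Good x A (run A x s (R0, T0)).2 L' →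
        (L'.flatMap Prod.snd).length ≤ A * L'.length := by
      intro L'
      induction L' with
      | nil => intro _; simp
      | cons l L' ih =>
        intro hg
        have h7 := ih hg.1
        have h8 := hg.2.1
        rw [List.flatMap_cons, List.length_append, List.length_cons]
        nlinarith
    exact this L h4
  set X := (L.map Prod.fst ++ L.flatMap Prod.snd).toFinset with hX
  have hXc : #X = L.length + (L.flatMap Prod.snd).length := by
    rw [hX, List.toFinset_card_of_nodup hN, List.length_append, List.length_map]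
  have hAs : A * L.length ≤ A * s := Nat.mul_le_mul_left _ h3
  have hX2 : #X ≤ (1 + A) * s := by
    rw [hXc]
    nlinarith
  have hsp' := hsp X (by omega) hX2
  refine ⟨#I, cat_count hcat, ?_⟩
  have e1 : (3 * ((L.flatMap Prod.snd).length : ℝ) + 2 * L.length) ≤ A * (#I + 2) +
        2 * #(edgesIn x X) + 2 := by exact_mod_cast hcount
  have e2 : (#X : ℝ) = L.length + (L.flatMap Prod.snd).length := by exact_mod_cast hXc
  have e3 : (#X : ℝ) ≤ (1 + A) * s := by exact_mod_cast hX2
  have e4 : (m1 : ℝ) ≤ (L.flatMap Prod.snd).length := by exact_mod_cast hQ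
  have e5 : θ * #X ≤ θ * ((1 + A) * s) := mul_le_mul_of_nonneg_left e3 hθ
  nlinarith

open Classical in
lemma regimeA_prob [Nonempty V] {p z ρ θ C y0 : ℝ} {A s m1 t0 : ℕ} (h0 : 0 ≤ p) (h1 : p ≤ 1)
    (hz0 : 0 < z) (hz1 : z ≤ 1) (hρ : 0 ≤ ρ) (hθ : 0 < θ) (hm1 : 1 ≤ m1)
    (hs : s ≤ Fintype.card V)
    (hA : Real.exp (-(p * (1 - z) * t0)) +
      Real.exp (-(A : ℝ)) * Real.exp (2 * p * Fintype.card V) ≤ ρ * z)
    (hpn : p * Fintype.card V ≤ C)
    (hy : Real.exp 1 * C * ((1 + A) * s : ℕ) / (2 * Fintype.card V) ≤ y0) (hy1 : y0 ≤ 1)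
    (hy0 : Real.exp 1 ^ 2 * C * y0 ^ θ ≤ 1) :
    ex p (fun x : Sym2 V → Bool => if ¬ (∃ m : ℕ, 2 ^ m ≤ Fintype.card V ^ 2 * numUnlabeled (gr x) ∧
      (m1 : ℝ) ≤ A * (m + 2) + 2 * θ * ((1 + A) * s) + 2) then (1 : ℝ) else 0) ≤
      ρ ^ s * (z ^ m1)⁻¹ + Real.exp (t0 + 2 * C * s + s - Fintype.card V) + 2 * (1 / 2) ^ m1 := by
  -- choose the reserve
  obtain ⟨R, hRs, hRc⟩ := Finset.exists_subset_card_eq (s := (univ : Finset V)) (n := s)
    (by rw [Finset.card_univ]; exact hs)
  set R0 := R.toList with hR0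
  set T0 := univ \ R with hT0
  have hR0l : R0.length = s := by rw [hR0, Finset.length_toList, hRc]
  have hI : Inv (R0, T0) := by
    refine ⟨Finset.nodup_toList _, ?_⟩
    intro w hw
    simp only [hR0, Finset.mem_toList] at hw
    simp [hT0, hw]
  have hT0c : (#T0 : ℝ) = Fintype.card V - s := by
    rw [hT0, Finset.card_sdiff_of_subset (Finset.subset_univ _), Finset.card_univ, hRc,
      Nat.cast_sub hs]
  set F1 : (Sym2 V → Bool) → ℝ := fun x => pot1 z t0 (run A x s (R0, T0)) with hF1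
  set F2 : (Sym2 V → Bool) → ℝ := fun x => pot2 (run A x s (R0, T0)) with hF2
  set F3 : (Sym2 V → Bool) → ℝ := fun x => if (∃ X : Finset V, m1 ≤ #X ∧ #X ≤ (1 + A) * s ∧
      (1 + θ) * #X < #(edgesIn x X)) then (1 : ℝ) else 0 with hF3
  have hF1n : ∀ x, 0 ≤ F1 x := by
    intro x
    simp only [hF1, pot1]
    split_ifs <;> positivity
  have hF2n : ∀ x, 0 ≤ F2 x := fun x => (Real.exp_pos _).le
  have hF3n : ∀ x, 0 ≤ F3 x := by
    intro x
    simp only [hF3]
    split_ifs <;> norm_num
  have key : ∀ x : Sym2 V → Bool, (if ¬ (∃ m : ℕ, 2 ^ m ≤ Fintype.card V ^ 2 *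
      numUnlabeled (gr x) ∧ (m1 : ℝ) ≤ A * (m + 2) + 2 * θ * ((1 + A) * s) + 2)
      then (1 : ℝ) else 0) ≤ (z ^ (s + m1))⁻¹ * F1 x + Real.exp t0 * F2 x + F3 x := by
    intro x
    have hr1 : 0 ≤ (z ^ (s + m1))⁻¹ * F1 x := mul_nonneg (by positivity) (hF1n x)
    have hr2 : 0 ≤ Real.exp t0 * F2 x := mul_nonneg (Real.exp_pos _).le (hF2n x)
    by_cases h : ∃ m : ℕ, 2 ^ m ≤ Fintype.card V ^ 2 *
      numUnlabeled (gr x) ∧ (m1 : ℝ) ≤ A * (m + 2) + 2 * θ * ((1 + A) * s) + 2
    · rw [if_neg (not_not.2 h)]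
      have := hF3n x
      linarith
    · rw [if_pos h]
      by_cases c2 : t0 ≤ #(run A x s (R0, T0)).2
      · by_cases c1 : s + m1 ≤ (run A x s (R0, T0)).1.length
        · by_cases c3 : ∃ X : Finset V, m1 ≤ #X ∧ #X ≤ (1 + A) * s ∧
            (1 + θ) * #X < #(edgesIn x X)
          · have : F3 x = 1 := by simp only [hF3]; exact if_pos c3
            linarith
          · exfalso
            push Not at c3
            exact h (good_case hθ.le hI hR0l c1 c3)
        · have e1 : F1 x = z ^ (run A x s (R0, T0)).1.length := by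
            simp only [hF1, pot1]
            exact if_pos c2
          have e2 : z ^ (s + m1) ≤ F1 x := by
            rw [e1]
            exact pow_le_pow_of_le_one hz0.le hz1 (by omega)
          have e3 : 1 ≤ (z ^ (s + m1))⁻¹ * F1 x := by
            rw [inv_mul_eq_div, one_le_div (by positivity)]
            exact e2
          have := hF3n x
          linarith
      · have e1 : 1 ≤ Real.exp t0 * F2 x := by
          simp only [hF2, pot2]
          rw [← Real.exp_add]
          refine Real.one_le_exp ?_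
          have : (#(run A x s (R0, T0)).2 : ℝ) < t0 := by
            exact_mod_cast not_le.1 c2
          linarith
        have := hF3n x
        linarith
  refine (ex_mono h0 h1 key).trans ?_
  rw [ex_add, ex_add, ex_const_mul, ex_const_mul]
  have b1 : ex p F1 ≤ ρ ^ s * z ^ s := by
    have := ex_run_le A h0 h1 (pot1 z t0) hρ (fun v r T _ => pot1_step h0 h1 hz0 hz1 hA v r T) s
      (R0, T0) hI (by rw [hR0l])
    refine this.trans ?_
    refine mul_le_mul_of_nonneg_left ?_ (pow_nonneg hρ _)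
    unfold pot1
    split_ifs
    · rw [hR0l]
    · positivity
  have b2 : ex p F2 ≤ (Real.exp (2 * p * Fintype.card V)) ^ s * Real.exp (-(#T0 : ℝ)) := by
    exact ex_run_le A h0 h1 pot2 (Real.exp_pos _).le (fun v r T _ => pot2_step h0 h1 v r T) s
      (R0, T0) hI (by rw [hR0l])
  have b3 : ex p F3 ≤ 2 * (1 / 2) ^ m1 :=
    ex_sparse h0 h1 hm1 hθ Fintype.card_pos hpn hy hy1 hy0
  refine add_le_add (add_le_add ?_ ?_) b3
  · calc (z ^ (s + m1))⁻¹ * ex p F1 ≤ (z ^ (s + m1))⁻¹ * (ρ ^ s * z ^ s) :=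
          mul_le_mul_of_nonneg_left b1 (by positivity)
      _ = ρ ^ s * (z ^ m1)⁻¹ := by
          rw [pow_add]
          field_simp
  · calc Real.exp t0 * ex p F2
        ≤ Real.exp t0 * ((Real.exp (2 * p * Fintype.card V)) ^ s * Real.exp (-(#T0 : ℝ))) :=
          mul_le_mul_of_nonneg_left b2 (Real.exp_pos _).le
      _ ≤ Real.exp (t0 + 2 * C * s + s - Fintype.card V) := by
          rw [← Real.exp_nat_mul, ← Real.exp_add, ← Real.exp_add, hT0c]
          refine Real.exp_le_exp.2 ?_
          have : (s : ℝ) * (2 * p * Fintype.card V) ≤ 2 * C * s := by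
            have h2 : (s : ℝ) * (p * Fintype.card V) ≤ s * C :=
              mul_le_mul_of_nonneg_left hpn (by positivity)
            nlinarith
          linarith

end Pool.Agent.Lib.MP_52097a_pr
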