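import Mathlib
import Pool.Agent.Lib.MP_52097a_pr.RegimeA

/-!
# The regime `1 + δ ≤ p n ≤ C`: asymptotics
-/

set_option linter.unusedSectionVars false

namespace Pool.Agent.Lib.MP_52097a_pr

open Finset Filter Topology

lemma log_small (ε K : ℝ) (hε : 0 < ε) :
    ∀ᶠ n : ℕ in atTop, K + 2 * Real.logb 2 n ≤ ε * n := by
  have h1 : Tendsto (fun n : ℕ => Real.log n / n) atTop (𝓝 0) := by
    have := Real.isLittleO_log_id_atTop.tendsto_div_nhds_zero
    exact this.comp tendsto_natCast_atTop_atTop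
  have h2 : Tendsto (fun n : ℕ => K / (n : ℝ)) atTop (𝓝 0) :=
    tendsto_const_div_atTop_nhds_zero_nat K
  have h3 : Tendsto (fun n : ℕ => K / (n : ℝ) + 2 / Real.log 2 * (Real.log n / n)) atTop (𝓝 0) := by
    have := h2.add (h1.const_mul (2 / Real.log 2))
    simpa using this
  filter_upwards [h3.eventually (gt_mem_nhds hε), eventually_gt_atTop 0] with n hn hn0
  have hn' : (0 : ℝ) < n := by exact_mod_cast hn0
  have hl2 : 0 < Real.log 2 := Real.log_pos (by norm_num)
  have : (K / (n : ℝ) + 2 / Real.log 2 * (Real.log n / n)) * n < ε * n :=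
    mul_lt_mul_of_pos_right hn hn'
  have e : (K / (n : ℝ) + 2 / Real.log 2 * (Real.log n / n)) * n = K + 2 * Real.logb 2 n := by
    unfold Real.logb
    field_simp
  rw [e] at this
  exact this.le

lemma numeric_step {δ ε1 y a : ℝ} (hδ : 0 < δ) (hδ1 : δ ≤ 1) (hε : ε1 = δ / 16)
    (hy : ε1 * (1 + δ / 2) ≤ y) (ha : a ≤ δ * ε1 / 8) :
    Real.exp (-y) + a ≤ (1 - δ * ε1 / 8) * (1 - ε1) := by
  set y0 := ε1 * (1 + δ / 2) with hy0
  have hε0 : 0 < ε1 := by rw [hε]; positivity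
  have hy0p : 0 < y0 := by positivity
  have h1 : Real.exp (-y) ≤ Real.exp (-y0) := Real.exp_le_exp.2 (by linarith)
  have h2 : Real.exp (-y0) ≤ 1 - y0 + y0 ^ 2 := by
    rw [Real.exp_neg]
    have h3 : 1 + y0 ≤ Real.exp y0 := by linarith [Real.add_one_le_exp y0]
    have h4 : (Real.exp y0)⁻¹ ≤ (1 + y0)⁻¹ := inv_anti₀ (by linarith) h3
    refine h4.trans ?_
    rw [inv_le_comm₀ (by linarith) (by nlinarith), inv_le_iff_one_le_mul₀ (by nlinarith)]
    nlinarith [pow_pos hy0p 3]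
  have h5 : y0 ≤ ε1 * (3 / 2) := by
    rw [hy0]
    nlinarith
  have h6 : y0 ^ 2 ≤ (9 / 4) * ε1 * (δ / 16) := by
    rw [← hε]
    nlinarith
  have h7 : (1 - δ * ε1 / 8) * (1 - ε1) = 1 - ε1 - δ * ε1 / 8 + δ * ε1 ^ 2 / 8 := by ring
  have h8 : 0 ≤ δ * ε1 ^ 2 / 8 := by positivity
  have h9 : y0 = ε1 + δ * ε1 / 2 := by rw [hy0]; ring
  have h10 : 0 < δ * ε1 := by positivity
  nlinarith

open Classical in
/-- Regime `1 + δ ≤ p n ≤ C`. -/
theorem regimeA {δ C : ℝ} (hδ : 0 < δ) (hδ1 : δ ≤ 1) (hC : 1 ≤ C) :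
    ∃ ε : ℝ, 0 < ε ∧ ∀ τ : ℝ, 0 < τ → ∀ᶠ n : ℕ in atTop, ∀ p : ℝ, 0 ≤ p → p ≤ 1 →
      1 + δ ≤ p * n → p * n ≤ C →
      ex p (fun x : Sym2 (Fin n) → Bool =>
        if (numUnlabeled (gr x) : ℝ) < 2 ^ (ε * n) then (1 : ℝ) else 0) ≤ τ := by
  -- parameters
  set ε1 : ℝ := δ / 16 with hε1
  have hε1p : 0 < ε1 := by positivity
  have hε1s : ε1 ≤ 1 / 16 := by rw [hε1]; linarith
  set z : ℝ := 1 - ε1 with hz
  have hz0 : 0 < z := by rw [hz]; linarith
  have hz1 : z ≤ 1 := by rw [hz]; linarith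
  set ρ : ℝ := 1 - δ * ε1 / 8 with hρ
  have hρ0 : 0 ≤ ρ := by rw [hρ]; nlinarith
  obtain ⟨A, hA1, hA⟩ : ∃ A : ℕ, 1 ≤ A ∧ Real.exp (-(A : ℝ)) * Real.exp (2 * C) ≤ δ * ε1 / 8 := by
    have hpos : 0 < δ * ε1 / 8 := by positivity
    refine ⟨⌈2 * C - Real.log (δ * ε1 / 8)⌉₊ + 1, by omega, ?_⟩
    rw [← Real.exp_add, ← Real.le_log_iff_exp_le hpos]
    have := Nat.le_ceil (2 * C - Real.log (δ * ε1 / 8))
    push_cast
    linarith
  have hA1' : (1 : ℝ) ≤ A := by exact_mod_cast hA1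
  set γ : ℝ := δ / 32 with hγ
  have hγp : 0 < γ := by positivity
  set θ : ℝ := γ / (4 * (1 + A)) with hθdef
  have hθ : 0 < θ := by positivity
  set K : ℝ := Real.exp 1 ^ 2 * C with hK
  have hK1 : 1 ≤ K := by
    have h1 : 1 ≤ Real.exp 1 := Real.one_le_exp (by norm_num)
    have h2 : 1 ≤ Real.exp 1 ^ 2 := one_le_pow₀ h1
    nlinarith
  set y0 : ℝ := K ^ (-(1 / θ)) with hy0def
  have hy0p : 0 < y0 := Real.rpow_pos_of_pos (by linarith) _
  have hy1 : y0 ≤ 1 := Real.rpow_le_one_of_one_le_of_nonpos hK1 (by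
    have : 0 < 1 / θ := by positivity
    linarith)
  have hy0 : Real.exp 1 ^ 2 * C * y0 ^ θ ≤ 1 := by
    rw [← hK, hy0def, ← Real.rpow_mul (by linarith)]
    have : -(1 / θ) * θ = -1 := by field_simp
    rw [this, Real.rpow_neg_one, mul_inv_cancel₀ (by linarith)]
  have he1 : 0 < Real.exp 1 := Real.exp_pos 1
  set ζ : ℝ := min (min (δ / (8 * (2 * C + 1))) (y0 / (Real.exp 1 * C * (1 + A)))) (1 / 2) with hζ
  have hζp : 0 < ζ := by
    rw [hζ]
    refine lt_min (lt_min ?_ ?_) (by norm_num) <;> positivity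
  have hζ1 : (2 * C + 1) * ζ ≤ δ / 8 := by
    have : ζ ≤ δ / (8 * (2 * C + 1)) := (min_le_left _ _).trans (min_le_left _ _)
    calc (2 * C + 1) * ζ ≤ (2 * C + 1) * (δ / (8 * (2 * C + 1))) :=
          mul_le_mul_of_nonneg_left this (by linarith)
      _ = δ / 8 := by field_simp
  have hζ2 : Real.exp 1 * C * (1 + A) * ζ ≤ y0 := by
    have : ζ ≤ y0 / (Real.exp 1 * C * (1 + A)) := (min_le_left _ _).trans (min_le_right _ _)
    calc Real.exp 1 * C * (1 + A) * ζ
        ≤ Real.exp 1 * C * (1 + A) * (y0 / (Real.exp 1 * C * (1 + A))) :=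
          mul_le_mul_of_nonneg_left this (by positivity)
      _ = y0 := by field_simp
  have hζ3 : ζ ≤ 1 / 2 := min_le_right _ _
  set ε : ℝ := γ * ζ / (4 * A) with hε
  have hεp : 0 < ε := by positivity
  -- sequences
  let s : ℕ → ℕ := fun n => ⌊ζ * n⌋₊
  let m1 : ℕ → ℕ := fun n => ⌈γ * s n⌉₊
  let t0 : ℕ → ℕ := fun n => ⌈(1 - δ / 4) * n⌉₊
  have hs_le : ∀ n, (s n : ℝ) ≤ ζ * n := fun n => Nat.floor_le (by positivity)
  have hs_ge : ∀ n, ζ * n - 1 ≤ s n := fun n => by
    have := Nat.lt_floor_add_one (ζ * (n : ℝ))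
    show ζ * n - 1 ≤ (⌊ζ * (n : ℝ)⌋₊ : ℝ)
    linarith
  have hs_top : Tendsto s atTop atTop := by
    refine tendsto_nat_floor_atTop.comp ?_
    exact Tendsto.const_mul_atTop hζp tendsto_natCast_atTop_atTop
  have hm1_top : Tendsto m1 atTop atTop := by
    refine tendsto_nat_ceil_atTop.comp ?_
    exact Tendsto.const_mul_atTop hγp (tendsto_natCast_atTop_atTop.comp hs_top)
  have hs_top' : Tendsto (fun n => (s n : ℝ)) atTop atTop :=
    tendsto_natCast_atTop_atTop.comp hs_top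
  -- error terms
  have herr3 : Tendsto (fun n => 2 * (1 / 2 : ℝ) ^ m1 n) atTop (𝓝 0) := by
    have := (tendsto_pow_atTop_nhds_zero_of_lt_one (r := (1 / 2 : ℝ)) (by norm_num)
      (by norm_num)).comp hm1_top
    simpa using this.const_mul 2
  have herr2 : Tendsto (fun n : ℕ => Real.exp (1 - δ / 8 * n)) atTop (𝓝 0) := by
    refine Real.tendsto_exp_atBot.comp ?_
    refine tendsto_atBot_add_const_left _ 1 ?_
    simp_rw [← neg_mul]
    exact Tendsto.const_mul_atTop_of_neg (by linarith) tendsto_natCast_atTop_atTop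
  have herr1 : Tendsto (fun n : ℕ => Real.exp (2 * ε1 - δ * ε1 / 16 * s n)) atTop (𝓝 0) := by
    refine Real.tendsto_exp_atBot.comp ?_
    refine tendsto_atBot_add_const_left _ _ ?_
    simp_rw [← neg_mul]
    exact Tendsto.const_mul_atTop_of_neg (by nlinarith [mul_pos hδ hε1p]) hs_top'
  have herr : Tendsto (fun n : ℕ => Real.exp (2 * ε1 - δ * ε1 / 16 * s n)
      + Real.exp (1 - δ / 8 * n) + 2 * (1 / 2 : ℝ) ^ m1 n) atTop (𝓝 0) := by
    simpa using (herr1.add herr2).add herr3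
  refine ⟨ε, hεp, fun τ hτ => ?_⟩
  filter_upwards [herr.eventually (gt_mem_nhds hτ), hm1_top.eventually_ge_atTop 1,
    log_small ε 5 hεp, eventually_gt_atTop 0] with n hn1 hn2 hn3 hn4 p h0 h1 hp1 hp2
  have hn' : (0 : ℝ) < n := by exact_mod_cast hn4
  have : Nonempty (Fin n) := ⟨⟨0, hn4⟩⟩
  have hcard : Fintype.card (Fin n) = n := Fintype.card_fin n
  have hsn : s n ≤ n := by
    have : (s n : ℝ) ≤ n := (hs_le n).trans (by nlinarith)
    exact_mod_cast this
  have ht0 : (1 - δ / 4) * n ≤ t0 n := Nat.le_ceil _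
  have ht0' : (t0 n : ℝ) ≤ (1 - δ / 4) * n + 1 :=
    (Nat.ceil_lt_add_one (mul_nonneg (by linarith) (by positivity))).le
  have hA' : Real.exp (-(p * (1 - z) * t0 n)) +
      Real.exp (-(A : ℝ)) * Real.exp (2 * p * Fintype.card (Fin n)) ≤ ρ * z := by
    rw [hcard]
    refine numeric_step hδ hδ1 hε1 ?_ ?_
    · have e1 : 1 - z = ε1 := by rw [hz]; ring
      rw [e1]
      have e2 : 1 + δ / 2 ≤ p * t0 n := by
        have : p * ((1 - δ / 4) * n) ≤ p * t0 n := mul_le_mul_of_nonneg_left ht0 h0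
        nlinarith
      nlinarith
    · refine le_trans ?_ hA
      refine mul_le_mul_of_nonneg_left (Real.exp_le_exp.2 ?_) (Real.exp_pos _).le
      linarith
  have hmain := regimeA_prob (V := Fin n) (p := p) (z := z) (ρ := ρ) (θ := θ) (C := C) (y0 := y0)
    (A := A) (s := s n) (m1 := m1 n) (t0 := t0 n) h0 h1 hz0 hz1 hρ0 hθ hn2
    (by rw [hcard]; exact hsn) hA' (by rw [hcard]; exact hp2) ?_ hy1 hy0
  · refine le_trans (ex_mono h0 h1 ?_) (hmain.trans ?_)
    · intro x
      by_cases h : ∃ m : ℕ, 2 ^ m ≤ Fintype.card (Fin n) ^ 2 * numUnlabeled (gr x) ∧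
        (m1 n : ℝ) ≤ A * (m + 2) + 2 * θ * ((1 + A) * s n) + 2
      · rw [if_neg (not_not.2 h), if_neg]
        push Not
        obtain ⟨m, hm1, hm2⟩ := h
        rw [hcard] at hm1
        have hm1' : (2 : ℝ) ^ m ≤ (n : ℝ) ^ 2 * numUnlabeled (gr x) := by exact_mod_cast hm1
        have e1 : 2 * θ * ((1 + A) * s n) = γ / 2 * s n := by
          rw [hθdef]
          field_simp
          ring
        have e2 : γ * s n ≤ m1 n := Nat.le_ceil _
        have e3 : γ / 2 * s n ≤ A * (m + 4) := by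
          rw [e1] at hm2
          nlinarith
        have e4 : ε * n + 2 * Real.logb 2 n ≤ m := by
          have e5 : γ / 2 * (ζ * n - 1) ≤ A * (m + 4) :=
            (mul_le_mul_of_nonneg_left (hs_ge n) (by positivity)).trans e3
          have e6 : γ * ζ = 4 * A * ε := by
            rw [hε]
            field_simp
          have e7 : γ / 2 ≤ A * 1 := by
            have : γ / 2 ≤ 1 := by rw [hγ]; linarith
            linarith
          have e8 : A * (2 * ε * n) ≤ A * (m + 5 : ℝ) := by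
            have : γ / 2 * (ζ * n) = A * (2 * ε * n) := by
              calc γ / 2 * (ζ * n) = γ * ζ / 2 * n := by ring
                _ = _ := by rw [e6]; ring
            nlinarith
          have e9 : 2 * ε * n ≤ (m + 5 : ℝ) := le_of_mul_le_mul_left e8 (by linarith)
          nlinarith
        have e10 : (2 : ℝ) ^ (ε * n) * (n : ℝ) ^ 2 ≤ 2 ^ m := by
          have e11 : ((n : ℝ)) ^ 2 = (2 : ℝ) ^ (2 * Real.logb 2 n) := by
            rw [mul_comm, Real.rpow_mul (by norm_num), Real.rpow_logb (by norm_num)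
              (by norm_num) hn']
            norm_cast
          rw [e11, ← Real.rpow_add (by norm_num), ← Real.rpow_natCast]
          exact Real.rpow_le_rpow_of_exponent_le (by norm_num) e4
        have e12 : (n : ℝ) ^ 2 * (2 : ℝ) ^ (ε * n) ≤ (n : ℝ) ^ 2 * numUnlabeled (gr x) := by
          rw [mul_comm]
          exact e10.trans hm1'
        exact le_of_mul_le_mul_left e12 (by positivity)
      · rw [if_pos h]
        split_ifs <;> norm_num
    · refine le_trans ?_ hn1.le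
      refine add_le_add (add_le_add ?_ ?_) le_rfl
      · have e1 : ρ ^ s n ≤ Real.exp (-(δ * ε1 / 8) * s n) := by
          rw [mul_comm, Real.exp_nat_mul]
          refine pow_le_pow_left₀ hρ0 ?_ _
          rw [hρ]
          linarith [Real.add_one_le_exp (-(δ * ε1 / 8))]
        have e2 : (z ^ m1 n)⁻¹ ≤ Real.exp (2 * ε1 * m1 n) := by
          rw [mul_comm (2 * ε1), Real.exp_nat_mul, ← inv_pow]
          refine pow_le_pow_left₀ (by positivity) ?_ _
          have : z⁻¹ ≤ 1 + 2 * ε1 := by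
            rw [inv_le_iff_one_le_mul₀ hz0, hz]
            nlinarith
          linarith [Real.add_one_le_exp (2 * ε1)]
        have e3 : (m1 n : ℝ) ≤ γ * s n + 1 := (Nat.ceil_lt_add_one (by positivity)).le
        calc ρ ^ s n * (z ^ m1 n)⁻¹ ≤ Real.exp (-(δ * ε1 / 8) * s n) * Real.exp (2 * ε1 * m1 n) :=
              mul_le_mul e1 e2 (by positivity) (Real.exp_pos _).le
          _ ≤ Real.exp (2 * ε1 - δ * ε1 / 16 * s n) := by
              rw [← Real.exp_add]
              refine Real.exp_le_exp.2 ?_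
              have : 2 * ε1 * m1 n ≤ 2 * ε1 * (γ * s n + 1) :=
                mul_le_mul_of_nonneg_left e3 (by positivity)
              rw [hγ] at this
              nlinarith
      · refine Real.exp_le_exp.2 ?_
        rw [hcard]
        have e1 : (2 * C + 1) * s n ≤ δ / 8 * n := by
          calc (2 * C + 1) * s n ≤ (2 * C + 1) * (ζ * n) :=
                mul_le_mul_of_nonneg_left (hs_le n) (by linarith)
            _ = ((2 * C + 1) * ζ) * n := by ring
            _ ≤ δ / 8 * n := mul_le_mul_of_nonneg_right hζ1 hn'.le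
        nlinarith
  · rw [hcard, div_le_iff₀ (by positivity)]
    push_cast
    have e1 : Real.exp 1 * C * (1 + A) * s n ≤ Real.exp 1 * C * (1 + A) * (ζ * n) :=
      mul_le_mul_of_nonneg_left (hs_le n) (by positivity)
    have e2 : Real.exp 1 * C * (1 + A) * (ζ * n) ≤ y0 * n := by
      calc Real.exp 1 * C * (1 + A) * (ζ * n) = (Real.exp 1 * C * (1 + A) * ζ) * n := by ring
        _ ≤ y0 * n := mul_le_mul_of_nonneg_right hζ2 hn'.le
    nlinarith

end Pool.Agent.Lib.MP_52097a_pr
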