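import Mathlib
import Pool.Agent.Lib.MP_52097a_pr.Cat
import Pool.Agent.Lib.MP_52097a_pr.Sparse

/-!
# The dense regime: no two disjoint isomorphic large induced subgraphs
-/

set_option linter.unusedSectionVars false

namespace Pool.Agent.Lib.MP_52097a_pr

open Finset

variable {V : Type*} [Fintype V] [DecidableEq V]

/-- `a` and `b` index disjoint vertex sets inducing isomorphic graphs. -/
def IsoPair (x : Sym2 V → Bool) {m : ℕ} (a b : Fin m → V) : Prop :=
  Function.Injective a ∧ Function.Injective b ∧ (∀ i j, a i ≠ b j) ∧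
    ∀ i j, i ≠ j → x s(a i, a j) = x s(b i, b j)

lemma sum_symmDiff (K : Finset V) (c : ℝ) :
    ∑ S : Finset V, c ^ #(symmDiff S K) = (1 + c) ^ Fintype.card V := by
  let σ : Finset V ≃ Finset V :=
    ⟨fun S => symmDiff S K, fun S => symmDiff S K, fun S => symmDiff_symmDiff_cancel_right K S,
      fun S => symmDiff_symmDiff_cancel_right K S⟩
  have h1 : ∑ S : Finset V, c ^ #(symmDiff S K) = ∑ S : Finset V, c ^ #S :=
    Equiv.sum_comp σ (fun S => c ^ #S)
  rw [h1]
  have h2 := Finset.sum_pow_mul_eq_add_pow c 1 (univ : Finset V)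
  rw [Finset.powerset_univ, Finset.card_univ, add_comm c 1] at h2
  simpa using h2

lemma card_sdiff_lt_of_no_iso {x : Sym2 V → Bool} {m : ℕ}
    (h : ¬ ∃ a b : Fin m → V, IsoPair x a b) {S K : Finset V}
    (φ : (gr x).induce (S : Set V) ≃g (gr x).induce (K : Set V)) : #(S \ K) < m := by
  by_contra hlt
  rw [not_lt] at hlt
  obtain ⟨M, hM1, hM2⟩ := Finset.exists_subset_card_eq hlt
  let e : Fin m ≃ M := (Finset.equivFinOfCardEq hM2).symm
  have haS : ∀ i, (e i : V) ∈ (S : Set V) := fun i =>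
    (Finset.mem_sdiff.1 (hM1 (e i).2)).1
  have haK : ∀ i, (e i : V) ∉ K := fun i => (Finset.mem_sdiff.1 (hM1 (e i).2)).2
  refine h ⟨fun i => (e i : V), fun i => (φ ⟨e i, haS i⟩ : V), ?_, ?_, ?_, ?_⟩
  · intro i j hij
    exact e.injective (Subtype.ext hij)
  · intro i j hij
    have h1 := φ.injective (Subtype.ext hij)
    have h2 : (e i : V) = (e j : V) := congrArg (Subtype.val (p := fun v => v ∈ (S : Set V))) h1
    exact e.injective (Subtype.ext h2)
  · intro i j hij
    have h1 : (φ ⟨e j, haS j⟩ : V) ∈ (K : Set V) := (φ ⟨e j, haS j⟩).2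
    have h2 : (e i : V) = (φ ⟨e j, haS j⟩ : V) := hij
    rw [← h2] at h1
    exact haK i h1
  · intro i j hij
    have hne : (e i : V) ≠ (e j : V) := fun h' => hij (e.injective (Subtype.ext h'))
    have h1 : (gr x).Adj (φ ⟨e i, haS i⟩ : V) (φ ⟨e j, haS j⟩ : V) ↔ (gr x).Adj (e i : V) (e j) :=
      φ.map_adj_iff (v := ⟨e i, haS i⟩) (w := ⟨e j, haS j⟩)
    rw [gr_adj, gr_adj] at h1
    have hne2 : (φ ⟨e i, haS i⟩ : V) ≠ (φ ⟨e j, haS j⟩ : V) := by
      intro h'
      have h3 := φ.injective (Subtype.ext h')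
      have h4 : (e i : V) = (e j : V) := congrArg (Subtype.val (p := fun v => v ∈ (S : Set V))) h3
      exact hne h4
    have h2 : x s((φ ⟨e i, haS i⟩ : V), (φ ⟨e j, haS j⟩ : V)) = true ↔
        x s((e i : V), (e j : V)) = true := by
      constructor
      · intro h'
        exact (h1.1 ⟨hne2, h'⟩).2
      · intro h'
        exact (h1.2 ⟨hne, h'⟩).2
    exact (Bool.eq_iff_iff.2 h2).symm

/-- If there are no two disjoint isomorphic induced subgraphs of size `m` then there are many
unlabeled induced subgraphs. -/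
lemma many_of_no_iso {x : Sym2 V → Bool} {m : ℕ}
    (h : ¬ ∃ a b : Fin m → V, IsoPair x a b) :
    (2 : ℝ) ^ Fintype.card V ≤
      numUnlabeled (gr x) * (8 ^ (2 * m) * (9 / 8) ^ Fintype.card V) := by
  classical
  have hfin : Finite (Quotient (indSetoid (gr x))) := Quotient.finite _
  let F : Finset V → Quotient (indSetoid (gr x)) := fun S => Quotient.mk _ (S : Set V)
  have hfib : ∀ c ∈ (univ : Finset (Finset V)).image F,
      (#{S ∈ (univ : Finset (Finset V)) | F S = c} : ℝ) ≤
        8 ^ (2 * m) * (9 / 8) ^ Fintype.card V := by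
    intro c hc
    obtain ⟨K, _, rfl⟩ := Finset.mem_image.1 hc
    have h1 : ∀ S ∈ ({S ∈ (univ : Finset (Finset V)) | F S = F K}), #(symmDiff S K) ≤ 2 * m := by
      intro S hS
      rw [Finset.mem_filter] at hS
      obtain ⟨φ⟩ : Nonempty ((gr x).induce (S : Set V) ≃g (gr x).induce (K : Set V)) :=
        Quotient.exact hS.2
      have h2 := card_sdiff_lt_of_no_iso h φ
      have h3 := card_sdiff_lt_of_no_iso h φ.symm
      have h4 : symmDiff S K = (S \ K) ∪ (K \ S) := rfl
      rw [h4]
      refine (Finset.card_union_le _ _).trans ?_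
      omega
    calc (#{S ∈ (univ : Finset (Finset V)) | F S = F K} : ℝ)
        = ∑ S ∈ ({S ∈ (univ : Finset (Finset V)) | F S = F K}), (1 : ℝ) := by simp
      _ ≤ ∑ S ∈ ({S ∈ (univ : Finset (Finset V)) | F S = F K}),
          8 ^ (2 * m) * (1 / 8 : ℝ) ^ #(symmDiff S K) := by
          refine Finset.sum_le_sum fun S hS => ?_
          have h2 := h1 S hS
          have h3 : (1 / 8 : ℝ) ^ (2 * m) ≤ (1 / 8 : ℝ) ^ #(symmDiff S K) :=
            pow_le_pow_of_le_one (by norm_num) (by norm_num) h2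
          calc (1 : ℝ) = 8 ^ (2 * m) * (1 / 8) ^ (2 * m) := by
                rw [← mul_pow]; norm_num
            _ ≤ _ := mul_le_mul_of_nonneg_left h3 (by positivity)
      _ ≤ ∑ S : Finset V, 8 ^ (2 * m) * (1 / 8 : ℝ) ^ #(symmDiff S K) := by
          refine Finset.sum_le_sum_of_subset_of_nonneg (Finset.filter_subset _ _) ?_
          intro S _ _
          positivity
      _ = 8 ^ (2 * m) * (9 / 8) ^ Fintype.card V := by
          rw [← Finset.mul_sum, sum_symmDiff]
          norm_num
  have h1 := Finset.card_eq_sum_card_image F (univ : Finset (Finset V))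
  rw [Finset.card_univ, Fintype.card_finset] at h1
  have h2 : (#((univ : Finset (Finset V)).image F) : ℝ) ≤ numUnlabeled (gr x) := by
    have : #((univ : Finset (Finset V)).image F) ≤ numUnlabeled (gr x) := by
      unfold numUnlabeled
      rw [← Set.ncard_coe_finset, ← Set.ncard_univ]
      exact Set.ncard_le_ncard (Set.subset_univ _) Set.finite_univ
    exact_mod_cast this
  calc (2 : ℝ) ^ Fintype.card V
      = ∑ c ∈ (univ : Finset (Finset V)).image F,
          (#{S ∈ (univ : Finset (Finset V)) | F S = c} : ℝ) := by exact_mod_cast h1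
    _ ≤ ∑ c ∈ (univ : Finset (Finset V)).image F, 8 ^ (2 * m) * (9 / 8 : ℝ) ^ Fintype.card V :=
        Finset.sum_le_sum hfib
    _ = #((univ : Finset (Finset V)).image F) * (8 ^ (2 * m) * (9 / 8 : ℝ) ^ Fintype.card V) := by
        rw [Finset.sum_const, nsmul_eq_mul]
    _ ≤ _ := mul_le_mul_of_nonneg_right h2 (by positivity)

/-- Product formula along an injective family of bits. -/
lemma ex_prod_inj {E ι : Type*} [Fintype E] [DecidableEq E] (p : ℝ) (P : Finset ι) (e : ι → E)
    (he : ∀ i ∈ P, ∀ j ∈ P, e i = e j → i = j) (g : ι → Bool → ℝ) :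
    ex p (fun x => ∏ i ∈ P, g i (x (e i))) = ∏ i ∈ P, (p * g i true + (1 - p) * g i false) := by
  classical
  have h1 : ∀ (G : ι → E → ℝ), ∏ i ∈ P, G i (e i)
      = ∏ e' ∈ P.image e, ∏ i ∈ P.filter (fun i => e i = e'), G i e' := by
    intro G
    rw [← Finset.prod_fiberwise_of_maps_to (t := P.image e) (g := e)
      (fun i hi => Finset.mem_image_of_mem e hi)]
    refine Finset.prod_congr rfl fun e' _ => Finset.prod_congr rfl fun i hi => ?_
    rw [(Finset.mem_filter.1 hi).2]
  have h2 : (fun x : E → Bool => ∏ i ∈ P, g i (x (e i)))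
      = fun x => ∏ e' ∈ P.image e, (∏ i ∈ P.filter (fun i => e i = e'), g i (x e')) := by
    funext x
    exact h1 (fun i e' => g i (x e'))
  rw [h2, ex_prod p (P.image e) (fun e' b => ∏ i ∈ P.filter (fun i => e i = e'), g i b)]
  rw [h1 (fun i _ => p * g i true + (1 - p) * g i false)]
  refine Finset.prod_congr rfl fun e' he' => ?_
  obtain ⟨i, hi, rfl⟩ := Finset.mem_image.1 he'
  have h3 : P.filter (fun j => e j = e i) = {i} := by
    ext j
    rw [Finset.mem_filter, Finset.mem_singleton]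
    constructor
    · rintro ⟨hj, hji⟩
      exact he j hj i hi hji
    · rintro rfl
      exact ⟨hi, rfl⟩
  rw [h3]
  simp

/-- Number of edges among the vertices `a i`. -/
def edg (x : Sym2 V → Bool) {m : ℕ} (a : Fin m → V) : ℕ :=
  #{q : Fin m × Fin m | q.1 < q.2 ∧ x s(a q.1, a q.2) = true}

open Classical in
lemma ex_isoPair {p : ℝ} (h0 : 0 < p) (h1 : p ≤ 1) {m k : ℕ} (a b : Fin m → V) :
    ex p (fun x : Sym2 V → Bool => if IsoPair x a b ∧ k ≤ edg x a then (1 : ℝ) else 0) ≤ p ^ k := by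
  by_cases hab : Function.Injective a ∧ Function.Injective b ∧ (∀ i j, a i ≠ b j)
  swap
  · have : ∀ x : Sym2 V → Bool, (if IsoPair x a b ∧ k ≤ edg x a then (1 : ℝ) else 0) = 0 := by
      intro x
      rw [if_neg]
      rintro ⟨⟨h2, h3, h4, _⟩, _⟩
      exact hab ⟨h2, h3, h4⟩
    simp_rw [this]
    rw [ex_const]
    positivity
  obtain ⟨ha, hb, hd⟩ := hab
  set P : Finset (Fin m × Fin m) := univ.filter (fun q => q.1 < q.2) with hP
  have inja : ∀ q ∈ P, ∀ q' ∈ P, s(a q.1, a q.2) = s(a q'.1, a q'.2) → q = q' := by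
    intro q hq q' hq' h
    rw [hP, Finset.mem_filter] at hq hq'
    rw [Sym2.eq_iff] at h
    rcases h with ⟨h2, h3⟩ | ⟨h2, h3⟩
    · exact Prod.ext (ha h2) (ha h3)
    · have e1 := ha h2
      have e2 := ha h3
      have := hq.2
      rw [e1, e2] at this
      exact absurd (this.trans hq'.2) (lt_irrefl _)
  have injb : ∀ q ∈ P, ∀ q' ∈ P, s(b q.1, b q.2) = s(b q'.1, b q'.2) → q = q' := by
    intro q hq q' hq' h
    rw [hP, Finset.mem_filter] at hq hq'
    rw [Sym2.eq_iff] at h
    rcases h with ⟨h2, h3⟩ | ⟨h2, h3⟩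
    · exact Prod.ext (hb h2) (hb h3)
    · have e1 := hb h2
      have e2 := hb h3
      have := hq.2
      rw [e1, e2] at this
      exact absurd (this.trans hq'.2) (lt_irrefl _)
  -- the two-bit function
  let hh : Bool → Bool → ℝ := fun c d => if c = d then (if c = true then p⁻¹ else 1) else 0
  let B : Sym2 V → Prop := fun e => ∃ q ∈ P, e = s(a q.1, a q.2)
  have hind := ex_indep p B (fun x y => ∏ q ∈ P, hh (x s(a q.1, a q.2)) (y s(b q.1, b q.2))) ?_ ?_
  rotate_left
  · intro x x' y hxx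
    refine Finset.prod_congr rfl fun q hq => ?_
    rw [hxx _ ⟨q, hq, rfl⟩]
  · intro x y y' hyy
    refine Finset.prod_congr rfl fun q hq => ?_
    rw [hyy]
    rintro ⟨q', hq', he⟩
    rw [Sym2.eq_iff] at he
    rcases he with ⟨h2, _⟩ | ⟨h2, _⟩
    · exact hd _ _ h2.symm
    · exact hd _ _ h2.symm
  have hle : ∀ x : Sym2 V → Bool, (if IsoPair x a b ∧ k ≤ edg x a then (1 : ℝ) else 0) ≤
      p ^ k * ∏ q ∈ P, hh (x s(a q.1, a q.2)) (x s(b q.1, b q.2)) := by
    intro x
    have hnn : ∀ c d, 0 ≤ hh c d := by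
      intro c d
      simp only [hh]
      split_ifs
      · positivity
      · norm_num
      · norm_num
    split_ifs with h
    · obtain ⟨⟨_, _, _, h2⟩, h3⟩ := h
      have e1 : ∏ q ∈ P, hh (x s(a q.1, a q.2)) (x s(b q.1, b q.2))
          = ∏ q ∈ P, (if x s(a q.1, a q.2) = true then p⁻¹ else 1) := by
        refine Finset.prod_congr rfl fun q hq => ?_
        rw [hP, Finset.mem_filter] at hq
        simp only [hh]
        rw [if_pos (h2 q.1 q.2 hq.2.ne)]
      have e2 : ∏ q ∈ P, (if x s(a q.1, a q.2) = true then p⁻¹ else (1 : ℝ))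
          = (p⁻¹) ^ edg x a := by
        rw [← Finset.prod_filter, Finset.prod_const]
        congr 1
        unfold edg
        rw [hP, Finset.filter_filter]
      rw [e1, e2]
      have h4 : (p⁻¹) ^ k ≤ (p⁻¹) ^ edg x a :=
        pow_le_pow_right₀ ((one_le_inv₀ h0).2 h1) h3
      calc (1 : ℝ) = p ^ k * (p⁻¹) ^ k := by rw [← mul_pow, mul_inv_cancel₀ h0.ne', one_pow]
        _ ≤ _ := mul_le_mul_of_nonneg_left h4 (by positivity)
    · exact mul_nonneg (by positivity) (Finset.prod_nonneg fun q _ => hnn _ _)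
  refine (ex_mono h0.le h1 hle).trans ?_
  rw [ex_const_mul, hind]
  have e3 : ∀ x : Sym2 V → Bool,
      ex p (fun y => ∏ q ∈ P, hh (x s(a q.1, a q.2)) (y s(b q.1, b q.2)))
      = ∏ q ∈ P, (p * hh (x s(a q.1, a q.2)) true + (1 - p) * hh (x s(a q.1, a q.2)) false) := by
    intro x
    exact ex_prod_inj p P (fun q => s(b q.1, b q.2)) injb (fun q d => hh (x s(a q.1, a q.2)) d)
  simp_rw [e3]
  rw [ex_prod_inj p P (fun q => s(a q.1, a q.2)) inja
    (fun q c => p * hh c true + (1 - p) * hh c false)]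
  have e4 : p * (p * hh true true + (1 - p) * hh true false) +
      (1 - p) * (p * hh false true + (1 - p) * hh false false) ≤ 1 := by
    simp only [hh]
    simp
    rw [mul_inv_cancel₀ h0.ne']
    nlinarith
  have e5 : 0 ≤ p * (p * hh true true + (1 - p) * hh true false) +
      (1 - p) * (p * hh false true + (1 - p) * hh false false) := by
    simp only [hh]
    simp
    rw [mul_inv_cancel₀ h0.ne']
    nlinarith
  have e6 : ∏ q ∈ P, (p * (p * hh true true + (1 - p) * hh true false) +
      (1 - p) * (p * hh false true + (1 - p) * hh false false)) ≤ 1 := by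
    rw [Finset.prod_const]
    exact pow_le_one₀ e5 e4
  calc p ^ k * _ ≤ p ^ k * 1 := mul_le_mul_of_nonneg_left e6 (by positivity)
    _ = p ^ k := mul_one _

end Pool.Agent.Lib.MP_52097a_pr
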