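import Mathlib
import Pool.Agent.Lib.MP_52097a_pr.RegimeB

/-!
# The dense regime `C ≤ p n`, `p ≤ 1/2`
-/

set_option linter.unusedSectionVars false

namespace Pool.Agent.Lib.MP_52097a_pr

open Finset Filter Topology

section
variable {V : Type*} [Fintype V] [DecidableEq V]

lemma edgesIn_le_edg (x : Sym2 V → Bool) {m : ℕ} (a : Fin m → V) :
    #(edgesIn x (univ.image a)) ≤ edg x a := by
  unfold edg
  refine (Finset.card_le_card ?_).trans (Finset.card_image_le
    (f := fun q : Fin m × Fin m => s(a q.1, a q.2)))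
  intro e he
  unfold edgesIn at he
  rw [Finset.mem_filter] at he
  obtain ⟨h1, h2⟩ := he
  induction e with
  | _ u v =>
    rw [mem_pairs] at h1
    obtain ⟨hu, hv, huv⟩ := h1
    obtain ⟨i, _, rfl⟩ := Finset.mem_image.1 hu
    obtain ⟨j, _, rfl⟩ := Finset.mem_image.1 hv
    rw [Finset.mem_image]
    rcases lt_trichotomy i j with h | h | h
    · exact ⟨(i, j), Finset.mem_filter.2 ⟨Finset.mem_univ _, h, h2⟩, rfl⟩
    · exact absurd (congrArg a h) huv
    · refine ⟨(j, i), Finset.mem_filter.2 ⟨Finset.mem_univ _, h, ?_⟩, Sym2.eq_swap⟩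
      rw [Sym2.eq_swap]
      exact h2

open Classical in
lemma ex_few_edges {p : ℝ} (h0 : 0 ≤ p) (h1 : p ≤ 1) (m k : ℕ) :
    ex p (fun x : Sym2 V → Bool => if (∃ M : Finset V, #M = m ∧ #(edgesIn x M) < k)
      then (1 : ℝ) else 0) ≤
      2 ^ Fintype.card V * (4 ^ k * Real.exp (-(3 / 4 * (p * (m.choose 2 : ℕ))))) := by
  have key : ∀ x : Sym2 V → Bool, (if (∃ M : Finset V, #M = m ∧ #(edgesIn x M) < k)
      then (1 : ℝ) else 0) ≤ ∑ M ∈ powersetCard m (univ : Finset V),
        4 ^ k * ∏ e ∈ pairs M, (if x e = true then (1 / 4 : ℝ) else 1) := by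
    intro x
    have hnn : ∀ M : Finset V, (0 : ℝ) ≤ 4 ^ k * ∏ e ∈ pairs M,
        (if x e = true then (1 / 4 : ℝ) else 1) :=
      fun M => mul_nonneg (by positivity) (Finset.prod_nonneg fun e _ => by split_ifs <;> norm_num)
    split_ifs with h
    · obtain ⟨M, hM1, hM2⟩ := h
      refine le_trans ?_ (Finset.single_le_sum (f := fun M => (4 : ℝ) ^ k * ∏ e ∈ pairs M,
        (if x e = true then (1 / 4 : ℝ) else 1)) (fun M _ => hnn M)
        (Finset.mem_powersetCard.2 ⟨Finset.subset_univ M, hM1⟩))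
      show (1 : ℝ) ≤ 4 ^ k * ∏ e ∈ pairs M, (if x e = true then (1 / 4 : ℝ) else 1)
      rw [← Finset.prod_filter, Finset.prod_const]
      have h3 : (1 / 4 : ℝ) ^ k ≤ (1 / 4 : ℝ) ^ #((pairs M).filter (fun e => x e = true)) :=
        pow_le_pow_of_le_one (by norm_num) (by norm_num) hM2.le
      calc (1 : ℝ) = 4 ^ k * (1 / 4) ^ k := by rw [← mul_pow]; norm_num
        _ ≤ _ := mul_le_mul_of_nonneg_left h3 (by positivity)
    · exact Finset.sum_nonneg fun M _ => hnn M
  refine (ex_mono h0 h1 key).trans ?_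
  rw [ex_sum]
  have h2 : ∀ M ∈ powersetCard m (univ : Finset V),
      ex p (fun x : Sym2 V → Bool => 4 ^ k * ∏ e ∈ pairs M,
        (if x e = true then (1 / 4 : ℝ) else 1)) ≤
      4 ^ k * Real.exp (-(3 / 4 * (p * (m.choose 2 : ℕ)))) := by
    intro M hM
    rw [ex_const_mul]
    refine mul_le_mul_of_nonneg_left ?_ (by positivity)
    refine (ex_prod p _ (fun _ b => if b = true then (1 / 4 : ℝ) else 1)).le.trans ?_
    rw [Finset.prod_const, card_pairs, (Finset.mem_powersetCard.1 hM).2]
    simp only [if_true, Bool.false_eq_true, if_false, mul_one]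
    have h3 : p * (1 / 4) + (1 - p) ≤ Real.exp (-(3 / 4 * p)) := by
      have := Real.add_one_le_exp (-(3 / 4 * p))
      linarith
    calc (p * (1 / 4) + (1 - p)) ^ (m.choose 2) ≤ (Real.exp (-(3 / 4 * p))) ^ (m.choose 2) :=
          pow_le_pow_left₀ (by nlinarith) h3 _
      _ = _ := by
          rw [← Real.exp_nat_mul]
          congr 1
          ring
  refine (Finset.sum_le_sum h2).trans ?_
  rw [Finset.sum_const, nsmul_eq_mul, Finset.card_powersetCard, Finset.card_univ]
  refine mul_le_mul_of_nonneg_right ?_ (by positivity)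
  exact_mod_cast Nat.choose_le_two_pow _ _

open Classical in
lemma ex_iso_le {p : ℝ} (h0 : 0 < p) (h1 : p ≤ 1) (m k : ℕ) :
    ex p (fun x : Sym2 V → Bool => if (∃ a b : Fin m → V, IsoPair x a b)
      then (1 : ℝ) else 0) ≤
      2 ^ Fintype.card V * (4 ^ k * Real.exp (-(3 / 4 * (p * (m.choose 2 : ℕ))))) +
      (Fintype.card V : ℝ) ^ (2 * m) * p ^ k := by
  have key : ∀ x : Sym2 V → Bool, (if (∃ a b : Fin m → V, IsoPair x a b)
      then (1 : ℝ) else 0) ≤ (if (∃ M : Finset V, #M = m ∧ #(edgesIn x M) < k)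
      then (1 : ℝ) else 0) + ∑ q : (Fin m → V) × (Fin m → V),
        (if IsoPair x q.1 q.2 ∧ k ≤ edg x q.1 then (1 : ℝ) else 0) := by
    intro x
    have hs : 0 ≤ ∑ q : (Fin m → V) × (Fin m → V),
        (if IsoPair x q.1 q.2 ∧ k ≤ edg x q.1 then (1 : ℝ) else 0) :=
      Finset.sum_nonneg fun q _ => by split_ifs <;> norm_num
    by_cases h : ∃ a b : Fin m → V, IsoPair x a b
    · rw [if_pos h]
      by_cases hM : ∃ M : Finset V, #M = m ∧ #(edgesIn x M) < k
      · rw [if_pos hM]
        linarith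
      · rw [if_neg hM, zero_add]
        obtain ⟨a, b, hab⟩ := h
        push Not at hM
        have h2 : k ≤ edg x a := by
          refine (hM (univ.image a) ?_).trans (edgesIn_le_edg x a)
          rw [Finset.card_image_of_injective _ hab.1, Finset.card_univ, Fintype.card_fin]
        have h3 := Finset.single_le_sum (s := (univ : Finset ((Fin m → V) × (Fin m → V))))
          (f := fun q => if IsoPair x q.1 q.2 ∧ k ≤ edg x q.1 then (1 : ℝ) else 0)
          (fun q _ => by split_ifs <;> norm_num) (Finset.mem_univ (a, b))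
        simp only at h3
        rw [if_pos ⟨hab, h2⟩] at h3
        exact h3
    · rw [if_neg h]
      have : (0 : ℝ) ≤ (if (∃ M : Finset V, #M = m ∧ #(edgesIn x M) < k)
        then (1 : ℝ) else 0) := by split_ifs <;> norm_num
      linarith
  refine (ex_mono h0.le h1 key).trans ?_
  rw [ex_add, ex_sum]
  refine add_le_add (ex_few_edges h0.le h1 m k) ?_
  refine (Finset.sum_le_sum (fun q _ => ex_isoPair h0 h1 q.1 q.2)).trans ?_
  rw [Finset.sum_const, nsmul_eq_mul, Finset.card_univ, Fintype.card_prod, Fintype.card_fun,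
    Fintype.card_fin, two_mul, pow_add]
  push_cast
  exact le_rfl

end

/-- The dense regime. -/
theorem regimeB : ∀ τ : ℝ, 0 < τ → ∀ᶠ n : ℕ in atTop, ∀ p : ℝ, 0 ≤ p → 8000 ≤ p * n →
    p ≤ 1 / 2 → ex p (fun x : Sym2 (Fin n) → Bool =>
        if (numUnlabeled (gr x) : ℝ) < 2 ^ ((1 / 2 : ℝ) * n) then (1 : ℝ) else 0) ≤ τ := by
  classical
  intro τ hτ
  have herr : Tendsto (fun n : ℕ => 4 * Real.exp (-(1 / 10) * n) + Real.exp (-(1 / 5) * n))
      atTop (𝓝 0) := by
    have h1 : ∀ c : ℝ, c < 0 → Tendsto (fun n : ℕ => Real.exp (c * n)) atTop (𝓝 0) := by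
      intro c hc
      exact Real.tendsto_exp_atBot.comp
        (Tendsto.const_mul_atTop_of_neg hc tendsto_natCast_atTop_atTop)
    simpa using ((h1 (-(1 / 10)) (by norm_num)).const_mul 4).add (h1 (-(1 / 5)) (by norm_num))
  -- sqrt beats log
  have hsq : ∀ᶠ n : ℕ in atTop, Real.log n / 20 + 1 / 5 ≤ Real.sqrt n / 32000 := by
    have h1 : Tendsto (fun n : ℕ => Real.log n / Real.sqrt n) atTop (𝓝 0) := by
      have := (isLittleO_log_rpow_atTop (r := 1 / 2) (by norm_num)).tendsto_div_nhds_zero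
      have h2 := this.comp (tendsto_natCast_atTop_atTop (R := ℝ))
      refine h2.congr fun n => ?_
      simp [Real.sqrt_eq_rpow]
    have h3 : Tendsto (fun n : ℕ => (1 : ℝ) / Real.sqrt n) atTop (𝓝 0) := by
      have : Tendsto (fun n : ℕ => Real.sqrt n) atTop atTop :=
        Real.tendsto_sqrt_atTop.comp tendsto_natCast_atTop_atTop
      refine this.inv_tendsto_atTop.congr fun n => ?_
      simp
    have h4 : Tendsto (fun n : ℕ => Real.log n / Real.sqrt n * (1 / 20) + (1 : ℝ) / Real.sqrt n *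
        (1 / 5)) atTop (𝓝 0) := by
      have h5 := (h1.mul_const (1 / 20)).add (h3.mul_const (1 / 5))
      rw [zero_mul, zero_mul, add_zero] at h5
      exact h5
    filter_upwards [h4.eventually (gt_mem_nhds (by norm_num : (0 : ℝ) < 1 / 32000)),
      eventually_gt_atTop 0] with n hn hn0
    have hn' : (0 : ℝ) < n := by exact_mod_cast hn0
    have hs : 0 < Real.sqrt n := Real.sqrt_pos.2 hn'
    have h5 := mul_lt_mul_of_pos_right hn hs
    have e : (Real.log n / Real.sqrt n * (1 / 20) + (1 : ℝ) / Real.sqrt n * (1 / 5)) * Real.sqrt n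
        = Real.log n / 20 + 1 / 5 := by
      field_simp
    rw [e] at h5
    linarith
  filter_upwards [herr.eventually (gt_mem_nhds hτ), hsq, eventually_ge_atTop 800] with n hn1 hn2 hn3
    p hp0 hp1 hp2
  have hn' : (800 : ℝ) ≤ n := by exact_mod_cast hn3
  have hnpos : (0 : ℝ) < n := by linarith
  have hppos : 0 < p := by
    rcases hp0.eq_or_lt with h | h
    · rw [← h] at hp1; norm_num at hp1
    · exact h
  have hp1' : p ≤ 1 := by linarith
  set m : ℕ := n / 40 with hm
  set N : ℕ := m.choose 2 with hN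
  set k : ℕ := ⌈p * N / 4⌉₊ with hk
  have hcard : Fintype.card (Fin n) = n := Fintype.card_fin n
  have hm1 : (m : ℝ) ≤ n / 40 := by
    rw [hm]
    exact_mod_cast Nat.cast_div_le (α := ℝ) (m := n) (n := 40)
  have hm2 : (n : ℝ) / 40 - 1 ≤ m := by
    have : n < 40 * m + 40 := by omega
    have : (n : ℝ) < 40 * m + 40 := by exact_mod_cast this
    linarith
  have hN1 : (n : ℝ) ^ 2 / 4000 ≤ N := by
    have h1 : (N : ℝ) = m * (m - 1) / 2 := by
      rw [hN]
      exact Nat.cast_choose_two ℝ m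
    rw [h1]
    nlinarith
  set y : ℝ := p * N with hy
  have hy1 : 2 * n ≤ y := by
    have : p * ((n : ℝ) ^ 2 / 4000) ≤ p * N := mul_le_mul_of_nonneg_left hN1 hp0
    nlinarith
  have hk1 : y / 4 ≤ k := Nat.le_ceil _
  have hk2 : (k : ℝ) ≤ y / 4 + 1 := (Nat.ceil_lt_add_one (by positivity)).le
  have hmain := ex_iso_le (V := Fin n) hppos hp1' m k
  rw [hcard] at hmain
  refine le_trans (ex_mono hp0 hp1' ?_) (hmain.trans (le_trans (add_le_add ?_ ?_) hn1.le))
  · intro x
    by_cases h : ∃ a b : Fin m → Fin n, IsoPair x a b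
    · rw [if_pos h]
      split_ifs <;> norm_num
    · rw [if_neg h, if_neg]
      push Not
      have h1 := many_of_no_iso h
      rw [hcard] at h1
      have h2 : (8 : ℝ) ^ (2 * m) ≤ 2 ^ ((3 / 20 : ℝ) * n) := by
        have : (8 : ℝ) ^ (2 * m) = 2 ^ ((6 * m : ℕ) : ℝ) := by
          rw [Real.rpow_natCast, show (8 : ℝ) = 2 ^ 3 by norm_num, ← pow_mul]
          congr 1
          ring
        rw [this]
        refine Real.rpow_le_rpow_of_exponent_le (by norm_num) ?_
        push_cast
        linarith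
      have h3 : (9 / 8 : ℝ) ^ n ≤ 2 ^ ((1 / 5 : ℝ) * n) := by
        rw [Real.rpow_mul (by norm_num), Real.rpow_natCast]
        refine pow_le_pow_left₀ (by norm_num) ?_ n
        rw [show (9 / 8 : ℝ) = ((9 / 8 : ℝ) ^ (5 : ℕ)) ^ (1 / 5 : ℝ) by
          rw [← Real.rpow_natCast, ← Real.rpow_mul (by norm_num)]; norm_num]
        exact Real.rpow_le_rpow (by norm_num) (by norm_num) (by norm_num)
      have h4 : (8 : ℝ) ^ (2 * m) * (9 / 8) ^ n ≤ 2 ^ ((1 / 2 : ℝ) * n) := by
        refine (mul_le_mul h2 h3 (by positivity) (by positivity)).trans ?_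
        rw [← Real.rpow_add (by norm_num)]
        refine Real.rpow_le_rpow_of_exponent_le (by norm_num) ?_
        nlinarith
      have h5 : (2 : ℝ) ^ n = 2 ^ ((1 / 2 : ℝ) * n) * 2 ^ ((1 / 2 : ℝ) * n) := by
        rw [← Real.rpow_add (by norm_num), ← Real.rpow_natCast]
        congr 1
        ring
      rw [h5] at h1
      have h6 : (2 : ℝ) ^ ((1 / 2 : ℝ) * n) * 2 ^ ((1 / 2 : ℝ) * n) ≤
          numUnlabeled (gr x) * 2 ^ ((1 / 2 : ℝ) * n) :=
        h1.trans (mul_le_mul_of_nonneg_left h4 (by positivity))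
      exact le_of_mul_le_mul_right h6 (by positivity)
  · -- first error term
    have hl2 : Real.log 2 < 0.7 := lt_trans Real.log_two_lt_d9 (by norm_num)
    have hl20 : 0 < Real.log 2 := Real.log_pos (by norm_num)
    have e1 : (2 : ℝ) ^ n = Real.exp (Real.log 2 * n) := by
      rw [mul_comm, Real.exp_nat_mul, Real.exp_log (by norm_num)]
    have e2 : (4 : ℝ) ^ k = Real.exp (2 * Real.log 2 * k) := by
      rw [mul_comm, Real.exp_nat_mul, two_mul, Real.exp_add, Real.exp_log (by norm_num)]
      norm_num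
    have e3 : (4 : ℝ) = Real.exp (2 * Real.log 2) := by
      rw [two_mul, Real.exp_add, Real.exp_log (by norm_num)]
      norm_num
    calc (2 : ℝ) ^ n * (4 ^ k * Real.exp (-(3 / 4 * (p * (N : ℕ)))))
        = Real.exp (Real.log 2 * n + (2 * Real.log 2 * k + -(3 / 4 * y))) := by
          rw [e1, e2, ← Real.exp_add, ← Real.exp_add]
      _ ≤ Real.exp (2 * Real.log 2 + (-(1 / 10) * n)) := by
          refine Real.exp_le_exp.2 ?_
          have f1 : 2 * Real.log 2 * k ≤ 2 * Real.log 2 * (y / 4 + 1) :=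
            mul_le_mul_of_nonneg_left hk2 (by positivity)
          have f2 : Real.log 2 * y ≤ 0.7 * y :=
            mul_le_mul_of_nonneg_right hl2.le (by linarith)
          have f3 : Real.log 2 * n ≤ 0.7 * n := mul_le_mul_of_nonneg_right hl2.le hnpos.le
          linarith
      _ = 4 * Real.exp (-(1 / 10) * n) := by rw [Real.exp_add, ← e3]
  · -- second error term
    have hlogn : 1 ≤ Real.log n := by
      rw [Real.le_log_iff_exp_le hnpos]
      have : Real.exp 1 < 3 := lt_trans Real.exp_one_lt_d9 (by norm_num)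
      linarith
    have e1 : (n : ℝ) ^ (2 * m) = Real.exp (Real.log n * (2 * m)) := by
      have : ((2 * m : ℕ) : ℝ) = 2 * m := by push_cast; ring
      rw [mul_comm (Real.log n), ← this, Real.exp_nat_mul, Real.exp_log hnpos]
    have e2 : p ^ k = Real.exp (Real.log p * k) := by
      rw [mul_comm, Real.exp_nat_mul, Real.exp_log hppos]
    rw [e1, e2, ← Real.exp_add]
    refine Real.exp_le_exp.2 ?_
    have f1 : Real.log n * (2 * m) ≤ Real.log n * (n / 20) :=
      mul_le_mul_of_nonneg_left (by linarith) (by linarith)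
    have hsqn : Real.sqrt n * Real.sqrt n = n := Real.mul_self_sqrt hnpos.le
    have hsp : 0 < Real.sqrt n := Real.sqrt_pos.2 hnpos
    rcases le_total (p * Real.sqrt n) 1 with hc | hc
    · have f2 : Real.log p ≤ -(Real.log n / 2) := by
        have h1 : p ≤ (Real.sqrt n)⁻¹ := by
          rw [le_inv_comm₀ hppos hsp, ← one_div, le_div_iff₀ hppos, mul_comm]
          exact hc
        have h2 := Real.log_le_log hppos h1
        rw [Real.log_inv, Real.log_sqrt hnpos.le] at h2
        exact h2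
      have f3 : (n : ℝ) / 2 ≤ k := by linarith
      have f4 : Real.log p * k ≤ -(Real.log n / 2) * k :=
        mul_le_mul_of_nonneg_right f2 (by positivity)
      have f5 : -(Real.log n / 2) * k ≤ -(Real.log n / 2) * (n / 2) := by
        have : Real.log n / 2 * (n / 2) ≤ Real.log n / 2 * k :=
          mul_le_mul_of_nonneg_left f3 (by linarith)
        linarith
      nlinarith
    · have f2 : Real.log p ≤ -(1 / 2) := by
        have h2 := Real.log_le_log hppos hp2
        have h3 : Real.log (1 / 2) = - Real.log 2 := by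
          rw [one_div, Real.log_inv]
        have h4 : 0.6931471803 < Real.log 2 := Real.log_two_gt_d9
        linarith
      have f3 : (n : ℝ) * Real.sqrt n / 16000 ≤ k := by
        refine le_trans ?_ hk1
        have h1 : p * ((n : ℝ) ^ 2 / 4000) ≤ y := mul_le_mul_of_nonneg_left hN1 hp0
        have h2 : (n : ℝ) * Real.sqrt n ≤ p * (n : ℝ) ^ 2 := by
          have : (n : ℝ) * Real.sqrt n * 1 ≤ (n : ℝ) * Real.sqrt n * (p * Real.sqrt n) :=
            mul_le_mul_of_nonneg_left hc (by positivity)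
          calc (n : ℝ) * Real.sqrt n = (n : ℝ) * Real.sqrt n * 1 := by ring
            _ ≤ (n : ℝ) * Real.sqrt n * (p * Real.sqrt n) := this
            _ = p * (n * (Real.sqrt n * Real.sqrt n)) := by ring
            _ = p * (n : ℝ) ^ 2 := by rw [hsqn]; ring
        linarith
      have f4 : Real.log p * k ≤ -(1 / 2) * k := mul_le_mul_of_nonneg_right f2 (by positivity)
      have f5 : (n : ℝ) * (Real.log n / 20 + 1 / 5) ≤ n * (Real.sqrt n / 32000) :=
        mul_le_mul_of_nonneg_left hn2 hnpos.le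
      nlinarith

end Pool.Agent.Lib.MP_52097a_pr
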