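import Mathlib
import Pool.Agent.Lib.MP_52097a_pr.Cat

/-!
# Counting unlabeled induced subgraphs when most components are small
-/

set_option linter.unusedSectionVars false

namespace Pool.Agent.Lib.MP_52097a_pr

open Finset

variable {V : Type*}

/-- Gluing isomorphisms along a labelling that is constant on edges. -/
lemma glue {G : SimpleGraph V} {ι : Type*} (lab : V → ι) (hlab : ∀ u v, G.Adj u v → lab u = lab v)
    (S S' : Set V) (e : ι ≃ ι)
    (φ : ∀ i, G.induce {v | v ∈ S ∧ lab v = i} ≃g G.induce {v | v ∈ S' ∧ lab v = e i}) :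
    Nonempty (G.induce S ≃g G.induce S') := by
  have h1 : ∀ (a : S) i (h : lab a = i), ((φ i ⟨a, a.2, h⟩ : V) ∈ S') ∧
      lab (φ i ⟨a, a.2, h⟩ : V) = e i := fun a i h => (φ i ⟨a, a.2, h⟩).2
  let f : S → S' := fun a => ⟨(φ (lab a) ⟨a, a.2, rfl⟩ : V), (h1 a _ rfl).1⟩
  have key : ∀ (a : S) i (h : lab a = i), (f a : V) = (φ i ⟨a, a.2, h⟩ : V) := by
    rintro a i rfl
    rfl
  have hl : ∀ a : S, lab (f a : V) = e (lab a) := fun a => (h1 a _ rfl).2
  have hinj : Function.Injective f := by
    intro a b hab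
    have h2 : lab (a : V) = lab b := by
      apply e.injective
      rw [← hl, ← hl, hab]
    have h3 : (φ (lab b) ⟨a, a.2, h2⟩ : V) = (φ (lab b) ⟨b, b.2, rfl⟩ : V) := by
      rw [← key a (lab b) h2, ← key b (lab b) rfl, hab]
    have h4 := (φ (lab b)).injective (Subtype.ext h3)
    exact Subtype.ext (congrArg (Subtype.val (p := fun v => v ∈ S ∧ lab v = lab b)) h4)
  have hsurj : Function.Surjective f := by
    intro b
    have hb : lab (b : V) = e (e.symm (lab b)) := by simp
    set i := e.symm (lab (b : V)) with hi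
    have h2 := ((φ i).symm ⟨b, b.2, hb⟩).2
    refine ⟨⟨((φ i).symm ⟨b, b.2, hb⟩ : V), h2.1⟩, ?_⟩
    apply Subtype.ext
    rw [key _ i h2.2]
    have h3 : (φ i) ((φ i).symm ⟨b, b.2, hb⟩) = ⟨b, b.2, hb⟩ := (φ i).apply_symm_apply _
    exact congrArg (Subtype.val (p := fun v => v ∈ S' ∧ lab v = e i)) h3
  refine ⟨⟨Equiv.ofBijective f ⟨hinj, hsurj⟩, ?_⟩⟩
  intro a b
  show G.Adj (f a : V) (f b : V) ↔ G.Adj (a : V) (b : V)
  constructor
  · intro h
    have h2 : lab (a : V) = lab b := by
      apply e.injective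
      rw [← hl, ← hl]
      exact hlab _ _ h
    rw [key a (lab b) h2, key b (lab b) rfl] at h
    exact ((φ (lab b)).map_adj_iff (v := ⟨a, a.2, h2⟩) (w := ⟨b, b.2, rfl⟩)).1 h
  · intro h
    have h2 := hlab _ _ h
    rw [key a (lab b) h2, key b (lab b) rfl]
    exact ((φ (lab b)).map_adj_iff (v := ⟨a, a.2, h2⟩) (w := ⟨b, b.2, rfl⟩)).2 h

/-- Two colourings with equal colour counts differ by a permutation. -/
lemma exists_perm_of_card {ι T : Type*} [Fintype ι] [DecidableEq T] (τ τ' : ι → T)
    (h : ∀ t, Fintype.card {i // τ i = t} = Fintype.card {i // τ' i = t}) :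
    ∃ e : ι ≃ ι, ∀ i, τ' (e i) = τ i := by
  let e := (Equiv.sigmaFiberEquiv τ).symm.trans
    ((Equiv.sigmaCongrRight fun t => Fintype.equivOfCardEq (h t)).trans (Equiv.sigmaFiberEquiv τ'))
  refine ⟨e, fun i => ?_⟩
  have : ∀ (q : Σ t, {i // τ' i = t}), τ' (Equiv.sigmaFiberEquiv τ' q) = q.1 := by
    rintro ⟨t, i, rfl⟩
    rfl
  simp only [e, Equiv.trans_apply]
  rw [this]
  rfl

/-- Isomorphism types of graphs with fewer than `K` vertices. -/
abbrev SmallGraph (K : ℕ) : Type := Σ j : Fin K, SimpleGraph (Fin j)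

lemma exists_smallGraph {K : ℕ} (G : SimpleGraph V) (A : Set V) (hA : A.Finite)
    (hK : A.ncard < K) : ∃ t : SmallGraph K, Nonempty (G.induce A ≃g t.2) := by
  have : Fintype A := hA.fintype
  have hc : Fintype.card A = A.ncard := by
    rw [← Nat.card_eq_fintype_card]
    rfl
  let j : Fin K := ⟨A.ncard, hK⟩
  let e : A ≃ Fin j := Fintype.equivFinOfCardEq hc
  exact ⟨⟨j, (G.induce A).map e.toEmbedding⟩, ⟨SimpleGraph.Iso.map e (G.induce A)⟩⟩

/-- Vertices in components with at least `K` vertices. -/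
def bigVerts (G : SimpleGraph V) (K : ℕ) : Set V :=
  {v | K ≤ {y | G.Reachable v y}.ncard}

theorem sub_count [Fintype V] (G : SimpleGraph V) (K : ℕ) :
    numUnlabeled G ≤ 2 ^ (bigVerts G K).ncard *
      (Fintype.card V + 1) ^ Fintype.card (SmallGraph K) := by
  classical
  set B := bigVerts G K with hB
  let ι := G.ConnectedComponent
  have : Fintype ι := Fintype.ofFinite ι
  let lab : V → ι := G.connectedComponentMk
  have hlab : ∀ u v, G.Adj u v → lab u = lab v := fun u v h =>
    SimpleGraph.ConnectedComponent.sound h.reachable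
  let big : ι → Prop := fun c => K ≤ {y | lab y = c}.ncard
  have hbig : ∀ v, v ∈ B ↔ big (lab v) := by
    intro v
    rw [hB]
    show K ≤ {y | G.Reachable v y}.ncard ↔ K ≤ {y | lab y = lab v}.ncard
    have : {y | G.Reachable v y} = {y | lab y = lab v} := by
      ext y
      show G.Reachable v y ↔ G.connectedComponentMk y = G.connectedComponentMk v
      rw [SimpleGraph.ConnectedComponent.eq]
      exact ⟨fun h => h.symm, fun h => h.symm⟩
    rw [this]
  -- types
  have htype : ∀ (S : Set V) (c : {c : ι // ¬ big c}), ∃ t : SmallGraph K,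
      Nonempty (G.induce {v | v ∈ S ∧ lab v = c} ≃g t.2) := by
    intro S c
    refine exists_smallGraph G _ (Set.toFinite _) ?_
    refine lt_of_le_of_lt (Set.ncard_le_ncard ?_ (Set.toFinite _)) (not_le.1 c.2)
    intro v hv
    exact hv.2
  choose τ hτ using htype
  let D : Set V → Set B × (SmallGraph K → Fin (Fintype.card V + 1)) := fun S =>
    ({v | (v : V) ∈ S}, fun t => ⟨Fintype.card {c // τ S c = t}, by
      have h1 : Fintype.card {c // τ S c = t} ≤ Fintype.card {c : ι // ¬ big c} :=
        Fintype.card_subtype_le _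
      have h2 : Fintype.card {c : ι // ¬ big c} ≤ Fintype.card ι := Fintype.card_subtype_le _
      have h3 : Fintype.card ι ≤ Fintype.card V :=
        Fintype.card_le_of_surjective lab (Quot.mk_surjective)
      omega⟩)
  have hD : ∀ S S', D S = D S' → (indSetoid G).r S S' := by
    intro S S' h
    have h1 : ({v : B | (v : V) ∈ S}) = {v : B | (v : V) ∈ S'} := congrArg Prod.fst h
    have h2 : ∀ t, Fintype.card {c // τ S c = t} = Fintype.card {c // τ S' c = t} := by
      intro t
      have := congrFun (congrArg Prod.snd h) t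
      exact congrArg Fin.val this
    obtain ⟨σ, hσ⟩ := exists_perm_of_card (τ S) (τ S') h2
    refine glue lab hlab S S' (Equiv.Perm.ofSubtype σ) fun i => ?_
    by_cases hi : big i
    · have e1 : (Equiv.Perm.ofSubtype σ) i = i :=
        Equiv.Perm.ofSubtype_apply_of_not_mem σ (fun h' => h' hi)
      rw [e1]
      have e2 : {v | v ∈ S ∧ lab v = i} = {v | v ∈ S' ∧ lab v = i} := by
        ext v
        show (v ∈ S ∧ lab v = i) ↔ (v ∈ S' ∧ lab v = i)
        constructor
        · rintro ⟨h3, rfl⟩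
          have h4 : (⟨v, (hbig v).2 hi⟩ : B) ∈ {v : B | (v : V) ∈ S} := h3
          rw [h1] at h4
          exact ⟨h4, rfl⟩
        · rintro ⟨h3, rfl⟩
          have h4 : (⟨v, (hbig v).2 hi⟩ : B) ∈ {v : B | (v : V) ∈ S'} := h3
          rw [← h1] at h4
          exact ⟨h4, rfl⟩
      rw [e2]
    · have e1 : (Equiv.Perm.ofSubtype σ) i = σ ⟨i, hi⟩ :=
        Equiv.Perm.ofSubtype_apply_of_mem σ hi
      rw [e1]
      have h3 := (hτ S ⟨i, hi⟩).some
      have h4 := (hτ S' (σ ⟨i, hi⟩)).some
      rw [hσ] at h4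
      exact h3.trans h4.symm
  have hinj : Function.Injective (fun q : Quotient (indSetoid G) => D q.out) := by
    intro q q' h
    have := hD _ _ h
    rw [← q.out_eq, ← q'.out_eq]
    exact Quotient.sound this
  unfold numUnlabeled
  refine (Nat.card_le_card_of_injective _ hinj).trans ?_
  rw [Nat.card_prod]
  refine Nat.mul_le_mul ?_ ?_
  · rw [Nat.card_eq_fintype_card, Fintype.card_set, ← Nat.card_eq_fintype_card]
    exact le_rfl
  · rw [Nat.card_eq_fintype_card, Fintype.card_fun, Fintype.card_fin]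

end Pool.Agent.Lib.MP_52097a_pr
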