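import Mathlib
import Pool.Agent.Lib.MP_52097a_pr.SubCount
import Pool.Agent.Lib.MP_52097a_pr.RegimeB

/-!
# The subcritical regime
-/

set_option linter.unusedSectionVars false

namespace Pool.Agent.Lib.MP_52097a_pr

open Finset Filter Topology

section
variable {V : Type*} [Fintype V] [DecidableEq V]

/-- The sequence `v, a 0, a 1, …` is a path in the graph with bits `x`. -/
def IsSeqPath (x : Sym2 V → Bool) (v : V) {l : ℕ} (a : Fin l → V) : Prop :=
  Function.Injective (Fin.cons v a : Fin (l + 1) → V) ∧
    ∀ i : Fin l, x s((Fin.cons v a : Fin (l + 1) → V) i.castSucc,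
      (Fin.cons v a : Fin (l + 1) → V) i.succ) = true

lemma reach_seq {x : Sym2 V → Bool} {v y : V} (h : (gr x).Reachable v y) :
    ∃ l, l < Fintype.card V ∧ ∃ a : Fin l → V, IsSeqPath x v a ∧
      (Fin.cons v a : Fin (l + 1) → V) (Fin.last l) = y := by
  obtain ⟨P, hP⟩ := h.exists_isPath
  refine ⟨P.length, hP.length_lt, fun i => P.getVert (i + 1), ?_, ?_⟩
  · have hc : ∀ i : Fin (P.length + 1),
        (Fin.cons v (fun i : Fin P.length => P.getVert (i + 1)) : Fin (P.length + 1) → V) i
          = P.getVert i := by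
      intro i
      refine Fin.cases ?_ ?_ i
      · simp
      · intro j
        simp
    constructor
    · intro i j hij
      rw [hc, hc] at hij
      have := hP.getVert_injOn (by simp; omega) (by simp; omega) hij
      exact Fin.ext this
    · intro i
      rw [hc, hc]
      have := P.adj_getVert_succ (i := i) i.2
      rw [gr_adj] at this
      simpa using this.2
  · have : (Fin.cons v (fun i : Fin P.length => P.getVert (i + 1)) : Fin (P.length + 1) → V)
        (Fin.last P.length) = P.getVert P.length := by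
      rcases Nat.eq_zero_or_pos P.length with h0 | h0
      · have : Fin.last P.length = 0 := by
          apply Fin.ext
          simp [h0]
        rw [this, Fin.cons_zero, h0, P.getVert_zero]
      · obtain ⟨k, hk⟩ : ∃ k, P.length = k + 1 := ⟨P.length - 1, by omega⟩
        have : Fin.last P.length = Fin.succ ⟨k, by omega⟩ := by
          apply Fin.ext
          simp [hk]
        rw [this, Fin.cons_succ]
        simp [hk]
    rw [this, P.getVert_length]

open Classical in
lemma ex_seqPath {p : ℝ} (h0 : 0 ≤ p) (v : V) {l : ℕ} (a : Fin l → V) :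
    ex p (fun x : Sym2 V → Bool => if IsSeqPath x v a then (1 : ℝ) else 0) ≤ p ^ l := by
  by_cases hinj : Function.Injective (Fin.cons v a : Fin (l + 1) → V)
  · have h1 : (fun x : Sym2 V → Bool => if IsSeqPath x v a then (1 : ℝ) else 0)
        = fun x => ∏ i : Fin l, (if x s((Fin.cons v a : Fin (l + 1) → V) i.castSucc,
          (Fin.cons v a : Fin (l + 1) → V) i.succ) = true then (1 : ℝ) else 0) := by
      funext x
      rw [Finset.prod_ite_zero]
      simp only [Finset.prod_const_one, Finset.mem_univ, true_imp_iff]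
      congr 1
      simp only [IsSeqPath, hinj, true_and]
    rw [h1]
    refine (ex_prod_inj p univ (fun i : Fin l => s((Fin.cons v a : Fin (l + 1) → V) i.castSucc,
      (Fin.cons v a : Fin (l + 1) → V) i.succ)) ?_ (fun _ b => if b = true then (1 : ℝ) else 0)).le.trans ?_
    · intro i _ j _ hij
      rw [Sym2.eq_iff] at hij
      rcases hij with ⟨h2, _⟩ | ⟨h2, h3⟩
      · have := hinj h2
        exact Fin.castSucc_injective _ this
      · have h4 := hinj h2
        have h5 := hinj h3
        have h6 := congrArg Fin.val h4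
        have h7 := congrArg Fin.val h5
        simp at h6 h7
        omega
    · simp
  · have h1 : ∀ x : Sym2 V → Bool, (if IsSeqPath x v a then (1 : ℝ) else 0) = 0 := by
      intro x
      rw [if_neg]
      intro h
      exact hinj h.1
    simp_rw [h1]
    rw [ex_const]
    positivity

/-- Expected size of the component of a vertex. -/
lemma ex_reach {p : ℝ} (h0 : 0 ≤ p) (h1 : p ≤ 1) {δ : ℝ} (hδ : 0 < δ)
    (hp : p * Fintype.card V ≤ 1 - δ) (v : V) :
    ex p (fun x : Sym2 V → Bool => ({y | (gr x).Reachable v y}.ncard : ℝ)) ≤ 1 / δ := by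
  classical
  have key : ∀ x : Sym2 V → Bool, ({y | (gr x).Reachable v y}.ncard : ℝ) ≤
      ∑ l ∈ range (Fintype.card V), ∑ a : Fin l → V, if IsSeqPath x v a then (1 : ℝ) else 0 := by
    intro x
    have e1 : ∑ l ∈ range (Fintype.card V), ∑ a : Fin l → V,
        (if IsSeqPath x v a then (1 : ℝ) else 0)
        = (#((range (Fintype.card V)).sigma
            (fun l => (univ : Finset (Fin l → V)).filter (fun a => IsSeqPath x v a))) : ℝ) := by
      rw [Finset.card_sigma]
      push_cast
      refine Finset.sum_congr rfl fun l _ => ?_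
      rw [Finset.sum_boole]
    rw [e1]
    have e2 : {y | (gr x).Reachable v y}.ncard
        = #((univ : Finset V).filter (fun y => (gr x).Reachable v y)) := by
      rw [← Set.ncard_coe_finset]
      congr 1
      ext y
      simp
    rw [e2]
    norm_cast
    refine (Finset.card_le_card (t := ((range (Fintype.card V)).sigma
            (fun l => (univ : Finset (Fin l → V)).filter (fun a => IsSeqPath x v a))).image
            (fun q => (Fin.cons v q.2 : Fin (q.1 + 1) → V) (Fin.last q.1))) ?_).trans
            Finset.card_image_le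
    intro y hy
    rw [Finset.mem_filter] at hy
    obtain ⟨l, hl, a, ha, hay⟩ := reach_seq hy.2
    rw [Finset.mem_image]
    refine ⟨⟨l, a⟩, ?_, hay⟩
    rw [Finset.mem_sigma, Finset.mem_filter]
    exact ⟨Finset.mem_range.2 hl, Finset.mem_univ _, ha⟩
  refine (ex_mono h0 h1 key).trans ?_
  rw [ex_sum]
  have e3 : ∀ l ∈ range (Fintype.card V), ex p (fun x : Sym2 V → Bool =>
      ∑ a : Fin l → V, if IsSeqPath x v a then (1 : ℝ) else 0) ≤ (p * Fintype.card V) ^ l := by
    intro l _
    rw [ex_sum]
    refine (Finset.sum_le_sum (fun a _ => ex_seqPath h0 v a)).trans ?_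
    rw [Finset.sum_const, nsmul_eq_mul, Finset.card_univ, Fintype.card_fun, Fintype.card_fin,
      mul_pow, mul_comm]
    push_cast
    exact le_rfl
  refine (Finset.sum_le_sum e3).trans ?_
  set r : ℝ := p * Fintype.card V with hr
  have hr0 : 0 ≤ r := by positivity
  have h2 := geom_sum_mul_neg r (Fintype.card V)
  have h3 : 0 ≤ r ^ (Fintype.card V) := by positivity
  rw [le_div_iff₀ hδ]
  have h4 : 0 ≤ ∑ i ∈ range (Fintype.card V), r ^ i := Finset.sum_nonneg fun i _ => by positivity
  calc (∑ i ∈ range (Fintype.card V), r ^ i) * δ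
      ≤ (∑ i ∈ range (Fintype.card V), r ^ i) * (1 - r) :=
        mul_le_mul_of_nonneg_left (by linarith) h4
    _ = 1 - r ^ (Fintype.card V) := h2
    _ ≤ 1 := by linarith

open Classical in
/-- Most components are small. -/
lemma ex_bigVerts {p : ℝ} (h0 : 0 ≤ p) (h1 : p ≤ 1) {δ : ℝ} (hδ : 0 < δ)
    (hp : p * Fintype.card V ≤ 1 - δ) {K : ℕ} (hK : 1 ≤ K) {ε : ℝ} (hε : 0 < ε)
    (hV : 1 ≤ Fintype.card V) :
    ex p (fun x : Sym2 V → Bool => if ε * Fintype.card V < (bigVerts (gr x) K).ncard
      then (1 : ℝ) else 0) ≤ 1 / (δ * K * ε) := by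
  have hK' : (0 : ℝ) < K := by exact_mod_cast hK
  have hV' : (0 : ℝ) < Fintype.card V := by exact_mod_cast hV
  have key : ∀ x : Sym2 V → Bool, (if ε * Fintype.card V < (bigVerts (gr x) K).ncard
      then (1 : ℝ) else 0) ≤ (ε * Fintype.card V * K)⁻¹ *
        ∑ v : V, ({y | (gr x).Reachable v y}.ncard : ℝ) := by
    intro x
    have hnn : 0 ≤ ∑ v : V, ({y | (gr x).Reachable v y}.ncard : ℝ) :=
      Finset.sum_nonneg fun v _ => by positivity
    split_ifs with h
    · have e1 : (K : ℝ) * (bigVerts (gr x) K).ncard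
          ≤ ∑ v : V, ({y | (gr x).Reachable v y}.ncard : ℝ) := by
        have e2 : (bigVerts (gr x) K).ncard
            = #((univ : Finset V).filter (fun v => v ∈ bigVerts (gr x) K)) := by
          rw [← Set.ncard_coe_finset]
          congr 1
          ext y
          simp
        rw [e2, mul_comm, ← nsmul_eq_mul, ← Finset.sum_const]
        refine (Finset.sum_le_sum (f := fun _ => (K : ℝ))
          (g := fun v => ({y | (gr x).Reachable v y}.ncard : ℝ)) ?_).trans ?_
        · intro v hv
          rw [Finset.mem_filter] at hv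
          have : K ≤ {y | (gr x).Reachable v y}.ncard := hv.2
          show (K : ℝ) ≤ ({y | (gr x).Reachable v y}.ncard : ℝ)
          exact_mod_cast this
        · exact Finset.sum_le_sum_of_subset_of_nonneg (Finset.filter_subset _ _)
            fun v _ _ => by positivity
      rw [inv_mul_eq_div, one_le_div (by positivity)]
      refine le_trans ?_ e1
      calc ε * Fintype.card V * K = K * (ε * Fintype.card V) := by ring
        _ ≤ _ := mul_le_mul_of_nonneg_left h.le hK'.le
    · positivity
  refine (ex_mono h0 h1 key).trans ?_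
  rw [ex_const_mul, ex_sum]
  have h2 := Finset.sum_le_sum (s := (univ : Finset V)) (fun v _ => ex_reach h0 h1 hδ hp v)
  rw [Finset.sum_const, nsmul_eq_mul, Finset.card_univ] at h2
  refine (mul_le_mul_of_nonneg_left h2 (by positivity)).trans ?_
  rw [inv_mul_eq_div]
  apply le_of_eq
  field_simp

end

open Classical in
/-- The subcritical regime. -/
theorem regimeSub {δ ε τ : ℝ} (hδ : 0 < δ) (hε : 0 < ε) (hτ : 0 < τ) :
    ∀ᶠ n : ℕ in atTop, ∀ p : ℝ, 0 ≤ p → p ≤ 1 → p * n ≤ 1 - δ →
      ex p (fun x : Sym2 (Fin n) → Bool =>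
        if 2 ^ (ε * n) < (numUnlabeled (gr x) : ℝ) then (1 : ℝ) else 0) ≤ τ := by
  obtain ⟨K, hK⟩ := exists_nat_gt (1 / (δ * (ε / 2) * τ))
  have hK0 : (0 : ℝ) < K := lt_trans (by positivity) hK
  have hK1 : 1 ≤ K := by exact_mod_cast hK0
  set M : ℕ := Fintype.card (SmallGraph K) with hM
  -- polynomial is negligible
  have hpoly : ∀ᶠ n : ℕ in atTop, (M : ℝ) * Real.logb 2 (n + 1) ≤ ε / 2 * n := by
    have h1 : Tendsto (fun n : ℕ => Real.log ((n : ℝ) + 1) / ((n : ℝ) + 1)) atTop (𝓝 0) := by
      have := Real.isLittleO_log_id_atTop.tendsto_div_nhds_zero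
      have h2 := this.comp (tendsto_atTop_add_const_right _ 1 (tendsto_natCast_atTop_atTop (R := ℝ)))
      exact h2
    have hl2 : 0 < Real.log 2 := Real.log_pos (by norm_num)
    have h3 := h1.const_mul (2 * M / Real.log 2)
    rw [mul_zero] at h3
    filter_upwards [h3.eventually (gt_mem_nhds (by positivity : (0 : ℝ) < ε / 2)),
      eventually_ge_atTop 1] with n hn hn1
    have hn' : (1 : ℝ) ≤ n := by exact_mod_cast hn1
    have hlog : 0 ≤ Real.log ((n : ℝ) + 1) := Real.log_nonneg (by linarith)
    have h4 : 2 * M / Real.log 2 * (Real.log ((n : ℝ) + 1) / ((n : ℝ) + 1)) * ((n : ℝ) + 1)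
        < ε / 2 * (n + 1) := mul_lt_mul_of_pos_right hn (by linarith)
    have h5 : 2 * M / Real.log 2 * (Real.log ((n : ℝ) + 1) / ((n : ℝ) + 1)) * ((n : ℝ) + 1)
        = 2 * (M * Real.logb 2 (n + 1)) := by
      unfold Real.logb
      field_simp
    rw [h5] at h4
    nlinarith
  filter_upwards [hpoly, eventually_ge_atTop 1] with n hn1 hn2 p h0 h1 hp
  have hcard : Fintype.card (Fin n) = n := Fintype.card_fin n
  have h2 := ex_bigVerts (V := Fin n) h0 h1 hδ (by rw [hcard]; exact hp) hK1
    (by positivity : (0 : ℝ) < ε / 2) (by rw [hcard]; exact hn2)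
  refine le_trans (ex_mono h0 h1 ?_) (h2.trans ?_)
  · intro x
    rw [hcard]
    by_cases h : ε / 2 * n < ((bigVerts (gr x) K).ncard : ℝ)
    · rw [if_pos h]
      split_ifs <;> norm_num
    · rw [if_neg h, if_neg]
      push Not
      have h3 : (numUnlabeled (gr x) : ℝ) ≤ 2 ^ (bigVerts (gr x) K).ncard *
        ((n : ℝ) + 1) ^ M := by
        have := sub_count (gr x) K
        rw [hcard, ← hM] at this
        exact_mod_cast this
      refine h3.trans ?_
      have h4 : ((n : ℝ) + 1) ^ M = 2 ^ ((M : ℝ) * Real.logb 2 (n + 1)) := by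
        rw [mul_comm, Real.rpow_mul (by norm_num), Real.rpow_logb (by norm_num) (by norm_num)
          (by positivity), Real.rpow_natCast]
      rw [h4, ← Real.rpow_natCast, ← Real.rpow_add (by norm_num)]
      refine Real.rpow_le_rpow_of_exponent_le (by norm_num) ?_
      push Not at h
      linarith
  · rw [div_le_iff₀ (by positivity)]
    rw [div_lt_iff₀ (by positivity)] at hK
    nlinarith

end Pool.Agent.Lib.MP_52097a_pr
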