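import Mathlib
import Pool.Agent.Lib.MP_52097a_pr.RegimeA2
import Pool.Agent.Lib.MP_52097a_pr.RegimeB2
import Pool.Agent.Lib.MP_52097a_pr.Sub

/-!
# Assembly: the sharp threshold at `1 / n`
-/

set_option linter.unusedSectionVars false

namespace Pool.Agent.Lib.MP_52097a_pr

open Finset Filter Topology

/-! ### Complementation -/

lemma ex_flip {E : Type*} [Fintype E] [DecidableEq E] (p : ℝ) (f : (E → Bool) → ℝ) :
    ex p (fun x => f (fun e => !x e)) = ex (1 - p) f := by
  unfold ex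
  let σ : (E → Bool) ≃ (E → Bool) :=
    ⟨fun x e => !x e, fun x e => !x e, fun x => by simp, fun x => by simp⟩
  rw [← Equiv.sum_comp σ (fun x => wt (1 - p) x * f x)]
  refine Finset.sum_congr rfl fun x _ => ?_
  have hw : wt (1 - p) (σ x) = wt p x := by
    unfold wt
    refine Finset.prod_congr rfl fun e _ => ?_
    show bw (1 - p) (!x e) = bw p (x e)
    cases x e
    · rw [Bool.not_false, bw_true, bw_false]
    · rw [Bool.not_true, bw_false, bw_true]; ring
  rw [hw]
  rfl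

lemma gr_flip {V : Type*} (x : Sym2 V → Bool) : gr (fun e => !x e) = (gr x)ᶜ := by
  ext u v
  rw [SimpleGraph.compl_adj, gr_adj, gr_adj]
  simp only [Bool.not_eq_true', not_and, Bool.not_eq_true]
  tauto

lemma numUnlabeled_compl {V : Type*} (G : SimpleGraph V) :
    numUnlabeled Gᶜ = numUnlabeled G := by
  have h : indSetoid Gᶜ = indSetoid G := by
    ext S S'
    have hc : ∀ (H : SimpleGraph V) (A B : Set V), Nonempty (H.induce A ≃g H.induce B) →
        Nonempty (Hᶜ.induce A ≃g Hᶜ.induce B) := by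
      rintro H A B ⟨φ⟩
      refine ⟨⟨φ.toEquiv, ?_⟩⟩
      intro a b
      show Hᶜ.Adj (φ a : V) (φ b : V) ↔ Hᶜ.Adj (a : V) (b : V)
      rw [SimpleGraph.compl_adj, SimpleGraph.compl_adj]
      have h1 : H.Adj (φ a : V) (φ b : V) ↔ H.Adj (a : V) (b : V) := φ.map_adj_iff
      have h2 : (φ a : V) ≠ (φ b : V) ↔ (a : V) ≠ (b : V) := by
        rw [not_iff_not]
        constructor
        · intro h
          exact congrArg (Subtype.val (p := fun v => v ∈ A)) (φ.injective (Subtype.ext h))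
        · intro h
          have : a = b := Subtype.ext h
          rw [this]
      rw [h1, h2]
    constructor
    · intro h'
      have := hc Gᶜ S S' h'
      rwa [compl_compl] at this
    · exact hc G S S'
  unfold numUnlabeled
  rw [h]

/-- Any functional of the number of unlabeled induced subgraphs is symmetric under `p ↦ 1 - p`. -/
lemma ex_compl {n : ℕ} (p : ℝ) (g : ℕ → ℝ) :
    ex p (fun x : Sym2 (Fin n) → Bool => g (numUnlabeled (gr x)))
      = ex (1 - p) (fun x : Sym2 (Fin n) → Bool => g (numUnlabeled (gr x))) := by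
  rw [← ex_flip]
  congr 1
  funext x
  rw [gr_flip, numUnlabeled_compl]

open Classical in
/-- The supercritical regime. -/
theorem superMain {δ : ℝ} (hδ : 0 < δ) :
    ∃ ε : ℝ, 0 < ε ∧ ∀ τ : ℝ, 0 < τ → ∀ᶠ n : ℕ in atTop, ∀ p : ℝ, 0 ≤ p → p ≤ 1 →
      1 + δ ≤ p * n → 1 + δ ≤ (1 - p) * n →
      ex p (fun x : Sym2 (Fin n) → Bool =>
        if (numUnlabeled (gr x) : ℝ) < 2 ^ (ε * n) then (1 : ℝ) else 0) ≤ τ := by
  have hδ' : 0 < min δ 1 := lt_min hδ one_pos
  obtain ⟨ε0, hε0, hA⟩ := regimeA (δ := min δ 1) (C := 8000) hδ' (min_le_right _ _) (by norm_num)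
  have hεp : 0 < min ε0 (1 / 2) := lt_min hε0 (by norm_num)
  refine ⟨min ε0 (1 / 2), hεp, fun τ hτ => ?_⟩
  filter_upwards [hA τ hτ, regimeB τ hτ] with n h1 h2
  have hn0 : (0 : ℝ) ≤ n := by positivity
  -- the case p ≤ 1/2
  have half : ∀ p : ℝ, 0 ≤ p → p ≤ 1 / 2 → 1 + δ ≤ p * n →
      ex p (fun x : Sym2 (Fin n) → Bool =>
        if (numUnlabeled (gr x) : ℝ) < 2 ^ (min ε0 (1 / 2) * n) then (1 : ℝ) else 0) ≤ τ := by
    intro p hp0 hp1 hp
    have hp1' : p ≤ 1 := by linarith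
    have hmono : ∀ ε' : ℝ, min ε0 (1 / 2) ≤ ε' → ∀ x : Sym2 (Fin n) → Bool,
        (if (numUnlabeled (gr x) : ℝ) < 2 ^ (min ε0 (1 / 2) * n) then (1 : ℝ) else 0) ≤
        (if (numUnlabeled (gr x) : ℝ) < 2 ^ (ε' * n) then (1 : ℝ) else 0) := by
      intro ε' hε' x
      by_cases hc : (numUnlabeled (gr x) : ℝ) < 2 ^ (min ε0 (1 / 2) * n)
      · rw [if_pos hc, if_pos]
        refine lt_of_lt_of_le hc (Real.rpow_le_rpow_of_exponent_le (by norm_num) ?_)
        exact mul_le_mul_of_nonneg_right hε' hn0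
      · rw [if_neg hc]
        split_ifs <;> norm_num
    rcases le_total (p * n) 8000 with hc | hc
    · refine (ex_mono hp0 hp1' (hmono ε0 (min_le_left _ _))).trans ?_
      refine h1 p hp0 hp1' ?_ hc
      have := min_le_left δ 1
      linarith
    · exact (ex_mono hp0 hp1' (hmono (1 / 2) (min_le_right _ _))).trans (h2 p hp0 hc hp1)
  intro p hp0 hp1 hp2 hp3
  rcases le_total p (1 / 2) with hc | hc
  · exact half p hp0 hc hp2
  · rw [ex_compl p (fun N : ℕ => if (N : ℝ) < 2 ^ (min ε0 (1 / 2) * n) then (1 : ℝ) else 0)]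
    exact half (1 - p) (by linarith) (by linarith) hp3

open Classical in
/-- The subcritical regime on both sides. -/
theorem subMain {δ ε τ : ℝ} (hδ : 0 < δ) (hε : 0 < ε) (hτ : 0 < τ) :
    ∀ᶠ n : ℕ in atTop, ∀ p : ℝ, 0 ≤ p → p ≤ 1 → (p * n ≤ 1 - δ ∨ (1 - p) * n ≤ 1 - δ) →
      ex p (fun x : Sym2 (Fin n) → Bool =>
        if 2 ^ (ε * n) < (numUnlabeled (gr x) : ℝ) then (1 : ℝ) else 0) ≤ τ := by
  filter_upwards [regimeSub hδ hε hτ] with n h1 p hp0 hp1 hp
  rcases hp with hp | hp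
  · exact h1 p hp0 hp1 hp
  · rw [ex_compl p (fun N : ℕ => if 2 ^ (ε * n) < (N : ℝ) then (1 : ℝ) else 0)]
    exact h1 (1 - p) (by linarith) (by linarith) hp

open Classical in
/-- From bounds on bad events to convergence of probabilities. -/
lemma tendsto_one {p : ℕ → unitInterval} (A : ∀ n : ℕ, Set (SimpleGraph (Fin n)))
    (h : ∀ τ : ℝ, 0 < τ → ∀ᶠ n : ℕ in atTop,
      ex (p n : ℝ) (fun x : Sym2 (Fin n) → Bool => if gr x ∈ A n then (0 : ℝ) else 1) ≤ τ) :
    Tendsto (fun n => SimpleGraph.binomialRandom (Fin n) (p n) (A n)) atTop (𝓝 1) := by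
  have e1 : ∀ n : ℕ, ex (p n : ℝ) (fun x : Sym2 (Fin n) → Bool => if gr x ∈ A n then (1 : ℝ) else 0)
      = 1 - ex (p n : ℝ) (fun x : Sym2 (Fin n) → Bool => if gr x ∈ A n then (0 : ℝ) else 1) := by
    intro n
    rw [eq_sub_iff_add_eq, ← ex_add]
    have : (fun x : Sym2 (Fin n) → Bool => (if gr x ∈ A n then (1 : ℝ) else 0) +
        (if gr x ∈ A n then (0 : ℝ) else 1)) = fun _ => 1 := by
      funext x
      split_ifs <;> norm_num
    rw [this, ex_const]
  have e2 : Tendsto (fun n : ℕ => ex (p n : ℝ)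
      (fun x : Sym2 (Fin n) → Bool => if gr x ∈ A n then (0 : ℝ) else 1)) atTop (𝓝 0) := by
    rw [tendsto_order]
    constructor
    · intro a ha
      refine Eventually.of_forall fun n => lt_of_lt_of_le ha ?_
      exact ex_nonneg (p n).2.1 (p n).2.2 fun x => by split_ifs <;> norm_num
    · intro a ha
      filter_upwards [h (a / 2) (by linarith)] with n hn
      linarith
  have e3 : Tendsto (fun n : ℕ => ex (p n : ℝ)
      (fun x : Sym2 (Fin n) → Bool => if gr x ∈ A n then (1 : ℝ) else 0)) atTop (𝓝 1) := by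
    simp_rw [e1]
    simpa using e2.const_sub 1
  have e4 := ENNReal.tendsto_ofReal e3
  rw [ENNReal.ofReal_one] at e4
  refine e4.congr fun n => ?_
  rw [measure_eq]

/-- Below `1/n` (and above `1 - 1/n`) there are subexponentially many unlabeled induced
subgraphs. -/
theorem below {δ : ℝ} (hδ : 0 < δ) (p : ℕ → unitInterval)
    (hp : ∀ᶠ n : ℕ in atTop, (p n : ℝ) < (1 - δ) / n ∨ 1 - (1 - δ) / n < (p n : ℝ))
    {ε : ℝ} (hε : 0 < ε) :
    Tendsto (fun n : ℕ => SimpleGraph.binomialRandom (Fin n) (p n)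
      {G | (numUnlabeled G : ℝ) ≤ 2 ^ (ε * n)}) atTop (𝓝 1) := by
  classical
  refine tendsto_one _ fun τ hτ => ?_
  filter_upwards [hp, subMain hδ hε hτ, eventually_gt_atTop 0] with n hn h1 hn0
  have hn' : (0 : ℝ) < n := by exact_mod_cast hn0
  refine le_trans (ex_mono (p n).2.1 (p n).2.2 ?_) (h1 (p n) (p n).2.1 (p n).2.2 ?_)
  · intro x
    by_cases hc : (numUnlabeled (gr x) : ℝ) ≤ 2 ^ (ε * n)
    · rw [if_pos hc]
      split_ifs <;> norm_num
    · rw [if_neg hc, if_pos (not_le.1 hc)]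
  · rcases hn with hn | hn
    · left
      rw [lt_div_iff₀ hn'] at hn
      exact hn.le
    · right
      have : 1 - (p n : ℝ) < (1 - δ) / n := by linarith
      rw [lt_div_iff₀ hn'] at this
      exact this.le

/-- Between `1/n` and `1 - 1/n` there are exponentially many unlabeled induced subgraphs. -/
theorem above {δ : ℝ} (hδ : 0 < δ) :
    ∃ ε : ℝ, 0 < ε ∧ ∀ p : ℕ → unitInterval,
      (∀ᶠ n : ℕ in atTop, (1 + δ) / n < (p n : ℝ) ∧ (p n : ℝ) < 1 - (1 + δ) / n) →
      Tendsto (fun n : ℕ => SimpleGraph.binomialRandom (Fin n) (p n)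
        {G | 2 ^ (ε * n) ≤ (numUnlabeled G : ℝ)}) atTop (𝓝 1) := by
  classical
  obtain ⟨ε, hε, h⟩ := superMain hδ
  refine ⟨ε, hε, fun p hp => tendsto_one _ fun τ hτ => ?_⟩
  filter_upwards [hp, h τ hτ, eventually_gt_atTop 0] with n hn h1 hn0
  have hn' : (0 : ℝ) < n := by exact_mod_cast hn0
  refine le_trans (ex_mono (p n).2.1 (p n).2.2 ?_) (h1 (p n) (p n).2.1 (p n).2.2 ?_ ?_)
  · intro x
    by_cases hc : 2 ^ (ε * n) ≤ (numUnlabeled (gr x) : ℝ)
    · rw [if_pos hc]
      split_ifs <;> norm_num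
    · rw [if_neg hc, if_pos (not_le.1 hc)]
  · have := hn.1
    rw [div_lt_iff₀ hn'] at this
    exact this.le
  · have : (1 + δ) / n < 1 - (p n : ℝ) := by linarith [hn.2]
    rw [div_lt_iff₀ hn'] at this
    exact this.le

end Pool.Agent.Lib.MP_52097a_pr
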